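import Pool.Agent.KBP.Det
import Mathlib.LinearAlgebra.Matrix.NonsingularInverse
import Mathlib.LinearAlgebra.Dual.Lemmas
import Mathlib.LinearAlgebra.Basis.VectorSpace
import Mathlib.Data.Real.Basic

/-!
The auxiliary polynomial through points in one residue class.
-/

namespace Pool.Agent.KBP

open Polynomial Finset

/-- Exponents of the `i`-th monomial. -/
def ea (m : ℕ) (i : Fin (3 * (m + 1))) : ℕ := (finProdFinEquiv.symm i).1

/-- Exponents of the `i`-th monomial. -/
def eb (m : ℕ) (i : Fin (3 * (m + 1))) : ℕ := (finProdFinEquiv.symm i).2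

lemma ea_le (m : ℕ) (i : Fin (3 * (m + 1))) : ea m i ≤ 2 := by
  have := (finProdFinEquiv.symm i).1.isLt
  unfold ea
  omega

lemma eb_le (m : ℕ) (i : Fin (3 * (m + 1))) : eb m i ≤ m := by
  have := (finProdFinEquiv.symm i).2.isLt
  unfold eb
  omega

lemma eab_inj (m : ℕ) {i j : Fin (3 * (m + 1))} (ha : ea m i = ea m j) (hb : eb m i = eb m j) :
    i = j := by
  apply finProdFinEquiv.symm.injective
  exact Prod.ext (Fin.ext ha) (Fin.ext hb)

lemma det_bound {s : ℕ} (e : Matrix (Fin s) (Fin s) ℤ) (b : Fin s → ℝ)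
    (h : ∀ i j, |(e i j : ℝ)| ≤ b i) : |(e.det : ℝ)| ≤ (s.factorial : ℝ) * ∏ i, b i := by
  rw [Matrix.det_apply]
  push_cast
  refine (Finset.abs_sum_le_sum_abs _ _).trans ?_
  have h1 : ∀ σ : Equiv.Perm (Fin s), |((Equiv.Perm.sign σ • ∏ i, e (σ i) i : ℤ) : ℝ)| ≤
      ∏ i, b i := by
    intro σ
    have h2 : |((Equiv.Perm.sign σ • ∏ i, e (σ i) i : ℤ) : ℝ)| = ∏ i, |(e (σ i) i : ℝ)| := by
      rcases Int.units_eq_one_or (Equiv.Perm.sign σ) with hs | hs
      · rw [hs, one_smul]
        push_cast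
        rw [Finset.abs_prod]
      · rw [hs]
        simp only [Units.neg_smul, one_smul, Int.cast_neg, abs_neg]
        push_cast
        rw [Finset.abs_prod]
    rw [h2, ← Equiv.prod_comp σ b]
    exact Finset.prod_le_prod (fun i _ => abs_nonneg _) (fun i _ => h _ _)
  calc _ ≤ ∑ _σ : Equiv.Perm (Fin s), ∏ i, b i := by
        apply Finset.sum_le_sum
        intro σ _
        exact_mod_cast h1 σ
    _ = _ := by
      rw [Finset.sum_const, Finset.card_univ, Fintype.card_perm, Fintype.card_fin, nsmul_eq_mul]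

lemma prod_bounds (m : ℕ) (K T : ℝ) :
    ∏ i : Fin (3 * (m + 1)), (K ^ ea m i * T ^ eb m i) =
      K ^ (3 * (m + 1)) * T ^ (3 * ∑ b ∈ range (m + 1), b) := by
  unfold ea eb
  rw [Equiv.prod_comp finProdFinEquiv.symm
    (fun x : Fin 3 × Fin (m + 1) => K ^ (x.1 : ℕ) * T ^ (x.2 : ℕ)), Finset.prod_mul_distrib,
    Fintype.prod_prod_type, Fintype.prod_prod_type]
  congr 1
  · simp only [Finset.prod_const, Finset.card_univ, Fintype.card_fin]
    rw [Fin.prod_univ_three, ← pow_mul, ← pow_mul, ← pow_mul, ← pow_add, ← pow_add]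
    congr 1
    simp
    ring
  · simp only [Finset.prod_const, Finset.card_univ, Fintype.card_fin]
    rw [Finset.prod_pow_eq_pow_sum, ← pow_mul, Fin.sum_univ_eq_sum_range (fun b => b)]
    congr 1
    ring

lemma exists_coeffs (m : ℕ) {P Q : ℤ[X]} {q : ℕ} (hq : q.Prime) (S : Finset (ℤ × ℤ))
    (hS : ∀ p ∈ S, P.eval p.1 = Q.eval p.2) (hns : ∀ p ∈ S, ¬ (q : ℤ) ∣ P.derivative.eval p.1)
    (hcl : ∀ p ∈ S, ∀ p' ∈ S, (q : ℤ) ∣ p'.1 - p.1 ∧ (q : ℤ) ∣ p'.2 - p.2) {K T : ℝ}
    (hK : ∀ p ∈ S, |(p.1 : ℝ)| ≤ K) (hT : ∀ p ∈ S, |(p.2 : ℝ)| ≤ T) (hK0 : 0 ≤ K)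
    (hlt : ((3 * (m + 1)).factorial : ℝ) * (K ^ (3 * (m + 1)) *
      T ^ (3 * ∑ b ∈ range (m + 1), b)) < (q : ℝ) ^ (∑ k ∈ range (3 * (m + 1)), k)) :
    ∃ c : Fin (3 * (m + 1)) → ℚ, c ≠ 0 ∧
      ∀ p ∈ S, ∑ i, c i * ((p.1 : ℚ) ^ ea m i * (p.2 : ℚ) ^ eb m i) = 0 := by
  classical
  set s := 3 * (m + 1) with hs
  let v : ℤ × ℤ → (Fin s → ℚ) := fun p i => (p.1 : ℚ) ^ ea m i * (p.2 : ℚ) ^ eb m i
  by_cases hV : Submodule.span ℚ (v '' S) = ⊤
  · exfalso
    obtain ⟨b, hbsub, hbspan, hbli⟩ := exists_linearIndependent ℚ (v '' (S : Set (ℤ × ℤ)))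
    rw [hV] at hbspan
    -- the set `b` is a basis
    have hfinb : b.Finite := Set.Finite.subset ((Finset.finite_toSet S).image v) hbsub
    let B : Module.Basis b ℚ (Fin s → ℚ) := Module.Basis.mk hbli (by
      rw [Subtype.range_coe_subtype, Set.ofPred_mem_eq, hbspan])
    have : Fintype b := hfinb.fintype
    have hcard : Fintype.card b = s := by
      have := Module.finrank_eq_card_basis B
      rw [Module.finrank_fin_fun] at this
      exact this.symm
    let E : Fin s ≃ b := (Fintype.equivFinOfCardEq hcard).symm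
    have hpt : ∀ j : Fin s, ∃ p ∈ S, v p = (E j : Fin s → ℚ) := by
      intro j
      obtain ⟨p, hp, hvp⟩ := hbsub (E j).2
      exact ⟨p, hp, hvp⟩
    choose p hpS hpv using hpt
    have hli : LinearIndependent ℚ (fun j : Fin s => v (p j)) := by
      have h1 : LinearIndependent ℚ (fun j : Fin s => ((E j : b) : Fin s → ℚ)) :=
        hbli.comp E E.injective
      have h2 : (fun j : Fin s => v (p j)) = fun j : Fin s => ((E j : b) : Fin s → ℚ) :=
        funext hpv
      rw [h2]
      exact h1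
    let W : Matrix (Fin s) (Fin s) ℤ := Matrix.of fun i j => (p j).1 ^ ea m i * (p j).2 ^ eb m i
    have hdet : W.det ≠ 0 := by
      intro h0
      have h1 : IsUnit (Matrix.of fun j i : Fin s => v (p j) i) := by
        rw [← Matrix.linearIndependent_rows_iff_isUnit]
        exact hli
      rw [Matrix.isUnit_iff_isUnit_det] at h1
      apply h1.ne_zero
      have h2 := (Int.castRingHom ℚ).map_det W
      rw [h0, map_zero, ← Matrix.det_transpose] at h2
      rw [← h2.symm]
      congr 1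
      ext j i
      simp [W, v]
    obtain ⟨φ, hφ⟩ : ∃ φ : ℤ[X], ∀ j, (q : ℤ) ^ (∑ k ∈ range s, k) ∣ (p j).1 - φ.eval (p j).2 := by
      by_cases hs0 : 0 < s
      · obtain ⟨φ, hφ⟩ := hensel_poly (Q := Q) hq (hns (p ⟨0, hs0⟩) (hpS _)) (∑ k ∈ range s, k)
        refine ⟨φ, fun j => ?_⟩
        have h1 := hφ (p j).1 (p j).2 (hcl _ (hpS ⟨0, hs0⟩) _ (hpS j)).1 (hS _ (hpS j))
        exact (pow_dvd_pow _ (Nat.le_succ _)).trans h1
      · exact ⟨0, fun j => absurd j.isLt (by omega)⟩
    have hdvd := det_dvd' (q := q) (s := s) (fun i => φ ^ ea m i * X ^ eb m i)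
      (fun n => if h : n < s then (p ⟨n, h⟩).2 else 0)
      (by
        intro i j hi hj
        simp only [hi, hj, dite_true]
        exact (hcl _ (hpS _) _ (hpS _)).2) W
      (by
        intro i j
        simp only [W, Matrix.of_apply, j.isLt, dite_true, Fin.eta]
        rw [eval_mul, eval_pow, eval_pow, eval_X, ← sub_mul]
        exact ((hφ j).trans (sub_dvd_pow_sub_pow _ _ _)).mul_right _)
    have hbd := det_bound W (fun i => K ^ ea m i * T ^ eb m i) (by
      intro i j
      simp only [W, Matrix.of_apply]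
      push_cast
      rw [abs_mul, abs_pow, abs_pow]
      exact mul_le_mul (pow_le_pow_left₀ (abs_nonneg _) (hK _ (hpS j)) _)
        (pow_le_pow_left₀ (abs_nonneg _) (hT _ (hpS j)) _) (by positivity) (by positivity))
    rw [prod_bounds] at hbd
    have h3 : |(W.det : ℝ)| < (q : ℝ) ^ (∑ k ∈ range s, k) := lt_of_le_of_lt hbd hlt
    have h4 : |W.det| < (q : ℤ) ^ (∑ k ∈ range s, k) := by exact_mod_cast h3
    exact hdet (Int.eq_zero_of_abs_lt_dvd hdvd h4)
  · obtain ⟨f, hf, hf2⟩ := Submodule.exists_dual_map_eq_bot_of_lt_top (lt_top_iff_ne_top.mpr hV)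
      inferInstance
    refine ⟨fun i => f (Pi.single i 1), ?_, ?_⟩
    · intro h
      apply hf
      apply LinearMap.pi_ext
      intro i x
      have h1 : (Pi.single i x : Fin s → ℚ) = x • Pi.single i (1 : ℚ) := by
        rw [← Pi.single_smul, smul_eq_mul, mul_one]
      have h2 : f (Pi.single i (1 : ℚ)) = 0 := congrFun h i
      rw [h1, map_smul, h2, smul_zero, LinearMap.zero_apply]
    · intro p hp
      have h1 : f (v p) = 0 := by
        have h2 : v p ∈ Submodule.span ℚ (v '' S) :=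
          Submodule.subset_span ⟨p, hp, rfl⟩
        have h3 : f (v p) ∈ Submodule.map f (Submodule.span ℚ (v '' S)) :=
          Submodule.mem_map_of_mem h2
        rw [hf2] at h3
        exact h3
      rw [LinearMap.pi_apply_eq_sum_univ f (v p)] at h1
      rw [← h1]
      apply Finset.sum_congr rfl
      intro i _
      have h5 : (fun j : Fin s => if i = j then (1 : ℚ) else 0) = Pi.single i 1 := by
        funext j
        simp [Pi.single_apply, eq_comm]
      rw [h5, smul_eq_mul, mul_comm]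

end Pool.Agent.KBP
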