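import Pool.Agent.KBP.Res
import Pool.Agent.K3N.Curve
import Mathlib.Analysis.SpecialFunctions.Pow.Real

/-!
Integer points on `P(k) = Q(t)`, `P` a monic cubic: the method of Bombieri and Pila.
-/

namespace Pool.Agent.KBP

open Polynomial Finset Pool.Agent.K3N

/-- One class modulo `q`. -/
lemma class_card (m : ℕ) {P Q : ℤ[X]} (hP : P.Monic) (hd : P.natDegree = 3)
    {d : ℕ} (hQ : Q.natDegree ≤ d) (hmd : m ≤ d)
    (hno : ∀ κ : ℚ[X], (P.map (Int.castRingHom ℚ)).comp κ ≠ Q.map (Int.castRingHom ℚ))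
    {q : ℕ} (hq : q.Prime) (S : Finset (ℤ × ℤ))
    (hS : ∀ p ∈ S, P.eval p.1 = Q.eval p.2) (hns : ∀ p ∈ S, ¬ (q : ℤ) ∣ P.derivative.eval p.1)
    (hcl : ∀ p ∈ S, ∀ p' ∈ S, (q : ℤ) ∣ p'.1 - p.1 ∧ (q : ℤ) ∣ p'.2 - p.2) {K T : ℝ}
    (hK : ∀ p ∈ S, |(p.1 : ℝ)| ≤ K) (hT : ∀ p ∈ S, |(p.2 : ℝ)| ≤ T) (hK0 : 0 ≤ K)
    (hlt : ((3 * (m + 1)).factorial : ℝ) * (K ^ (3 * (m + 1)) *
      T ^ (3 * ∑ b ∈ range (m + 1), b)) < (q : ℝ) ^ (∑ k ∈ range (3 * (m + 1)), k)) :
    S.card ≤ 15 * d := by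
  classical
  obtain ⟨c, hc, h⟩ := exists_coeffs m hq S hS hns hcl hK hT hK0 hlt
  let f : ℤ × ℤ → ℚ × ℚ := fun p => ((p.1 : ℚ), (p.2 : ℚ))
  have hf : Function.Injective f := by
    intro p p' hpp
    simp only [f, Prod.mk.injEq, Int.cast_inj] at hpp
    exact Prod.ext hpp.1 hpp.2
  have h1 : (S.image f).card = S.card := Finset.card_image_of_injective _ hf
  rw [← h1]
  have hm : (P.map (Int.castRingHom ℚ)).Monic := hP.map _
  apply common_zeros (P := P.map (Int.castRingHom ℚ)) (Q := Q.map (Int.castRingHom ℚ)) (c := c)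
    (m := m) hm (by rw [hP.natDegree_map, hd]) hno hc
  · exact (natDegree_map_le).trans hQ
  · exact hmd
  · intro p hp
    obtain ⟨x, hx, rfl⟩ := Finset.mem_image.mp hp
    simp only [f]
    have e1 := eval_intCast_map (Int.castRingHom ℚ) P x.1
    have e2 := eval_intCast_map (Int.castRingHom ℚ) Q x.2
    rw [e1, e2, Int.cast_id, Int.cast_id, hS x hx]
  · intro p hp
    obtain ⟨x, hx, rfl⟩ := Finset.mem_image.mp hp
    exact h x hx

lemma prime_card (m : ℕ) {P Q : ℤ[X]} (hP : P.Monic) (hd : P.natDegree = 3)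
    {d : ℕ} (hQ : Q.natDegree ≤ d) (hmd : m ≤ d)
    (hno : ∀ κ : ℚ[X], (P.map (Int.castRingHom ℚ)).comp κ ≠ Q.map (Int.castRingHom ℚ))
    {q : ℕ} (hq : q.Prime) (S : Finset (ℤ × ℤ))
    (hS : ∀ p ∈ S, P.eval p.1 = Q.eval p.2) (hns : ∀ p ∈ S, ¬ (q : ℤ) ∣ P.derivative.eval p.1)
    {K T : ℝ}
    (hK : ∀ p ∈ S, |(p.1 : ℝ)| ≤ K) (hT : ∀ p ∈ S, |(p.2 : ℝ)| ≤ T) (hK0 : 0 ≤ K)
    (hlt : ((3 * (m + 1)).factorial : ℝ) * (K ^ (3 * (m + 1)) *
      T ^ (3 * ∑ b ∈ range (m + 1), b)) < (q : ℝ) ^ (∑ k ∈ range (3 * (m + 1)), k)) :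
    S.card ≤ 45 * d * q := by
  classical
  have : Fact q.Prime := ⟨hq⟩
  let f : ℤ × ℤ → ZMod q × ZMod q := fun p => ((p.1 : ZMod q), (p.2 : ZMod q))
  have h1 : S.card ≤ 15 * d * (S.image f).card := by
    apply Finset.card_le_mul_card_image
    intro u _
    apply class_card m hP hd hQ hmd hno hq _ _ _ _ (K := K) (T := T) _ _ hK0 hlt
    · intro p hp
      exact hS p (Finset.mem_filter.mp hp).1
    · intro p hp
      exact hns p (Finset.mem_filter.mp hp).1
    · intro p hp p' hp'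
      have e1 := (Finset.mem_filter.mp hp).2
      have e2 := (Finset.mem_filter.mp hp').2
      have e3 := e1.trans e2.symm
      simp only [f, Prod.mk.injEq] at e3
      exact ⟨(ZMod.intCast_eq_intCast_iff_dvd_sub _ _ _).mp e3.1,
        (ZMod.intCast_eq_intCast_iff_dvd_sub _ _ _).mp e3.2⟩
    · intro p hp
      exact hK p (Finset.mem_filter.mp hp).1
    · intro p hp
      exact hT p (Finset.mem_filter.mp hp).1
  have h2 : (S.image f).card ≤ 3 * q := by
    have h3 : (S.image f).card ≤ 3 * ((S.image f).image Prod.snd).card := by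
      apply Finset.card_le_mul_card_image
      intro u _
      have hinj : (((S.image f).filter (fun x => x.2 = u)).image Prod.fst).card =
          ((S.image f).filter (fun x => x.2 = u)).card := by
        apply Finset.card_image_of_injOn
        intro a ha b hb hab
        rw [Finset.coe_filter] at ha hb
        exact Prod.ext hab (ha.2.trans hb.2.symm)
      rw [← hinj]
      have hm : (P.map (Int.castRingHom (ZMod q))).Monic := hP.map _
      have hmd : (P.map (Int.castRingHom (ZMod q))).natDegree = 3 := by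
        rw [hP.natDegree_map, hd]
      have hR : P.map (Int.castRingHom (ZMod q)) -
          C ((Q.map (Int.castRingHom (ZMod q))).eval u) ≠ 0 := by
        intro h
        rw [sub_eq_zero] at h
        rw [h, natDegree_C] at hmd
        omega
      apply card_le_of_roots hR
      · rw [natDegree_sub_C, hmd]
      · intro t ht
        obtain ⟨x, hx, rfl⟩ := Finset.mem_image.mp ht
        obtain ⟨hx1, hx2⟩ := Finset.mem_filter.mp hx
        obtain ⟨p, hp, rfl⟩ := Finset.mem_image.mp hx1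
        simp only [f] at hx2 ⊢
        rw [eval_sub, eval_C, ← hx2]
        have e1 := eval_intCast_map (Int.castRingHom (ZMod q)) P p.1
        have e2 := eval_intCast_map (Int.castRingHom (ZMod q)) Q p.2
        rw [e1, e2, Int.cast_id, Int.cast_id, hS p hp, sub_self]
    have h4 : ((S.image f).image Prod.snd).card ≤ q := by
      calc _ ≤ Fintype.card (ZMod q) := Finset.card_le_univ _
        _ = q := ZMod.card q
    exact h3.trans (Nat.mul_le_mul_left 3 h4)
  calc S.card ≤ 15 * d * (3 * q) := h1.trans (Nat.mul_le_mul_left _ h2)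
    _ = 45 * d * q := by ring

theorem bp_ns (m r : ℕ) {P Q : ℤ[X]} (hP : P.Monic) (hd : P.natDegree = 3)
    {d : ℕ} (hQ : Q.natDegree ≤ d) (hmd : m ≤ d)
    (hno : ∀ κ : ℚ[X], (P.map (Int.castRingHom ℚ)).comp κ ≠ Q.map (Int.castRingHom ℚ))
    (N : ℕ) (hN : 1 ≤ N) (S : Finset (ℤ × ℤ))
    (hS : ∀ p ∈ S, P.eval p.1 = Q.eval p.2)
    {K T : ℝ}
    (hK : ∀ p ∈ S, |(p.1 : ℝ)| ≤ K) (hT : ∀ p ∈ S, |(p.2 : ℝ)| ≤ T) (hK0 : 0 ≤ K)
    (hle : ((3 * (m + 1)).factorial : ℝ) * (K ^ (3 * (m + 1)) *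
      T ^ (3 * ∑ b ∈ range (m + 1), b)) ≤ (N : ℝ) ^ (∑ k ∈ range (3 * (m + 1)), k))
    (hdv : ∀ p ∈ S, P.derivative.eval p.1 ≠ 0 ∧ |P.derivative.eval p.1| ≤ (N : ℤ) ^ r) :
    S.card ≤ (r + 1) * (45 * d * (2 ^ (r + 1) * N)) := by
  classical
  obtain ⟨T', hT', h⟩ := exists_primes N hN (r + 1)
  have hcov : S ⊆ T'.biUnion (fun q => S.filter (fun p => ¬ (q : ℤ) ∣ P.derivative.eval p.1)) := by
    intro p hp
    rw [Finset.mem_biUnion]
    by_contra hno
    push Not at hno
    have hall : ∀ q ∈ T', (q : ℤ) ∣ P.derivative.eval p.1 := by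
      intro q hq
      by_contra hnd
      exact hno q hq (Finset.mem_filter.mpr ⟨hp, hnd⟩)
    obtain ⟨h0, hle⟩ := hdv p hp
    have hdvd : ((∏ q ∈ T', q : ℕ) : ℤ) ∣ P.derivative.eval p.1 := by
      rw [Int.natCast_dvd]
      apply Finset.prod_primes_dvd
      · intro q hq
        exact (h q hq).1.prime
      · intro q hq
        rw [← Int.natCast_dvd]
        exact hall q hq
    have h1 : ((∏ q ∈ T', q : ℕ) : ℤ) ≤ |P.derivative.eval p.1| :=
      Int.le_of_dvd (abs_pos.mpr h0) ((dvd_abs _ _).mpr hdvd)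
    have h2 : (N + 1) ^ (r + 1) ≤ ∏ q ∈ T', q := by
      rw [← hT', ← Finset.prod_const]
      apply Finset.prod_le_prod'
      intro q hq
      exact (h q hq).2.1
    have h3 : N ^ r < (N + 1) ^ (r + 1) := by
      calc N ^ r ≤ (N + 1) ^ r := Nat.pow_le_pow_left (by omega) r
        _ < (N + 1) ^ (r + 1) := Nat.pow_lt_pow_right (by omega) (by omega)
    have h4 : ((N : ℤ)) ^ r < ((∏ q ∈ T', q : ℕ) : ℤ) := by exact_mod_cast lt_of_lt_of_le h3 h2
    linarith
  have hone : ∀ q ∈ T', (S.filter (fun p => ¬ (q : ℤ) ∣ P.derivative.eval p.1)).card ≤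
      45 * d * (2 ^ (r + 1) * N) := by
    intro q hq
    obtain ⟨hqp, hlt, hle'⟩ := h q hq
    refine (prime_card m hP hd hQ hmd hno hqp _ ?_ ?_ (K := K) (T := T) ?_ ?_ hK0 ?_).trans
      (Nat.mul_le_mul_left _ hle')
    · intro p hp
      exact hS p (Finset.mem_filter.mp hp).1
    · intro p hp
      exact (Finset.mem_filter.mp hp).2
    · intro p hp
      exact hK p (Finset.mem_filter.mp hp).1
    · intro p hp
      exact hT p (Finset.mem_filter.mp hp).1
    · refine lt_of_le_of_lt hle ?_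
      apply pow_lt_pow_left₀ _ (by positivity)
      · have : 1 ∈ range (3 * (m + 1)) := mem_range.mpr (by omega)
        have h5 := Finset.single_le_sum (f := fun k : ℕ => k) (fun _ _ => Nat.zero_le _) this
        omega
      · exact_mod_cast hlt
  calc S.card ≤ _ := Finset.card_le_card hcov
    _ ≤ ∑ q ∈ T', (S.filter (fun p => ¬ (q : ℤ) ∣ P.derivative.eval p.1)).card :=
        Finset.card_biUnion_le
    _ ≤ ∑ q ∈ T', 45 * d * (2 ^ (r + 1) * N) := Finset.sum_le_sum hone
    _ = _ := by rw [Finset.sum_const, hT', smul_eq_mul]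

lemma card_le_natDegree {F : Type*} [CommRing F] [IsDomain F] [DecidableEq F] {R : F[X]}
    (hR : R ≠ 0) (T : Finset F) (hT : ∀ t ∈ T, R.eval t = 0) :
    T.card ≤ R.natDegree := by
  have h1 : T ⊆ R.roots.toFinset := by
    intro t ht
    rw [Multiset.mem_toFinset, mem_roots hR]
    exact hT t ht
  calc T.card ≤ R.roots.toFinset.card := Finset.card_le_card h1
    _ ≤ R.roots.card := Multiset.toFinset_card_le _
    _ ≤ R.natDegree := R.card_roots'

/-- Integer points on `P(k) = Q(t)`. -/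
theorem bp_count (m r : ℕ) {P Q : ℤ[X]} (hP : P.Monic) (hd : P.natDegree = 3)
    {d : ℕ} (hQ : Q.natDegree ≤ d) (hQ1 : 1 ≤ Q.natDegree) (hmd : m ≤ d)
    (hno : ∀ κ : ℚ[X], (P.map (Int.castRingHom ℚ)).comp κ ≠ Q.map (Int.castRingHom ℚ))
    (N : ℕ) (hN : 1 ≤ N) (S : Finset (ℤ × ℤ))
    (hS : ∀ p ∈ S, P.eval p.1 = Q.eval p.2)
    {K T : ℝ}
    (hK : ∀ p ∈ S, |(p.1 : ℝ)| ≤ K) (hT : ∀ p ∈ S, |(p.2 : ℝ)| ≤ T) (hK0 : 0 ≤ K)
    (hle : ((3 * (m + 1)).factorial : ℝ) * (K ^ (3 * (m + 1)) *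
      T ^ (3 * ∑ b ∈ range (m + 1), b)) ≤ (N : ℝ) ^ (∑ k ∈ range (3 * (m + 1)), k))
    (hdv : ∀ p ∈ S, |P.derivative.eval p.1| ≤ (N : ℤ) ^ r) :
    S.card ≤ (r + 1) * (45 * d * (2 ^ (r + 1) * N)) + 2 * d := by
  classical
  have h1 : (S.filter (fun p => P.derivative.eval p.1 ≠ 0)).card ≤
      (r + 1) * (45 * d * (2 ^ (r + 1) * N)) := by
    apply bp_ns m r hP hd hQ hmd hno N hN _ _ (K := K) (T := T) _ _ hK0 hle
    · intro p hp
      exact ⟨(Finset.mem_filter.mp hp).2, hdv p (Finset.mem_filter.mp hp).1⟩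
    · intro p hp
      exact hS p (Finset.mem_filter.mp hp).1
    · intro p hp
      exact hK p (Finset.mem_filter.mp hp).1
    · intro p hp
      exact hT p (Finset.mem_filter.mp hp).1
  have h2 : (S.filter (fun p => ¬ P.derivative.eval p.1 ≠ 0)).card ≤ 2 * d := by
    set S0 := S.filter (fun p => ¬ P.derivative.eval p.1 ≠ 0) with hS0
    have h3 : S0.card ≤ d * (S0.image Prod.fst).card := by
      apply Finset.card_le_mul_card_image
      intro u _
      have hinj : ((S0.filter (fun x => x.1 = u)).image Prod.snd).card =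
          (S0.filter (fun x => x.1 = u)).card := by
        apply Finset.card_image_of_injOn
        intro a ha b hb hab
        rw [Finset.coe_filter] at ha hb
        exact Prod.ext (ha.2.trans hb.2.symm) hab
      rw [← hinj]
      have hR : Q - C (P.eval u) ≠ 0 := by
        intro h
        rw [sub_eq_zero] at h
        rw [h, natDegree_C] at hQ1
        omega
      refine (card_le_natDegree hR _ ?_).trans ?_
      · intro t ht
        obtain ⟨x, hx, rfl⟩ := Finset.mem_image.mp ht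
        obtain ⟨hx1, hx2⟩ := Finset.mem_filter.mp hx
        rw [eval_sub, eval_C, ← hS x (Finset.mem_filter.mp hx1).1, hx2, sub_self]
      · rw [natDegree_sub_C]
        exact hQ
    have h4 : (S0.image Prod.fst).card ≤ 2 := by
      have hR : derivative P ≠ 0 := by
        intro h
        have := derivative_eq_zero.mp h
        omega
      refine (card_le_natDegree hR _ ?_).trans ?_
      · intro u hu
        obtain ⟨x, hx, rfl⟩ := Finset.mem_image.mp hu
        have := (Finset.mem_filter.mp hx).2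
        push Not at this
        exact this
      · exact (natDegree_derivative_le _).trans (by omega)
    calc S0.card ≤ d * 2 := h3.trans (Nat.mul_le_mul_left _ h4)
      _ = 2 * d := by ring
  have h3 := Finset.card_filter_add_card_filter_not (s := S)
    (fun p => P.derivative.eval p.1 ≠ 0)
  omega

end Pool.Agent.KBP
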