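import Pool.Agent.KBP.Main
import Pool.Agent.K3N.Fin4

/-!
The count in a box.
-/

namespace Pool.Agent.KBP

open Polynomial Finset Pool.Agent.K3N Height

/-- The point `(x, z, w)` lies on `w^2 = f(x) g(z)`, `w ≠ 0`, with heights at most `X`, `Y`. -/
def InBox (a b a' b' : ℤ) (X Y : ℝ) (p : ℚ × ℚ × ℚ) : Prop :=
  p.2.2 ^ 2 = K3H.fc (a : ℚ) b p.1 * K3H.fc (a' : ℚ) b' p.2.1 ∧ p.2.2 ≠ 0 ∧
    mulHeight₁ p.1 ≤ X ∧ mulHeight₁ p.2.1 ≤ Y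

lemma InBox.ne {a b a' b' : ℤ} {X Y : ℝ} {p : ℚ × ℚ × ℚ} (h : InBox a b a' b' X Y p) :
    K3H.fc (a : ℚ) b p.1 ≠ 0 ∧ K3H.fc (a' : ℚ) b' p.2.1 ≠ 0 := by
  obtain ⟨h1, h2, _⟩ := h
  have h3 : K3H.fc (a : ℚ) b p.1 * K3H.fc (a' : ℚ) b' p.2.1 ≠ 0 := by
    rw [← h1]; exact pow_ne_zero 2 h2
  exact ⟨left_ne_zero_of_mul h3, right_ne_zero_of_mul h3⟩

lemma fib_count' {a b a' b' : ℤ} (hΔ : 4 * a ^ 3 + 27 * b ^ 2 ≠ 0)
    (hΔ' : 4 * a' ^ 3 + 27 * b' ^ 2 ≠ 0) (η : ℝ) (hη : 0 < η) :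
    ∃ C : ℝ, 0 ≤ C ∧ ∀ B : ℝ, 1 ≤ B → ∀ s : Finset (ℚ × ℚ × ℚ),
      (∀ p ∈ s, InBox a b a' b' B B p) →
      ((∃ x0, ∀ p ∈ s, p.1 = x0) ∨ (∃ z0, ∀ p ∈ s, p.2.1 = z0)) →
      (s.card : ℝ) ≤ C * B ^ η := by
  classical
  obtain ⟨C, hC0, hC⟩ := K3H.class_count (disc_cast hΔ) (disc_cast hΔ') η hη
  refine ⟨C, hC0, ?_⟩
  intro B hB s hs hfib
  rcases s.eq_empty_or_nonempty with rfl | ⟨p₀, hp₀⟩
  · rw [Finset.card_empty]
    push_cast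
    positivity
  have hBexp : Real.exp (η * Real.log B) = B ^ η := by
    rw [Real.rpow_def_of_pos (by linarith), mul_comm]
  have hlog : ∀ p ∈ s, logHeight₁ p.1 ≤ Real.log B ∧ logHeight₁ p.2.1 ≤ Real.log B := by
    intro p hp
    obtain ⟨_, _, g1, g2⟩ := hs p hp
    rw [logHeight₁_eq_log_mulHeight₁, logHeight₁_eq_log_mulHeight₁]
    have h1 := one_le_mulHeight₁ p.1
    have h2 := one_le_mulHeight₁ p.2.1
    exact ⟨Real.log_le_log (by linarith) g1, Real.log_le_log (by linarith) g2⟩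
  rw [← hBexp]
  rcases hfib with ⟨x0, hx0⟩ | ⟨z0, hz0⟩
  · have hf0 : K3H.fc (a : ℚ) b x0 ≠ 0 := by
      rw [← hx0 p₀ hp₀]; exact (hs p₀ hp₀).ne.1
    apply hC (K3H.fc (a : ℚ) b x0) hf0 (Real.log B) (Real.log_nonneg hB) s
    intro p hp
    exact ⟨(hs p hp).1, (hs p hp).2.1, ⟨1, one_ne_zero, by rw [hx0 p hp]; ring⟩,
      (hlog p hp).1, (hlog p hp).2⟩
  · have hf0 : K3H.fc (a' : ℚ) b' z0 ≠ 0 := by
      rw [← hz0 p₀ hp₀]; exact (hs p₀ hp₀).ne.2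
    apply hC (K3H.fc (a' : ℚ) b' z0) hf0 (Real.log B) (Real.log_nonneg hB) s
    intro p hp
    have hx := (hs p hp).ne.1
    refine ⟨(hs p hp).1, (hs p hp).2.1, ⟨p.2.2 / K3H.fc (a : ℚ) b p.1,
      div_ne_zero (hs p hp).2.1 hx, ?_⟩, (hlog p hp).1, (hlog p hp).2⟩
    rw [div_pow, (hs p hp).1, hz0 p hp]
    field_simp

/-- Rational numbers with a large square factor. -/
lemma sq_rat (a b : ℤ) (hΔ : 4 * a ^ 3 + 27 * b ^ 2 ≠ 0) (ε : ℝ) (hε : 0 < ε) :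
    ∃ C : ℝ, 1 ≤ C ∧ ∀ (X : ℝ) (α Z : ℕ) (S : Finset ℚ), 1 ≤ X → 1 ≤ α →
      (∀ x ∈ S, mulHeight₁ x ≤ X ∧ nn a b x ≠ 0 ∧ α < K3N.sq (nn a b x).natAbs ∧
        K3N.sq (nn a b x).natAbs ≤ Z) → (S.card : ℝ) ≤ C * X ^ ε * (Z + X ^ 2 / α) := by
  classical
  obtain ⟨C, hC1, hC⟩ := sq_small a b hΔ ε hε
  refine ⟨C, hC1, ?_⟩
  intro X α Z S hX hα hS
  have hinj : (S.image (fun x : ℚ => (x.num, (x.den : ℤ)))).card = S.card := by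
    apply Finset.card_image_of_injOn
    intro x _ y _ hxy
    simp only [Prod.mk.injEq] at hxy
    exact Rat.ext hxy.1 (by exact_mod_cast hxy.2)
  rw [← hinj]
  apply hC X α Z _ hX hα
  intro y hy
  obtain ⟨x, hx, rfl⟩ := mem_image.mp hy
  obtain ⟨h1, h2, h3, h4⟩ := hS x hx
  rw [ht_eq] at h1
  exact ⟨Rat.isCoprime_num_den x, (le_max_left _ _).trans h1, (le_max_right _ _).trans h1, h2,
    h3, h4⟩

/-- A large square part gives a small squarefree part. -/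
lemma sf_small (a b : ℤ) {X : ℝ} (hX : 1 ≤ X) {x : ℚ} (hx : mulHeight₁ x ≤ X)
    (h : ⌈X ^ (4 / 3 : ℝ)⌉₊ < K3N.sq (nn a b x).natAbs) :
    sf (nn a b x).natAbs ≤ ⌊(1 + |(a : ℝ)| + |(b : ℝ)|) * X ^ (4 / 3 : ℝ)⌋₊ := by
  have hX0 : 0 < X := by linarith
  apply Nat.le_floor
  rw [ht_eq] at hx
  have h1 := GG_abs_le a b hX0.le ((le_max_left _ _).trans hx) ((le_max_right _ _).trans hx)
  have h2 : ((nn a b x).natAbs : ℝ) ≤ (1 + |(a : ℝ)| + |(b : ℝ)|) * X ^ 4 := by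
    rw [Nat.cast_natAbs]
    push_cast
    exact h1
  have h3 : ((nn a b x).natAbs : ℝ) =
      (K3N.sq (nn a b x).natAbs : ℝ) ^ 2 * (sf (nn a b x).natAbs : ℝ) := by
    conv_lhs => rw [← sq_sf (nn a b x).natAbs]
    push_cast
    ring
  have h4 : X ^ (4 / 3 : ℝ) ≤ (K3N.sq (nn a b x).natAbs : ℝ) := by
    refine (Nat.le_ceil _).trans ?_
    exact_mod_cast h.le
  have h5 : X ^ 4 = (X ^ (4 / 3 : ℝ)) ^ 2 * X ^ (4 / 3 : ℝ) := by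
    rw [← Real.rpow_natCast, ← Real.rpow_natCast, ← Real.rpow_mul hX0.le, ← Real.rpow_add hX0]
    norm_num
  set y := X ^ (4 / 3 : ℝ) with hy
  have hy0 : 0 < y := by positivity
  have h6 : y ^ 2 * (sf (nn a b x).natAbs : ℝ) ≤ y ^ 2 * ((1 + |(a : ℝ)| + |(b : ℝ)|) * y) := by
    calc y ^ 2 * (sf (nn a b x).natAbs : ℝ) ≤
          (K3N.sq (nn a b x).natAbs : ℝ) ^ 2 * (sf (nn a b x).natAbs : ℝ) := by gcongr
      _ ≤ (1 + |(a : ℝ)| + |(b : ℝ)|) * X ^ 4 := by rw [← h3]; exact h2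
      _ = _ := by rw [h5]; ring
  exact le_of_mul_le_mul_left h6 (by positivity)

theorem box_count (a b a' b' : ℤ) (hΔ : 4 * a ^ 3 + 27 * b ^ 2 ≠ 0)
    (hΔ' : 4 * a' ^ 3 + 27 * b' ^ 2 ≠ 0) (ε : ℝ) (hε : 0 < ε) :
    ∃ C : ℝ, 0 ≤ C ∧ ∀ (H X Y : ℝ) (α α' : ℕ) (s : Finset (ℚ × ℚ × ℚ)), 1 ≤ X → 1 ≤ Y →
      X ≤ H → Y ≤ H → (α : ℝ) ≤ H → (α' : ℝ) ≤ H → 1 ≤ α → 1 ≤ α' →
      (∀ p ∈ s, InBox a b a' b' X Y p ∧ ¬ OnG a b a' b' p.1 p.2.1) →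
      (s.card : ℝ) ≤ C * H ^ ε * (α * (X * α' + X ^ (1 / 3 : ℝ) * Y ^ (4 / 3 : ℝ)) +
        X ^ 2 / α + X ^ (4 / 3 : ℝ) + Y ^ 2 / α' + Y ^ (4 / 3 : ℝ)) := by
  classical
  obtain ⟨Cm, hCm1, hCm⟩ := main_box a b a' b' hΔ' ε hε
  obtain ⟨Cf, hCf0, hCf⟩ := fib_count' hΔ hΔ' (ε / 2) (by positivity)
  obtain ⟨Cs, hCs1, hCs⟩ := sq_rat a b hΔ (ε / 2) (by positivity)
  obtain ⟨Cs', hCs1', hCs'⟩ := sq_rat a' b' hΔ' (ε / 2) (by positivity)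
  obtain ⟨Ct, hCt0, hCt⟩ := tw_count hΔ hΔ' ε hε
  set κ : ℝ := 1 + |(a : ℝ)| + |(b : ℝ)| with hκ
  set κ' : ℝ := 1 + |(a' : ℝ)| + |(b' : ℝ)| with hκ'
  have hκ0 : 0 ≤ κ := by positivity
  have hκ0' : 0 ≤ κ' := by positivity
  refine ⟨2 * Cm + 2 * Cs * Cf + Ct * κ + 2 * Cs' * Cf + Ct * κ', by positivity, ?_⟩
  intro H X Y α α' s hX hY hXH hYH hαH hα'H hα hα' hs
  have hX0 : (0 : ℝ) < X := by linarith
  have hY0 : (0 : ℝ) < Y := by linarith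
  have hH1 : (1 : ℝ) ≤ H := by linarith
  have hH0 : (0 : ℝ) < H := by linarith
  have hαr : (0 : ℝ) < α := by exact_mod_cast hα
  have hαr' : (0 : ℝ) < α' := by exact_mod_cast hα'
  have hbox : ∀ p ∈ s, InBox a b a' b' H H p := by
    intro p hp
    obtain ⟨⟨g1, g2, g3, g4⟩, _⟩ := hs p hp
    exact ⟨g1, g2, g3.trans hXH, g4.trans hYH⟩
  have hnn : ∀ p ∈ s, nn a b p.1 ≠ 0 ∧ nn a' b' p.2.1 ≠ 0 := by
    intro p hp
    exact ⟨nn_ne_zero (hs p hp).1.ne.1, nn_ne_zero (hs p hp).1.ne.2⟩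
  set Z : ℕ := ⌈X ^ (4 / 3 : ℝ)⌉₊ with hZ
  set Z' : ℕ := ⌈Y ^ (4 / 3 : ℝ)⌉₊ with hZ'
  have hX43 : 1 ≤ X ^ (4 / 3 : ℝ) := Real.one_le_rpow hX (by norm_num)
  have hY43 : 1 ≤ Y ^ (4 / 3 : ℝ) := Real.one_le_rpow hY (by norm_num)
  have hZle : (Z : ℝ) ≤ 2 * X ^ (4 / 3 : ℝ) := by
    have := (Nat.ceil_lt_add_one (show 0 ≤ X ^ (4 / 3 : ℝ) by positivity)).le
    linarith
  have hZle' : (Z' : ℝ) ≤ 2 * Y ^ (4 / 3 : ℝ) := by
    have := (Nat.ceil_lt_add_one (show 0 ≤ Y ^ (4 / 3 : ℝ) by positivity)).le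
    linarith
  set s1 := s.filter (fun p => K3N.sq (nn a b p.1).natAbs ≤ α ∧
    K3N.sq (nn a' b' p.2.1).natAbs ≤ α') with hs1
  set s2 := s.filter (fun p => α < K3N.sq (nn a b p.1).natAbs ∧
    K3N.sq (nn a b p.1).natAbs ≤ Z) with hs2
  set s3 := s.filter (fun p => Z < K3N.sq (nn a b p.1).natAbs) with hs3
  set s4 := s.filter (fun p => α' < K3N.sq (nn a' b' p.2.1).natAbs ∧
    K3N.sq (nn a' b' p.2.1).natAbs ≤ Z') with hs4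
  set s5 := s.filter (fun p => Z' < K3N.sq (nn a' b' p.2.1).natAbs) with hs5
  have hcover : s ⊆ s1 ∪ s2 ∪ s3 ∪ s4 ∪ s5 := by
    intro p hp
    rw [mem_union, mem_union, mem_union, mem_union, hs1, hs2, hs3, hs4, hs5, mem_filter,
      mem_filter, mem_filter, mem_filter, mem_filter]
    by_cases h1 : Z < K3N.sq (nn a b p.1).natAbs
    · exact Or.inl (Or.inl (Or.inr ⟨hp, h1⟩))
    by_cases h2 : α < K3N.sq (nn a b p.1).natAbs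
    · exact Or.inl (Or.inl (Or.inl (Or.inr ⟨hp, h2, by omega⟩)))
    by_cases h3 : Z' < K3N.sq (nn a' b' p.2.1).natAbs
    · exact Or.inr ⟨hp, h3⟩
    by_cases h4 : α' < K3N.sq (nn a' b' p.2.1).natAbs
    · exact Or.inl (Or.inr ⟨hp, h4, by omega⟩)
    · exact Or.inl (Or.inl (Or.inl (Or.inl ⟨hp, by omega, by omega⟩)))
  -- the main part
  have c1 : (s1.card : ℝ) ≤ 2 * (Cm * H ^ ε *
      (α * (X * α' + X ^ (1 / 3 : ℝ) * Y ^ (4 / 3 : ℝ)))) := by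
    have g1 := K3H.card_triples' (K3H.fc (a : ℚ) b) (K3H.fc (a' : ℚ) b') s1
      (fun p hp => (hs p (mem_filter.mp hp).1).1.1)
    have g2 := hCm H X Y α α' (s1.image (fun p : ℚ × ℚ × ℚ => (p.1, p.2.1))) hX hY hXH hYH hαH
      hα'H hα hα' (by
        intro q hq
        obtain ⟨p, hp, rfl⟩ := mem_image.mp hq
        obtain ⟨hps, hp1, hp2⟩ := mem_filter.mp hp
        obtain ⟨⟨k1, k2, k3, k4⟩, k5⟩ := hs p hps
        exact ⟨k3, k4, (hnn p hps).1, (hnn p hps).2, exists_sq k1, hp1, hp2, k5⟩)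
    have g3 : (s1.card : ℝ) ≤
        2 * ((s1.image (fun p : ℚ × ℚ × ℚ => (p.1, p.2.1))).card : ℝ) := by exact_mod_cast g1
    linarith
  have hP : (0 : ℝ) ≤ Cf * H ^ (ε / 2) := by positivity
  have hcov1 : ∀ t ⊆ s, ∀ n : ℝ, ((t.image (fun p => p.1)).card : ℝ) ≤ n →
      (t.card : ℝ) ≤ n * (Cf * H ^ (ε / 2)) := by
    intro t ht n hn
    apply cover_count hP hn
    intro y
    apply hCf H hH1
    · intro p hp
      exact hbox p (ht (Finset.mem_filter.mp hp).1)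
    · left
      exact ⟨y, fun p hp => (Finset.mem_filter.mp hp).2⟩
  have hcov2 : ∀ t ⊆ s, ∀ n : ℝ, ((t.image (fun p => p.2.1)).card : ℝ) ≤ n →
      (t.card : ℝ) ≤ n * (Cf * H ^ (ε / 2)) := by
    intro t ht n hn
    apply cover_count hP hn
    intro y
    apply hCf H hH1
    · intro p hp
      exact hbox p (ht (Finset.mem_filter.mp hp).1)
    · right
      exact ⟨y, fun p hp => (Finset.mem_filter.mp hp).2⟩
  have hHsplit : H ^ ε = H ^ (ε / 2) * H ^ (ε / 2) := by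
    rw [← Real.rpow_add hH0]; congr 1; ring
  have hXe : X ^ (ε / 2) ≤ H ^ (ε / 2) := Real.rpow_le_rpow hX0.le hXH (by positivity)
  have hYe : Y ^ (ε / 2) ≤ H ^ (ε / 2) := Real.rpow_le_rpow hY0.le hYH (by positivity)
  have c2 : (s2.card : ℝ) ≤ 2 * Cs * Cf * H ^ ε * (X ^ 2 / α + X ^ (4 / 3 : ℝ)) := by
    have g1 := hcov1 s2 (filter_subset _ _) _ (hCs X α Z (s2.image (fun p => p.1)) hX hα (by
      intro x hx
      obtain ⟨p, hp, rfl⟩ := mem_image.mp hx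
      obtain ⟨hps, hp1, hp2⟩ := mem_filter.mp hp
      exact ⟨(hs p hps).1.2.2.1, (hnn p hps).1, hp1, hp2⟩))
    refine g1.trans ?_
    have g2 : (Z : ℝ) + X ^ 2 / α ≤ 2 * (X ^ 2 / α + X ^ (4 / 3 : ℝ)) := by
      have : 0 ≤ X ^ 2 / (α : ℝ) := by positivity
      linarith
    calc Cs * X ^ (ε / 2) * (Z + X ^ 2 / α) * (Cf * H ^ (ε / 2)) ≤
          Cs * H ^ (ε / 2) * (2 * (X ^ 2 / α + X ^ (4 / 3 : ℝ))) * (Cf * H ^ (ε / 2)) := by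
          gcongr
      _ = _ := by rw [hHsplit]; ring
  have c4 : (s4.card : ℝ) ≤ 2 * Cs' * Cf * H ^ ε * (Y ^ 2 / α' + Y ^ (4 / 3 : ℝ)) := by
    have g1 := hcov2 s4 (filter_subset _ _) _ (hCs' Y α' Z' (s4.image (fun p => p.2.1)) hY hα' (by
      intro x hx
      obtain ⟨p, hp, rfl⟩ := mem_image.mp hx
      obtain ⟨hps, hp1, hp2⟩ := mem_filter.mp hp
      exact ⟨(hs p hps).1.2.2.2, (hnn p hps).2, hp1, hp2⟩))
    refine g1.trans ?_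
    have g2 : (Z' : ℝ) + Y ^ 2 / α' ≤ 2 * (Y ^ 2 / α' + Y ^ (4 / 3 : ℝ)) := by
      have : 0 ≤ Y ^ 2 / (α' : ℝ) := by positivity
      linarith
    calc Cs' * Y ^ (ε / 2) * (Z' + Y ^ 2 / α') * (Cf * H ^ (ε / 2)) ≤
          Cs' * H ^ (ε / 2) * (2 * (Y ^ 2 / α' + Y ^ (4 / 3 : ℝ))) * (Cf * H ^ (ε / 2)) := by
          gcongr
      _ = _ := by rw [hHsplit]; ring
  have c3 : (s3.card : ℝ) ≤ Ct * κ * H ^ ε * X ^ (4 / 3 : ℝ) := by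
    have g1 := hCt H ⌊κ * X ^ (4 / 3 : ℝ)⌋₊ s3 hH1 (by
      intro p hp
      obtain ⟨hps, hp1⟩ := mem_filter.mp hp
      obtain ⟨k1, k2, k3, k4⟩ := hbox p hps
      exact ⟨k1, k2, k3, k4, sf_small a b hX (hs p hps).1.2.2.1 hp1⟩)
    refine g1.trans ?_
    have g2 := Nat.floor_le (show 0 ≤ κ * X ^ (4 / 3 : ℝ) by positivity)
    calc Ct * H ^ ε * (⌊κ * X ^ (4 / 3 : ℝ)⌋₊ : ℝ) ≤ Ct * H ^ ε * (κ * X ^ (4 / 3 : ℝ)) := by
          gcongr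
      _ = _ := by ring
  have c5 : (s5.card : ℝ) ≤ Ct * κ' * H ^ ε * Y ^ (4 / 3 : ℝ) := by
    have g1 := hCt H ⌊κ' * Y ^ (4 / 3 : ℝ)⌋₊ s5 hH1 (by
      intro p hp
      obtain ⟨hps, hp1⟩ := mem_filter.mp hp
      obtain ⟨k1, k2, k3, k4⟩ := hbox p hps
      refine ⟨k1, k2, k3, k4, ?_⟩
      obtain ⟨y, hy⟩ := exists_sq k1
      rw [(sq_rel (hnn p hps).1 (hnn p hps).2 hy).1]
      exact sf_small a' b' hY (hs p hps).1.2.2.2 hp1)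
    refine g1.trans ?_
    have g2 := Nat.floor_le (show 0 ≤ κ' * Y ^ (4 / 3 : ℝ) by positivity)
    calc Ct * H ^ ε * (⌊κ' * Y ^ (4 / 3 : ℝ)⌋₊ : ℝ) ≤ Ct * H ^ ε * (κ' * Y ^ (4 / 3 : ℝ)) := by
          gcongr
      _ = _ := by ring
  have hu2 : (s.card : ℝ) ≤ (s1.card : ℝ) + s2.card + s3.card + s4.card + s5.card := by
    have hu := Finset.card_le_card hcover
    have g1 := Finset.card_union_le (s1 ∪ s2 ∪ s3 ∪ s4) s5
    have g2 := Finset.card_union_le (s1 ∪ s2 ∪ s3) s4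
    have g3 := Finset.card_union_le (s1 ∪ s2) s3
    have g4 := Finset.card_union_le s1 s2
    have : s.card ≤ s1.card + s2.card + s3.card + s4.card + s5.card := by omega
    exact_mod_cast this
  set m1 : ℝ := α * (X * α' + X ^ (1 / 3 : ℝ) * Y ^ (4 / 3 : ℝ)) with hm1
  set m2 : ℝ := X ^ 2 / α with hm2
  set m3 : ℝ := X ^ (4 / 3 : ℝ) with hm3
  set m4 : ℝ := Y ^ 2 / α' with hm4
  set m5 : ℝ := Y ^ (4 / 3 : ℝ) with hm5
  have n1 : 0 ≤ m1 := by positivity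
  have n2 : 0 ≤ m2 := by positivity
  have n3 : 0 ≤ m3 := by positivity
  have n4 : 0 ≤ m4 := by positivity
  have n5 : 0 ≤ m5 := by positivity
  set h : ℝ := H ^ ε with hh
  have hh0 : 0 ≤ h := by positivity
  have t1 : 2 * (Cm * h * m1) ≤ 2 * Cm * (h * (m1 + m2 + m3 + m4 + m5)) := by
    have : h * m1 ≤ h * (m1 + m2 + m3 + m4 + m5) := by
      apply mul_le_mul_of_nonneg_left _ hh0; linarith
    nlinarith
  have t2 : 2 * Cs * Cf * h * (m2 + m3) ≤ 2 * Cs * Cf * (h * (m1 + m2 + m3 + m4 + m5)) := by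
    rw [mul_assoc (2 * Cs * Cf)]
    apply mul_le_mul_of_nonneg_left _ (by positivity)
    apply mul_le_mul_of_nonneg_left _ hh0; linarith
  have t3 : Ct * κ * h * m3 ≤ Ct * κ * (h * (m1 + m2 + m3 + m4 + m5)) := by
    rw [mul_assoc (Ct * κ)]
    apply mul_le_mul_of_nonneg_left _ (by positivity)
    apply mul_le_mul_of_nonneg_left _ hh0; linarith
  have t4 : 2 * Cs' * Cf * h * (m4 + m5) ≤ 2 * Cs' * Cf * (h * (m1 + m2 + m3 + m4 + m5)) := by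
    rw [mul_assoc (2 * Cs' * Cf)]
    apply mul_le_mul_of_nonneg_left _ (by positivity)
    apply mul_le_mul_of_nonneg_left _ hh0; linarith
  have t5 : Ct * κ' * h * m5 ≤ Ct * κ' * (h * (m1 + m2 + m3 + m4 + m5)) := by
    rw [mul_assoc (Ct * κ')]
    apply mul_le_mul_of_nonneg_left _ (by positivity)
    apply mul_le_mul_of_nonneg_left _ hh0; linarith
  calc (s.card : ℝ) ≤ _ := hu2
    _ ≤ 2 * Cm * (h * (m1 + m2 + m3 + m4 + m5)) + 2 * Cs * Cf * (h * (m1 + m2 + m3 + m4 + m5)) +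
        Ct * κ * (h * (m1 + m2 + m3 + m4 + m5)) + 2 * Cs' * Cf * (h * (m1 + m2 + m3 + m4 + m5)) +
        Ct * κ' * (h * (m1 + m2 + m3 + m4 + m5)) := by linarith
    _ = _ := by ring

end Pool.Agent.KBP
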