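import Pool.Agent.KBP.Lat
import Pool.Agent.K3N.Sqful

/-!
Covering primitive vectors of a plane lattice by lines in the direction of a minimal vector.
-/

namespace Pool.Agent.KBP

open Finset Pool.Agent.K3N

variable {N1 N2 : ℕ} {l : ℤ}

lemma lines_count (h1 : 0 < N1) (h2 : 0 < N2) (l : ℤ) :
    ∃ b : ℤ × ℤ, Lam N1 N2 l b ∧ b ≠ 0 ∧ nm b ^ 2 ≤ N1 * N2 ∧
      (∀ c, Lam N1 N2 l c → c ≠ 0 → nm b ≤ nm c) ∧
      (∀ c, Lam N1 N2 l c → dt b c = 0 → ∃ t : ℤ, c.1 = t * b.1 ∧ c.2 = t * b.2) ∧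
      ∀ {α : Type} [DecidableEq α] (S : Finset α) (π : α → ℤ × ℤ) (Y : ℝ), 1 ≤ Y →
        (∀ x ∈ S, Lam N1 N2 l (π x) ∧ IsCoprime (π x).1 (π x).2 ∧ |((π x).1 : ℝ)| ≤ Y ∧
          |((π x).2 : ℝ)| ≤ Y) →
        ∀ (k0 : ℕ), (∀ p, (S.filter (fun x => π x = p)).card ≤ k0) → ∀ K : ℝ, 0 ≤ K →
        (∀ m : ℤ, m ≠ 0 → ((S.filter (fun x => dt b (π x) = m)).card : ℝ) ≤ K) →
        (S.card : ℝ) ≤ 2 * k0 + 4 * (nm b) * Y / (N1 * N2 : ℕ) * K := by
  obtain ⟨b, hb, hb0, hbn, hmin⟩ := exists_min h1 h2 l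
  refine ⟨b, hb, hb0, hbn, hmin, fun c hc h => parallel hb hb0 hmin hc h, ?_⟩
  intro α _ S π Y hY hS k0 hk0 K hK hline
  set N : ℕ := N1 * N2 with hN
  have hNpos : 0 < N := Nat.mul_pos h1 h2
  have hNr : (0 : ℝ) < N := by exact_mod_cast hNpos
  set β : ℕ := nm b with hβ
  set M : ℕ := ⌊2 * (β : ℝ) * Y / N⌋₊ with hM
  have hMle : (M : ℝ) ≤ 2 * β * Y / N := Nat.floor_le (by positivity)
  -- parallel points
  set S0 := S.filter (fun x => dt b (π x) = 0) with hS0
  have hS0c : S0.card ≤ 2 * k0 := by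
    have hsub : S0 ⊆ S.filter (fun x => π x = b) ∪ S.filter (fun x => π x = (-b.1, -b.2)) := by
      intro x hx
      rw [hS0, mem_filter] at hx
      obtain ⟨hxS, hx0⟩ := hx
      obtain ⟨hx1, hx2, _, _⟩ := hS x hxS
      obtain ⟨t, ht1, ht2⟩ := parallel hb hb0 hmin hx1 hx0
      rw [ht1, ht2] at hx2
      have hu : IsUnit t := by
        obtain ⟨c, d, hcd⟩ := hx2
        exact IsUnit.of_mul_eq_one (c * b.1 + d * b.2) (by linear_combination hcd)
      rw [mem_union, mem_filter, mem_filter]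
      rcases Int.isUnit_iff.mp hu with h | h
      · left
        refine ⟨hxS, Prod.ext ?_ ?_⟩
        · rw [ht1, h, one_mul]
        · rw [ht2, h, one_mul]
      · right
        refine ⟨hxS, Prod.ext ?_ ?_⟩
        · rw [ht1, h]; ring
        · rw [ht2, h]; ring
    have h3 := (card_le_card hsub).trans (card_union_le _ _)
    have h4 := hk0 b
    have h5 := hk0 (-b.1, -b.2)
    omega
  -- the other points
  set S1 := S.filter (fun x => ¬ dt b (π x) = 0) with hS1
  have hS1c : (S1.card : ℝ) ≤ 2 * M * K := by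
    have h3 := card_le_sum_of_exists S1 ((Icc (-(M : ℤ)) M).erase 0)
      (fun j x => dt b (π x) = (N : ℤ) * j) (by
        intro x hx
        rw [hS1, mem_filter] at hx
        obtain ⟨hxS, hx0⟩ := hx
        obtain ⟨hx1, _, hx3, hx4⟩ := hS x hxS
        obtain ⟨j, hj⟩ := hb.dt_dvd hx1
        rw [← hN] at hj
        refine ⟨j, ?_, hj⟩
        have hj0 : j ≠ 0 := by
          rintro rfl
          rw [mul_zero] at hj
          exact hx0 hj
        have habs : |(dt b (π x) : ℝ)| ≤ 2 * β * Y := by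
          have e1 : |(b.1 : ℝ)| ≤ β := by
            have : b.1.natAbs ≤ β := le_max_left _ _
            rw [← Int.cast_abs, Int.abs_eq_natAbs]
            exact_mod_cast this
          have e2 : |(b.2 : ℝ)| ≤ β := by
            have : b.2.natAbs ≤ β := le_max_right _ _
            rw [← Int.cast_abs, Int.abs_eq_natAbs]
            exact_mod_cast this
          unfold dt
          push_cast
          refine (abs_sub _ _).trans ?_
          rw [abs_mul, abs_mul]
          have e3 := mul_le_mul e1 hx4 (abs_nonneg _) (Nat.cast_nonneg β)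
          have e4 := mul_le_mul e2 hx3 (abs_nonneg _) (Nat.cast_nonneg β)
          linarith
        have hjM : j.natAbs ≤ M := by
          rw [hM]
          apply Nat.le_floor
          rw [le_div_iff₀ hNr]
          rw [hj] at habs
          push_cast at habs
          rw [abs_mul, abs_of_pos hNr] at habs
          rw [Nat.cast_natAbs]
          push_cast
          linarith
        rw [mem_erase, mem_Icc]
        refine ⟨hj0, ?_, ?_⟩ <;> omega) (fun _ => K) (by
        intro j hj
        have hj0 : (N : ℤ) * j ≠ 0 :=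
          mul_ne_zero (by exact_mod_cast hNpos.ne') (ne_of_mem_erase hj)
        refine le_trans ?_ (hline _ hj0)
        have : (S1.filter (fun x => dt b (π x) = (N : ℤ) * j)) ⊆
            S.filter (fun x => dt b (π x) = (N : ℤ) * j) := by
          intro x hx
          rw [mem_filter] at hx ⊢
          exact ⟨(mem_filter.mp hx.1).1, hx.2⟩
        exact_mod_cast card_le_card this)
    rw [sum_const, nsmul_eq_mul] at h3
    refine h3.trans ?_
    have h4 : ((Icc (-(M : ℤ)) M).erase 0).card = 2 * M := by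
      rw [card_erase_of_mem (by rw [mem_Icc]; omega), Int.card_Icc]
      omega
    rw [h4]
    push_cast
    exact le_refl _
  have hsum := card_filter_add_card_filter_not (s := S) (fun x => dt b (π x) = 0)
  have h6 : (S.card : ℝ) = S0.card + S1.card := by
    rw [← hsum]; push_cast; rfl
  have h7 : (S0.card : ℝ) ≤ 2 * k0 := by exact_mod_cast hS0c
  rw [h6]
  have h8 : 2 * (M : ℝ) * K ≤ 4 * β * Y / N * K := by
    apply mul_le_mul_of_nonneg_right _ hK
    have : 4 * (β : ℝ) * Y / N = 2 * (2 * β * Y / N) := by ring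
    rw [this]
    linarith
  linarith

/-- The number of primitive vectors of a plane lattice in a box. -/
lemma prim_count (h1 : 0 < N1) (h2 : 0 < N2) (S : Finset (ℤ × ℤ)) (Y : ℝ) (hY : 1 ≤ Y)
    (hS : ∀ p ∈ S, Lam N1 N2 l p ∧ IsCoprime p.1 p.2 ∧ |(p.1 : ℝ)| ≤ Y ∧ |(p.2 : ℝ)| ≤ Y) :
    (S.card : ℝ) ≤ 2 + 24 * Y ^ 2 / (N1 * N2 : ℕ) := by
  classical
  obtain ⟨b, hb, hb0, hbn, hmin, hpar, h⟩ := lines_count h1 h2 l
  have hNr : (0 : ℝ) < (N1 * N2 : ℕ) := by exact_mod_cast Nat.mul_pos h1 h2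
  rcases S.eq_empty_or_nonempty with rfl | ⟨p₀, hp₀⟩
  · simp; positivity
  have hβ0 : nm b ≠ 0 := fun h => hb0 (nm_eq_zero h)
  have hβ1 : (1 : ℝ) ≤ nm b := by exact_mod_cast Nat.one_le_iff_ne_zero.mpr hβ0
  have hnorm : ∀ p ∈ S, (nm p : ℝ) ≤ Y := by
    intro p hp
    obtain ⟨_, _, e1, e2⟩ := hS p hp
    unfold nm
    push_cast
    rw [Nat.cast_natAbs, Nat.cast_natAbs]
    push_cast
    exact max_le e1 e2
  have hβY : (nm b : ℝ) ≤ Y := by
    obtain ⟨e1, e2, _, _⟩ := hS p₀ hp₀
    have hne : p₀ ≠ 0 := by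
      rintro rfl
      obtain ⟨c, d, hcd⟩ := e2
      simp at hcd
    have := hmin p₀ e1 hne
    exact (show (nm b : ℝ) ≤ nm p₀ by exact_mod_cast this).trans (hnorm p₀ hp₀)
  have hK : ∀ m : ℤ, m ≠ 0 → ((S.filter (fun x => dt b x = m)).card : ℝ) ≤ 1 + 4 * Y / nm b := by
    intro m hm
    rcases (S.filter (fun x => dt b x = m)).eq_empty_or_nonempty with he | ⟨q, hq⟩
    · rw [he]; simp; positivity
    rw [mem_filter] at hq
    set M : ℕ := ⌊2 * Y / nm b⌋₊ with hM
    have hMle : (M : ℝ) ≤ 2 * Y / nm b := Nat.floor_le (by positivity)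
    have hcard : (S.filter (fun x => dt b x = m)).card ≤ (Icc (-(M : ℤ)) M).card := by
      have hpt : ∀ x ∈ S.filter (fun x => dt b x = m), ∃ t : ℤ, x.1 = q.1 + t * b.1 ∧
          x.2 = q.2 + t * b.2 ∧ t.natAbs ≤ M := by
        intro x hx
        rw [mem_filter] at hx
        have hd : dt b (x.1 - q.1, x.2 - q.2) = 0 := by
          have e1 := hx.2
          have e2 := hq.2
          unfold dt at e1 e2 ⊢
          simp only
          linear_combination e1 - e2
        have hL := (hS x hx.1).1.sub_mul (hS q hq.1).1 1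
        rw [one_mul, one_mul] at hL
        obtain ⟨t, ht1, ht2⟩ := hpar _ hL hd
        simp only at ht1 ht2
        refine ⟨t, by linarith, by linarith, ?_⟩
        rw [hM]
        apply Nat.le_floor
        rw [le_div_iff₀ (by linarith)]
        have e1 : (t.natAbs * nm b : ℕ) ≤ nm (x.1 - q.1, x.2 - q.2) := by
          unfold nm
          simp only
          rw [ht1, ht2, Int.natAbs_mul, Int.natAbs_mul, Nat.mul_max_mul_left]
        have e2 : (nm (x.1 - q.1, x.2 - q.2) : ℝ) ≤ 2 * Y := by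
          have g1 := hnorm x hx.1
          have g2 := hnorm q hq.1
          have e3 : nm (x.1 - q.1, x.2 - q.2) ≤ nm x + nm q := by
            unfold nm
            simp only
            omega
          have e4 : (nm (x.1 - q.1, x.2 - q.2) : ℝ) ≤ nm x + nm q := by exact_mod_cast e3
          linarith
        have e5 : ((t.natAbs : ℝ)) * nm b ≤ nm (x.1 - q.1, x.2 - q.2) := by exact_mod_cast e1
        linarith
      choose! t ht1 ht2 ht3 using hpt
      apply card_le_card_of_injOn t
      · intro x hx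
        have := ht3 x hx
        rw [mem_coe, mem_Icc]
        omega
      · intro x hx y hy hxy
        exact Prod.ext (by rw [ht1 x hx, ht1 y hy, hxy]) (by rw [ht2 x hx, ht2 y hy, hxy])
    rw [Int.card_Icc] at hcard
    have h3 : (S.filter (fun x => dt b x = m)).card ≤ 1 + 2 * M := by omega
    have h4 : ((S.filter (fun x => dt b x = m)).card : ℝ) ≤ 1 + 2 * M := by exact_mod_cast h3
    have h5 : 4 * Y / (nm b : ℝ) = 2 * (2 * Y / nm b) := by ring
    rw [h5]
    linarith
  have hmain := h S id Y hY (fun x hx => hS x hx) 1 (by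
    intro p
    rw [card_le_one]
    intro x hx y hy
    rw [mem_filter] at hx hy
    exact hx.2.trans hy.2.symm) (1 + 4 * Y / nm b) (by positivity) hK
  refine hmain.trans ?_
  push_cast
  have h6 : 4 * (nm b : ℝ) * Y / (N1 * N2) * (1 + 4 * Y / nm b) =
      (4 * (nm b : ℝ) * Y + 16 * Y ^ 2) / (N1 * N2) := by
    field_simp
    ring
  rw [h6]
  have h7 : (4 * (nm b : ℝ) * Y + 16 * Y ^ 2) / (N1 * N2) ≤ 24 * Y ^ 2 / (N1 * N2) := by
    apply div_le_div_of_nonneg_right _ (by positivity)
    nlinarith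
  linarith

end Pool.Agent.KBP
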