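import Pool.Agent.KBP.Line
import Pool.Agent.KBP.Cnt

/-!
Residue classes of the zeros of the quartic form modulo `N`.
-/

namespace Pool.Agent.KBP

open Polynomial Finset Pool.Agent.K3N

/-- The homogenised cubic. -/
def fs (a b r s : ℤ) : ℤ := r ^ 3 + a * r * s ^ 2 + b * s ^ 3

/-- The quartic form. -/
def GG (a b r s : ℤ) : ℤ := s * fs a b r s

lemma disc_id (a b : ℤ) : (-(C (18 * a) * X - C (27 * b))) * PP a b +
    (C (6 * a) * X ^ 2 - C (9 * b) * X + C (4 * a ^ 2)) * derivative (PP a b) =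
      C (4 * a ^ 3 + 27 * b ^ 2) := by
  unfold PP
  rw [derivative_add, derivative_add, derivative_C, derivative_X_pow, derivative_C_mul,
    derivative_X, add_zero]
  simp only [map_add, map_mul, map_pow, C_ofNat]
  norm_num
  ring

lemma exists_disc (a b : ℤ) (h : 4 * a ^ 3 + 27 * b ^ 2 ≠ 0) : ∃ (D : ℕ) (U V : ℤ[X]), 0 < D ∧
    U * PP a b + V * derivative (PP a b) = C (D : ℤ) := by
  set D := 4 * a ^ 3 + 27 * b ^ 2 with hD
  refine ⟨D.natAbs, C D.sign * (-(C (18 * a) * X - C (27 * b))),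
    C D.sign * (C (6 * a) * X ^ 2 - C (9 * b) * X + C (4 * a ^ 2)), Int.natAbs_pos.mpr h, ?_⟩
  rw [mul_assoc, mul_assoc, ← mul_add, disc_id, ← hD, ← map_mul, Int.sign_mul_self_eq_natAbs]

lemma exists_class (a b : ℤ) (N : ℕ) (hN : 0 < N) (p : ℤ × ℤ) (hc : IsCoprime p.1 p.2)
    (hd : (N : ℤ) ∣ GG a b p.1 p.2) : ∃ N2 ∈ N.divisors,
      ∃ l ∈ (range (N / N2)).filter (fun x : ℕ => ((N / N2 : ℕ) : ℤ) ∣ (PP a b).eval (x : ℤ)),
        Lam (N / N2) N2 (l : ℤ) p := by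
  set N2 := Nat.gcd N p.2.natAbs with hN2
  have hN2p : 0 < N2 := Nat.gcd_pos_of_pos_left _ hN
  have hN2d : N2 ∣ N := Nat.gcd_dvd_left _ _
  have hN2v : N2 ∣ p.2.natAbs := Nat.gcd_dvd_right _ _
  set N1 := N / N2 with hN1
  have hNN : N1 * N2 = N := Nat.div_mul_cancel hN2d
  have hN1p : 0 < N1 := Nat.div_pos (Nat.le_of_dvd hN hN2d) hN2p
  obtain ⟨v', hv'⟩ : (N2 : ℤ) ∣ p.2 := Int.natCast_dvd.mpr hN2v
  have hcop : IsCoprime (N1 : ℤ) v' := by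
    have h1 : Nat.Coprime (N / N2) (p.2.natAbs / N2) := Nat.coprime_div_gcd_div_gcd hN2p
    have h2 : p.2.natAbs / N2 = v'.natAbs := by
      rw [hv', Int.natAbs_mul, Int.natAbs_natCast]
      exact Nat.mul_div_cancel_left _ hN2p
    rw [h2] at h1
    have h3 := Int.isCoprime_iff_gcd_eq_one (m := (N1 : ℤ)) (n := v')
    rw [h3]
    exact h1
  have hfs : (N1 : ℤ) ∣ fs a b p.1 p.2 := by
    have h1 : ((N1 * N2 : ℕ) : ℤ) ∣ N2 * v' * fs a b p.1 p.2 := by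
      rw [hNN, ← hv']
      exact hd
    push_cast at h1
    have h2 : (N2 : ℤ) * N1 ∣ N2 * (v' * fs a b p.1 p.2) := by
      have e1 : (N2 : ℤ) * N1 = N1 * N2 := by ring
      have e2 : (N2 : ℤ) * (v' * fs a b p.1 p.2) = N2 * v' * fs a b p.1 p.2 := by ring
      rw [e1, e2]
      exact h1
    have h3 := Int.dvd_of_mul_dvd_mul_left (by exact_mod_cast hN2p.ne') h2
    exact hcop.dvd_of_dvd_mul_left h3
  have hcopv : IsCoprime (N1 : ℤ) p.2 := by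
    have h1 : IsCoprime (fs a b p.1 p.2) p.2 := by
      have h2 : IsCoprime (p.1 ^ 3) p.2 := hc.pow_left
      have h3 := IsCoprime.add_mul_left_left h2 (a * p.1 * p.2 + b * p.2 ^ 2)
      have e : p.1 ^ 3 + p.2 * (a * p.1 * p.2 + b * p.2 ^ 2) = fs a b p.1 p.2 := by
        unfold fs; ring
      rwa [e] at h3
    exact h1.of_isCoprime_of_dvd_left hfs
  obtain ⟨c, w, hcw⟩ := hcopv
  -- `w` is an inverse of `p.2`
  set l : ℕ := ((p.1 * w) % (N1 : ℤ)).toNat with hl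
  have hN1z : (N1 : ℤ) ≠ 0 := by exact_mod_cast hN1p.ne'
  have hlz : (l : ℤ) = (p.1 * w) % (N1 : ℤ) := Int.toNat_of_nonneg (Int.emod_nonneg _ hN1z)
  obtain ⟨e, he⟩ : (N1 : ℤ) ∣ p.1 * w - l := by
    rw [hlz]; exact Int.dvd_self_sub_emod
  have hlv : (N1 : ℤ) ∣ p.1 - l * p.2 := by
    refine ⟨p.1 * c + e * p.2, ?_⟩
    linear_combination (-p.1) * hcw + p.2 * he
  refine ⟨N2, Nat.mem_divisors.mpr ⟨hN2d, hN.ne'⟩, l, ?_, ⟨⟨v', hv'⟩, hlv⟩⟩
  rw [mem_filter, mem_range]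
  refine ⟨?_, ?_⟩
  · have h1 := Int.emod_lt_of_pos (p.1 * w) (show (0 : ℤ) < N1 by exact_mod_cast hN1p)
    rw [← hlz] at h1
    exact_mod_cast h1
  · rw [PP_eval]
    have h1 : (N1 : ℤ) ∣ p.2 ^ 3 * ((l : ℤ) ^ 3 + a * l + b) := by
      obtain ⟨f, hf⟩ := hlv
      obtain ⟨g, hg⟩ := hfs
      unfold fs at hg
      have e1 : p.1 = N1 * f + l * p.2 := by linarith
      refine ⟨g - f * ((N1 * f + l * p.2) ^ 2 + (N1 * f + l * p.2) * (l * p.2) + (l * p.2) ^ 2) -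
        a * f * p.2 ^ 2, ?_⟩
      rw [e1] at hg
      linear_combination hg
    have h2 : IsCoprime (N1 : ℤ) (p.2 ^ 3) :=
      IsCoprime.pow_right (show IsCoprime (N1 : ℤ) p.2 from ⟨c, w, hcw⟩)
    exact h2.dvd_of_dvd_mul_left h1

/-- Counting by classes. -/
lemma class_bound (a b : ℤ) {D : ℕ} {U V : ℤ[X]} (hD : 0 < D)
    (hUV : U * PP a b + V * derivative (PP a b) = C (D : ℤ)) (N : ℕ) (hN : 0 < N)
    {α : Type} [DecidableEq α] (S : Finset α) (π : α → ℤ × ℤ)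
    (hS : ∀ x ∈ S, IsCoprime (π x).1 (π x).2 ∧ (N : ℤ) ∣ GG a b (π x).1 (π x).2)
    (K : ℝ) (hK : 0 ≤ K)
    (h : ∀ N1 N2 : ℕ, ∀ l : ℤ, 0 < N1 → 0 < N2 → N1 * N2 = N → (N1 : ℤ) ∣ (PP a b).eval l →
      ∀ S' ⊆ S, (∀ x ∈ S', Lam N1 N2 l (π x)) → (S'.card : ℝ) ≤ K) :
    (S.card : ℝ) ≤ (N.divisors.card : ℝ) ^ 3 * (D * D) * K := by
  classical
  have h1 := card_le_sum_of_exists S
    (N.divisors.sigma (fun N2 => (range (N / N2)).filter
      (fun x : ℕ => ((N / N2 : ℕ) : ℤ) ∣ (PP a b).eval (x : ℤ))))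
    (fun y x => Lam (N / y.1) y.1 (y.2 : ℤ) (π x)) (by
      intro x hx
      obtain ⟨N2, hN2, l, hl, hL⟩ := exists_class a b N hN (π x) (hS x hx).1 (hS x hx).2
      exact ⟨⟨N2, l⟩, mem_sigma.mpr ⟨hN2, hl⟩, hL⟩) (fun _ => K) (by
      intro y hy
      rw [mem_sigma, Nat.mem_divisors, mem_filter] at hy
      obtain ⟨⟨hy1, _⟩, hy2, hy3⟩ := hy
      have hy0 : 0 < y.1 := Nat.pos_of_dvd_of_pos hy1 hN
      apply h (N / y.1) y.1 (y.2 : ℤ) (Nat.div_pos (Nat.le_of_dvd hN hy1) hy0) hy0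
        (Nat.div_mul_cancel hy1) hy3
      · exact filter_subset _ _
      · intro x hx
        exact (mem_filter.mp hx).2)
  rw [sum_const, nsmul_eq_mul, card_sigma] at h1
  refine h1.trans (mul_le_mul_of_nonneg_right ?_ hK)
  have h2 : ∑ N2 ∈ N.divisors, ((range (N / N2)).filter
      (fun x : ℕ => ((N / N2 : ℕ) : ℤ) ∣ (PP a b).eval (x : ℤ))).card ≤
      ∑ _N2 ∈ N.divisors, N.divisors.card ^ 2 * (D * D) := by
    apply sum_le_sum
    intro N2 hN2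
    rw [Nat.mem_divisors] at hN2
    have h20 : 0 < N2 := Nat.pos_of_dvd_of_pos hN2.1 hN
    have h3 : 0 < N / N2 := Nat.div_pos (Nat.le_of_dvd hN hN2.1) h20
    refine (roots_count' (PP_monic a b) (by rw [PP_deg]; norm_num) hD hUV (N / N2) h3).trans ?_
    apply Nat.mul_le_mul_right
    apply Nat.pow_le_pow_left
    exact card_le_card (Nat.divisors_subset_of_dvd hN.ne' (Nat.div_dvd_of_dvd hN2.1))
  rw [sum_const, smul_eq_mul] at h2
  have h4 : ((∑ N2 ∈ N.divisors, ((range (N / N2)).filter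
      (fun x : ℕ => ((N / N2 : ℕ) : ℤ) ∣ (PP a b).eval (x : ℤ))).card : ℕ) : ℝ) ≤
      ((N.divisors.card * (N.divisors.card ^ 2 * (D * D)) : ℕ) : ℝ) := by exact_mod_cast h2
  refine h4.trans (le_of_eq ?_)
  push_cast
  ring

end Pool.Agent.KBP
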