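import Mathlib.LinearAlgebra.Matrix.Block
import Mathlib.LinearAlgebra.Matrix.Determinant.Basic
import Mathlib.Algebra.Polynomial.Identities
import Mathlib.Algebra.Polynomial.Div
import Mathlib.Data.ZMod.Basic
import Mathlib.Tactic

/-!
Determinants of values of polynomials at points congruent modulo `q`.
-/

namespace Pool.Agent.KBP

open Polynomial Finset

lemma newton (h : ℤ[X]) (t : ℕ → ℤ) (s : ℕ) : ∃ (c : ℕ → ℤ) (R : ℤ[X]),
    h = ∑ k ∈ range s, C (c k) * ∏ l ∈ range k, (X - C (t l)) +
      (∏ l ∈ range s, (X - C (t l))) * R := by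
  induction s with
  | zero => exact ⟨fun _ => 0, h, by simp⟩
  | succ s ih =>
    obtain ⟨c, R, hR⟩ := ih
    obtain ⟨R', hR'⟩ := X_sub_C_dvd_sub_C_eval (a := t s) (p := R)
    refine ⟨fun k => if k = s then R.eval (t s) else c k, R', ?_⟩
    rw [sum_range_succ, prod_range_succ]
    have e1 : ∑ k ∈ range s, C (if k = s then R.eval (t s) else c k) *
        ∏ l ∈ range k, (X - C (t l)) = ∑ k ∈ range s, C (c k) * ∏ l ∈ range k, (X - C (t l)) := by
      apply sum_congr rfl
      intro k hk
      rw [if_neg (by have := mem_range.mp hk; omega)]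
    have e3 : (fun k => if k = s then R.eval (t s) else c k) s = R.eval (t s) := if_pos rfl
    rw [e1, e3]
    have e2 : R = C (R.eval (t s)) + (X - C (t s)) * R' := by rw [← hR']; ring
    conv_lhs => rw [hR, e2]
    ring

lemma det_dvd {s : ℕ} {q : ℤ} (h : Fin s → ℤ[X]) (t : ℕ → ℤ)
    (ht : ∀ i j : ℕ, i < s → j < s → q ∣ t i - t j) :
    q ^ (∑ k ∈ range s, k) ∣ (Matrix.of fun i j : Fin s => (h i).eval (t j)).det := by
  choose c R hR using fun i => newton (h i) t s
  let N : Matrix (Fin s) (Fin s) ℤ := Matrix.of fun k j => ∏ l ∈ range k, (t j - t l)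
  let A : Matrix (Fin s) (Fin s) ℤ := Matrix.of fun i k => c i k
  have hM : (Matrix.of fun i j : Fin s => (h i).eval (t j)) = A * N := by
    ext i j
    rw [Matrix.mul_apply]
    simp only [Matrix.of_apply, A, N]
    conv_lhs => rw [hR i]
    rw [eval_add, eval_mul, eval_finsetSum]
    simp only [eval_mul, eval_C, eval_prod, eval_sub, eval_X]
    have hz : ∏ l ∈ range s, (t j - t l) = 0 :=
      prod_eq_zero (mem_range.mpr j.isLt) (sub_self _)
    rw [hz, zero_mul, add_zero]
    exact (Fin.sum_univ_eq_sum_range (fun k => c i k * ∏ l ∈ range k, (t j - t l)) s).symm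
  have hN : N.BlockTriangular id := by
    intro i j hij
    simp only [id] at hij
    simp only [N, Matrix.of_apply]
    exact prod_eq_zero (mem_range.mpr (show (j : ℕ) < i from hij)) (sub_self _)
  rw [hM, Matrix.det_mul, Matrix.det_of_isUpperTriangular hN]
  apply Dvd.dvd.mul_left
  have h1 : ∀ k : Fin s, q ^ (k : ℕ) ∣ N k k := by
    intro k
    simp only [N, Matrix.of_apply]
    have : q ^ (k : ℕ) = ∏ _l ∈ range k, q := by simp
    rw [this]
    exact prod_dvd_prod_of_dvd _ _ (fun l hl =>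
      ht k l k.isLt (lt_trans (mem_range.mp hl) k.isLt))
  calc q ^ (∑ k ∈ range s, k) = ∏ k : Fin s, q ^ (k : ℕ) := by
        rw [← Fin.sum_univ_eq_sum_range (fun k => k) s, prod_pow_eq_pow_sum]
    _ ∣ _ := prod_dvd_prod_of_dvd _ _ (fun k _ => h1 k)

/-- The same for integer entries congruent to values of polynomials. -/
lemma det_dvd' {s : ℕ} {q : ℕ} (h : Fin s → ℤ[X]) (t : ℕ → ℤ)
    (ht : ∀ i j : ℕ, i < s → j < s → (q : ℤ) ∣ t i - t j) (e : Matrix (Fin s) (Fin s) ℤ)
    (he : ∀ i j, ((q : ℤ) ^ (∑ k ∈ range s, k)) ∣ e i j - (h i).eval (t j)) :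
    ((q : ℤ) ^ (∑ k ∈ range s, k)) ∣ e.det := by
  set M := ∑ k ∈ range s, k with hMd
  have h1 := det_dvd h t ht
  rw [← hMd] at h1
  have h2 : ((q ^ M : ℕ) : ℤ) ∣ e.det := by
    rw [← ZMod.intCast_zmod_eq_zero_iff_dvd]
    have e1 : ((e.det : ℤ) : ZMod (q ^ M)) =
        ((Matrix.of fun i j : Fin s => (h i).eval (t j)).det : ℤ) := by
      have m1 := (Int.castRingHom (ZMod (q ^ M))).map_det e
      have m2 := (Int.castRingHom (ZMod (q ^ M))).map_det
        (Matrix.of fun i j : Fin s => (h i).eval (t j))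
      rw [eq_intCast] at m1 m2
      rw [m1, m2]
      congr 1
      ext i j
      simp only [RingHom.mapMatrix_apply, Matrix.map_apply, Matrix.of_apply, eq_intCast]
      rw [ZMod.intCast_eq_intCast_iff_dvd_sub, ← dvd_neg, neg_sub]
      push_cast
      exact he i j
    rw [e1, ZMod.intCast_zmod_eq_zero_iff_dvd]
    push_cast
    exact h1
  push_cast at h2
  exact h2

/-- Hensel approximation by polynomials. -/
lemma hensel_poly {P Q : ℤ[X]} {q : ℕ} (hq : q.Prime) {k₀ : ℤ}
    (hns : ¬ (q : ℤ) ∣ P.derivative.eval k₀) (M : ℕ) :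
    ∃ φ : ℤ[X], ∀ k t : ℤ, (q : ℤ) ∣ k - k₀ → P.eval k = Q.eval t →
      (q : ℤ) ^ (M + 1) ∣ k - φ.eval t := by
  -- inverse of the derivative
  have hcop : IsCoprime (P.derivative.eval k₀) (q : ℤ) := by
    have := (Int.isCoprime_iff_gcd_eq_one (m := (q : ℤ)) (n := P.derivative.eval k₀)).mpr (by
      rw [Int.gcd_comm]
      have h1 := (Nat.Prime.coprime_iff_not_dvd hq (n := (P.derivative.eval k₀).natAbs)).mpr (by
        intro h
        exact hns (Int.natCast_dvd.mpr h))
      rw [Int.gcd_comm]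
      exact h1)
    exact this.symm
  obtain ⟨c, d, hcd⟩ := hcop
  induction M with
  | zero =>
    refine ⟨C k₀, ?_⟩
    intro k t hk _
    rw [eval_C]
    simpa using hk
  | succ M ih =>
    obtain ⟨φ, hφ⟩ := ih
    refine ⟨φ - C c * (P.comp φ - Q), ?_⟩
    intro k t hk hPQ
    have h1 := hφ k t hk hPQ
    set y := φ.eval t with hy
    obtain ⟨w, hw⟩ := P.binomExpansion k (y - k)
    rw [show k + (y - k) = y by ring] at hw
    have e1 : (φ - C c * (P.comp φ - Q)).eval t = y - c * (P.eval y - Q.eval t) := by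
      simp only [eval_sub, eval_mul, eval_C, eval_comp]
      rw [← hy]
    rw [e1, ← hPQ, hw]
    -- P'(k) ≡ P'(k₀)
    have h2 : (q : ℤ) ∣ P.derivative.eval k - P.derivative.eval k₀ := by
      exact dvd_trans hk (sub_dvd_eval_sub k k₀ _)
    have h3 : (q : ℤ) ∣ 1 - c * (P.derivative.eval k + w * (y - k)) := by
      have h4 : (q : ℤ) ∣ y - k := by
        have : (q : ℤ) ∣ k - y := dvd_trans (dvd_pow_self _ (by omega)) h1
        rw [← neg_sub]
        exact this.neg_right
      have e2 : 1 - c * (P.derivative.eval k + w * (y - k)) =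
          d * q - c * (P.derivative.eval k - P.derivative.eval k₀) - c * w * (y - k) := by
        linear_combination (-1) * hcd
      rw [e2]
      exact dvd_sub (dvd_sub (dvd_mul_left _ _) (h2.mul_left _)) (h4.mul_left _)
    have e3 : k - (y - c * (P.eval k + P.derivative.eval k * (y - k) + w * (y - k) ^ 2 -
        P.eval k)) = (k - y) * (1 - c * (P.derivative.eval k + w * (y - k))) := by ring
    rw [e3, pow_succ]
    exact mul_dvd_mul h1 h3

end Pool.Agent.KBP
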