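import Pool.Agent.KBP.Ong

/-!
The exceptional graphs, explicitly.
-/

namespace Pool.Agent.KBP

/-- The exceptional curves. -/
def Exc (a b a' b' x z : ℚ) : Prop :=
  ∃ u : ℚ, u ≠ 0 ∧ a' = u ^ 4 * a ∧ b' = u ^ 6 * b ∧ (z = u ^ 2 * x ∨
    ∃ θ : ℚ, θ ^ 3 + a' * θ + b' = 0 ∧ (z - θ) * (u ^ 2 * x - θ) = 3 * θ ^ 2 + a')

/-- The affine case. -/
lemma affine_case {a b a' b' α β δ c x z : ℚ} (hc : c ≠ 0) (hdet : α * δ ≠ 0)
    (hG : ∀ X Y : ℚ, qf a' b' (α * X + β * Y) (0 * X + δ * Y) = c ^ 2 * qf a b X Y)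
    (hz : z * δ = α * x + β) :
    ∃ u : ℚ, u ≠ 0 ∧ a' = u ^ 4 * a ∧ b' = u ^ 6 * b ∧ z = u ^ 2 * x := by
  have hα : α ≠ 0 := left_ne_zero_of_mul hdet
  have hδ : δ ≠ 0 := right_ne_zero_of_mul hdet
  have h0 := hG 0 1
  have h1 := hG 1 1
  have h2 := hG (-1) 1
  have h3 := hG 2 1
  have h4 := hG (-2) 1
  unfold qf at h0 h1 h2 h3 h4
  -- coefficients
  have c3 : δ * α ^ 3 = c ^ 2 := by
    linear_combination (1 / 12) * (h3 - h4) - (1 / 6) * (h1 - h2)
  have c2 : β = 0 := by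
    have : δ * α ^ 2 * β = 0 := by
      linear_combination (1 / 6) * (h1 + h2) - (1 / 3) * h0
    rcases mul_eq_zero.mp this with h | h
    · exact absurd h (mul_ne_zero hδ (pow_ne_zero 2 hα))
    · exact h
  subst c2
  have c1 : a' * α * δ ^ 3 = c ^ 2 * a := by
    linear_combination (2 / 3) * (h1 - h2) - (1 / 12) * (h3 - h4)
  have c0 : b' * δ ^ 4 = c ^ 2 * b := by linear_combination h0
  set u := c * δ⁻¹ * α⁻¹ with hu
  have hu2 : u ^ 2 = α / δ := by
    rw [hu, mul_pow, mul_pow, ← c3]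
    field_simp
  have hu0 : u ≠ 0 := mul_ne_zero (mul_ne_zero hc (inv_ne_zero hδ)) (inv_ne_zero hα)
  refine ⟨u, hu0, ?_, ?_, ?_⟩
  · have : u ^ 4 = (α / δ) ^ 2 := by rw [← hu2]; ring
    rw [this]
    rw [← c3] at c1
    have e : a' * α * δ ^ 3 = α * δ ^ 3 * ((α / δ) ^ 2 * a) := by
      rw [c1]; field_simp
    have e2 : α * δ ^ 3 * a' = α * δ ^ 3 * ((α / δ) ^ 2 * a) := by rw [← e]; ring
    exact mul_left_cancel₀ (mul_ne_zero hα (pow_ne_zero 3 hδ)) e2
  · have : u ^ 6 = (α / δ) ^ 3 := by rw [← hu2]; ring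
    rw [this]
    rw [← c3] at c0
    have e2 : δ ^ 4 * b' = δ ^ 4 * ((α / δ) ^ 3 * b) := by
      rw [mul_comm, c0]; field_simp
    exact mul_left_cancel₀ (pow_ne_zero 4 hδ) e2
  · rw [hu2]
    field_simp
    linarith

/-- The graphs are the exceptional curves. -/
theorem exc_of_onG {a b a' b' x z : ℚ} (hΔ' : 4 * a' ^ 3 + 27 * b' ^ 2 ≠ 0)
    (h : OnG a b a' b' x z) : Exc a b a' b' x z := by
  obtain ⟨α, β, γ, δ, c, hc, hdet, hG, hz⟩ := h
  by_cases hγ : γ = 0
  · subst hγ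
    obtain ⟨u, hu0, h1, h2, h3⟩ := affine_case (x := x) (z := z) hc (by simpa using hdet) hG
      (by linarith)
    exact ⟨u, hu0, h1, h2, Or.inl h3⟩
  · set θ := α / γ with hθ
    have hα : α = θ * γ := by rw [hθ]; field_simp
    have hroot : θ ^ 3 + a' * θ + b' = 0 := by
      have h1 := hG 1 0
      unfold qf at h1
      have h2 : γ ^ 4 * (θ ^ 3 + a' * θ + b') = 0 := by
        rw [hα] at h1
        linear_combination h1
      exact (mul_eq_zero.mp h2).resolve_left (pow_ne_zero 4 hγ)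
    set D := 3 * θ ^ 2 + a' with hD
    have hD0 : D ≠ 0 := by
      intro h0
      apply hΔ'
      have hb : b' = -θ ^ 3 - a' * θ := by linarith
      have ha : a' = -3 * θ ^ 2 := by rw [hD] at h0; linarith
      rw [hb, ha]; ring
    have hinv : ∀ X Y : ℚ, qf a' b' (θ * X + (2 * θ ^ 2 + a') * Y) (X - θ * Y) =
        D ^ 2 * qf a' b' X Y := by
      intro X Y
      have hb : b' = -θ ^ 3 - a' * θ := by linarith
      rw [hD, hb]
      unfold qf
      ring
    have hne : γ * x + δ ≠ 0 := by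
      intro h0
      rw [h0, mul_zero] at hz
      apply hdet
      have e1 : δ = -γ * x := by linarith
      have e2 : β = -α * x := by linarith
      rw [e1, e2]; ring
    -- the composite
    set z' := θ + D / (z - θ) with hz'
    have hzθ : (γ * x + δ) * (z - θ) = β - θ * δ := by
      rw [hα] at hz
      linear_combination hz
    have hdet2 : β - θ * δ ≠ 0 := by
      intro h0
      apply hdet
      have : β = θ * δ := by linarith
      rw [this, hα]; ring
    have hzθ0 : z - θ ≠ 0 := by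
      intro h0
      rw [h0, mul_zero] at hzθ
      exact hdet2 hzθ.symm
    have hcomp : ∀ X Y : ℚ, qf a' b'
        ((θ * α + (2 * θ ^ 2 + a') * γ) * X + (θ * β + (2 * θ ^ 2 + a') * δ) * Y)
        (0 * X + (β - θ * δ) * Y) = (D * c) ^ 2 * qf a b X Y := by
      intro X Y
      have h1 := hinv (α * X + β * Y) (γ * X + δ * Y)
      rw [hG X Y] at h1
      have e1 : θ * (α * X + β * Y) + (2 * θ ^ 2 + a') * (γ * X + δ * Y) =
          (θ * α + (2 * θ ^ 2 + a') * γ) * X + (θ * β + (2 * θ ^ 2 + a') * δ) * Y := by ring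
      have e2 : (α * X + β * Y) - θ * (γ * X + δ * Y) = 0 * X + (β - θ * δ) * Y := by
        rw [hα]; ring
      rw [e1, e2] at h1
      rw [h1]; ring
    have hα2 : θ * α + (2 * θ ^ 2 + a') * γ = D * γ := by rw [hα, hD]; ring
    have hz2 : z' * (β - θ * δ) = (θ * α + (2 * θ ^ 2 + a') * γ) * x +
        (θ * β + (2 * θ ^ 2 + a') * δ) := by
      rw [hz', ← hzθ]
      have : (θ + D / (z - θ)) * ((γ * x + δ) * (z - θ)) =
          (γ * x + δ) * (θ * (z - θ) + D) := by field_simp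
      rw [this, hD]
      linear_combination θ * hz
    obtain ⟨u, hu0, h1, h2, h3⟩ := affine_case (x := x) (z := z')
      (mul_ne_zero hD0 hc) (by rw [hα2]; exact mul_ne_zero (mul_ne_zero hD0 hγ) hdet2) hcomp hz2
    refine ⟨u, hu0, h1, h2, Or.inr ⟨θ, hroot, ?_⟩⟩
    rw [← h3, hz']
    field_simp
    rw [hD]
    ring

end Pool.Agent.KBP
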