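import Pool.Agent.KBP.Ong

/-!
Points on one line of a lattice class.
-/

namespace Pool.Agent.KBP

open Polynomial Finset Pool.Agent.K3N

lemma gg_id {R : Type*} [CommRing R] {a b N1 N2 l g1 u v w v' : R} (hu : u = N1 * w + l * v)
    (hv : v = N2 * v') (hg : l ^ 3 + a * l + b = N1 * g1) :
    v * (u ^ 3 + a * u * v ^ 2 + b * v ^ 3) = N1 * N2 * (v' * (v ^ 3 * g1 +
      w * (3 * l ^ 2 * v ^ 2 + 3 * l * N1 * v * w + N1 ^ 2 * w ^ 2 + a * v ^ 2))) := by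
  have h1 : u ^ 3 + a * u * v ^ 2 + b * v ^ 3 = N1 * (v ^ 3 * g1 +
      w * (3 * l ^ 2 * v ^ 2 + 3 * l * N1 * v * w + N1 ^ 2 * w ^ 2 + a * v ^ 2)) := by
    rw [hu]
    linear_combination v ^ 3 * hg
  rw [h1]
  linear_combination (N1 * (v ^ 3 * g1 +
      w * (3 * l ^ 2 * v ^ 2 + 3 * l * N1 * v * w + N1 ^ 2 * w ^ 2 + a * v ^ 2))) * hv

lemma gg_nonconst (a b : ℤ) {u0 v0 b1 b2 : ℤ} (hb : b1 ≠ 0 ∨ b2 ≠ 0) (h0 : GG a b u0 v0 ≠ 0)
    (hcon : ∀ t : ℤ, GG a b (u0 + t * b1) (v0 + t * b2) = GG a b u0 v0) : False := by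
  by_cases hb2 : b2 = 0
  · subst hb2
    have hb1 : b1 ≠ 0 := by
      rcases hb with h | h
      · exact h
      · exact absurd rfl h
    have hv0 : v0 ≠ 0 := by
      rintro rfl
      apply h0
      unfold GG
      rw [zero_mul]
    have h1 := hcon 1
    have h2 := hcon 2
    have h3 := hcon 3
    unfold GG fs at h1 h2 h3
    simp only [mul_zero, add_zero] at h1 h2 h3
    have h4 : v0 * (6 * b1 ^ 3) = 0 := by linear_combination h3 - 3 * h2 + 3 * h1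
    rcases mul_eq_zero.mp h4 with h | h
    · exact hv0 h
    · have : b1 ^ 3 = 0 := by linarith
      exact hb1 (pow_eq_zero_iff (by norm_num) |>.mp this)
  · set c0 := GG a b u0 v0 with hc0
    set t : ℤ := |c0| + |v0| + 1 with ht
    have h1 := hcon t
    have h2 : (v0 + t * b2) ∣ c0 := by
      rw [← h1]
      unfold GG
      exact dvd_mul_right _ _
    have h3 : |v0 + t * b2| ≤ |c0| := Int.le_of_dvd (abs_pos.mpr h0)
      ((abs_dvd_abs _ _).mpr h2)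
    have h4 : |t * b2| ≤ |v0 + t * b2| + |v0| := by
      have : t * b2 = (v0 + t * b2) - v0 := by ring
      conv_lhs => rw [this]
      exact abs_sub _ _
    have h5 : t ≤ |t * b2| := by
      rw [abs_mul]
      have e1 : 1 ≤ |b2| := Int.one_le_abs hb2
      have e2 : 0 ≤ t := by positivity
      rw [abs_of_nonneg e2]
      nlinarith
    linarith

lemma exists_Q0 (a b : ℤ) {N1 N2 : ℕ} {l : ℤ} {p0 bv : ℤ × ℤ} (hroot : (N1 : ℤ) ∣ (PP a b).eval l)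
    (hL0 : Lam N1 N2 l p0) (hbv : Lam N1 N2 l bv) : ∃ Q0 : ℤ[X], Q0.natDegree ≤ 4 ∧
      (∀ t : ℤ, ((N1 * N2 : ℕ) : ℤ) * Q0.eval t =
        GG a b (p0.1 + t * bv.1) (p0.2 + t * bv.2)) ∧
      (∀ τ : ℚ, ((N1 * N2 : ℕ) : ℚ) * (Q0.map (Int.castRingHom ℚ)).eval τ =
        qf a b (p0.1 + τ * bv.1) (p0.2 + τ * bv.2)) := by
  obtain ⟨⟨v0', hv0'⟩, ⟨e0, he0⟩⟩ := hL0
  obtain ⟨⟨w2, hw2⟩, ⟨e1, he1⟩⟩ := hbv
  obtain ⟨g1, hg1⟩ := hroot
  rw [PP_eval] at hg1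
  refine ⟨(C v0' + C w2 * X) *
      ((C p0.2 + C bv.2 * X) ^ 3 * C g1 + (C e0 + C e1 * X) *
      (C (3 * l ^ 2) * (C p0.2 + C bv.2 * X) ^ 2 +
        C (3 * l * N1) * (C p0.2 + C bv.2 * X) * (C e0 + C e1 * X) +
        C ((N1 : ℤ) ^ 2) * (C e0 + C e1 * X) ^ 2 +
        C a * (C p0.2 + C bv.2 * X) ^ 2)), by compute_degree, ?_, ?_⟩
  · intro t
    have h1 := gg_id (a := a) (b := b) (N1 := (N1 : ℤ)) (N2 := (N2 : ℤ)) (l := l) (g1 := g1)
      (u := p0.1 + t * bv.1) (v := p0.2 + t * bv.2) (w := e0 + t * e1) (v' := v0' + t * w2)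
      (by linear_combination he0 + t * he1) (by linear_combination hv0' + t * hw2) hg1
    unfold GG fs
    rw [h1]
    simp only [eval_mul, eval_add, eval_pow, eval_C, eval_X]
    push_cast
    ring
  · intro τ
    have he0' : (p0.1 : ℚ) - l * p0.2 = N1 * e0 := by exact_mod_cast he0
    have he1' : (bv.1 : ℚ) - l * bv.2 = N1 * e1 := by exact_mod_cast he1
    have hv0'' : (p0.2 : ℚ) = N2 * v0' := by exact_mod_cast hv0'
    have hw2' : (bv.2 : ℚ) = N2 * w2 := by exact_mod_cast hw2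
    have hg1' : (l : ℚ) ^ 3 + a * l + b = N1 * g1 := by exact_mod_cast hg1
    have h1 := gg_id (a := (a : ℚ)) (b := (b : ℚ)) (N1 := (N1 : ℚ)) (N2 := (N2 : ℚ))
      (l := (l : ℚ)) (g1 := (g1 : ℚ))
      (u := p0.1 + τ * bv.1) (v := p0.2 + τ * bv.2) (w := e0 + τ * e1) (v' := v0' + τ * w2)
      (by linear_combination he0' + τ * he1') (by linear_combination hv0'' + τ * hw2') hg1'
    unfold qf
    rw [h1]
    simp only [Polynomial.map_mul, Polynomial.map_add, Polynomial.map_pow, map_C, map_X, eval_mul,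
      eval_add, eval_pow, eval_C, eval_X, Int.coe_castRingHom]
    push_cast
    ring

theorem line_bound (a b a' b' : ℤ) (ε : ℝ) (hε : 0 < ε) : ∃ C : ℝ, 1 ≤ C ∧
    ∀ (X T : ℝ) (s N a1 : ℕ) (c' : ℚ) (N1 N2 : ℕ) (l : ℤ) (bv : ℤ × ℤ) (m : ℤ)
      (S : Finset (ℤ × (ℤ × ℤ))), 1 ≤ X → 1 ≤ T → 0 < s → (s : ℝ) ≤ X → 0 < N → 0 < a1 →
      (N : ℚ) = c' ^ 2 * a1 ^ 2 * s → N1 * N2 = N → (N1 : ℤ) ∣ (PP a' b').eval l →
      Lam N1 N2 l bv → bv ≠ 0 → m ≠ 0 →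
      (∀ c, Lam N1 N2 l c → dt bv c = 0 → ∃ t : ℤ, c.1 = t * bv.1 ∧ c.2 = t * bv.2) →
      (∀ x ∈ S, N * fs a b x.1 s = a1 ^ 2 * GG a' b' x.2.1 x.2.2 ∧ GG a' b' x.2.1 x.2.2 ≠ 0 ∧
        Lam N1 N2 l x.2 ∧ dt bv x.2 = m ∧ |(x.1 : ℝ)| ≤ X ∧
        ¬ OnG a b a' b' ((x.1 : ℚ) / s) ((x.2.1 : ℚ) / x.2.2)) →
      (∀ x ∈ S, ∀ x' ∈ S, ∀ t : ℤ, x'.2.1 = x.2.1 + t * bv.1 → x'.2.2 = x.2.2 + t * bv.2 →
        |(t : ℝ)| ≤ T) →
      (S.card : ℝ) ≤ C * X ^ ε * T ^ (1 / 3 : ℝ) := by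
  classical
  obtain ⟨C, hC1, hC⟩ := line_count a ε hε
  refine ⟨C, hC1, ?_⟩
  intro X T s N a1 c' N1 N2 l bv m S hX hT hs hsX hN ha1 hNc hNN hroot hbv hbv0 hm hpar hS hTb
  rcases S.eq_empty_or_nonempty with rfl | ⟨x0, hx0⟩
  · rw [card_empty]
    push_cast
    positivity
  have hNz : (N : ℤ) ≠ 0 := by exact_mod_cast hN.ne'
  have ha1z : (a1 : ℤ) ≠ 0 := by exact_mod_cast ha1.ne'
  have hsz : (s : ℤ) ≠ 0 := by exact_mod_cast hs.ne'
  obtain ⟨hrel0, hne0, hL0, hdt0, _, _⟩ := hS x0 hx0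
  set u0 := x0.2.1 with hu0
  set v0 := x0.2.2 with hv0
  obtain ⟨Q0, hQd, hQe, hQm⟩ := exists_Q0 a' b' hroot hL0 hbv
  rw [hNN] at hQe hQm
  have hQe' : ∀ t : ℤ, (N : ℤ) * Q0.eval t = GG a' b' (u0 + t * bv.1) (v0 + t * bv.2) := hQe
  have hQm' : ∀ τ : ℚ, (N : ℚ) * (Q0.map (Int.castRingHom ℚ)).eval τ =
      qf a' b' (u0 + τ * bv.1) (v0 + τ * bv.2) := hQm
  set Q : ℤ[X] := Polynomial.C ((a1 : ℤ) ^ 2) * Q0 with hQ
  have hQd' : Q.natDegree ≤ 4 := (natDegree_C_mul_le _ _).trans hQd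
  have hQeval : ∀ t : ℤ, Q.eval t = a1 ^ 2 * Q0.eval t := by
    intro t; rw [hQ, eval_mul, eval_C]
  have hQ1 : 1 ≤ Q.natDegree := by
    by_contra hlt
    have h0 : Q.natDegree = 0 := by omega
    have h1 := eq_C_of_natDegree_eq_zero h0
    apply gg_nonconst a' b' (b1 := bv.1) (b2 := bv.2) _ hne0
    · intro t
      have h2 : Q.eval t = Q.eval 0 := by rw [h1, eval_C, eval_C]
      rw [hQeval, hQeval] at h2
      have h3 := mul_left_cancel₀ (pow_ne_zero 2 ha1z) h2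
      have h4 := hQe' 0
      rw [zero_mul, zero_mul, add_zero, add_zero] at h4
      rw [← hQe', ← h4, h3]
    · by_contra hno
      push Not at hno
      exact hbv0 (Prod.ext hno.1 hno.2)
  have hpt : ∀ x ∈ S, ∃ t : ℤ, x.2.1 = u0 + t * bv.1 ∧ x.2.2 = v0 + t * bv.2 := by
    intro x hx
    obtain ⟨_, _, hL, hdt, _, _⟩ := hS x hx
    have hd : dt bv (x.2.1 - u0, x.2.2 - v0) = 0 := by
      rw [← hdt0] at hdt
      unfold dt at hdt ⊢
      simp only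
      linear_combination hdt
    have hL' := hL.sub_mul hL0 1
    rw [one_mul, one_mul] at hL'
    obtain ⟨t, ht1, ht2⟩ := hpar _ hL' hd
    simp only at ht1 ht2
    exact ⟨t, by linarith, by linarith⟩
  choose! t ht1 ht2 using hpt
  let φ : ℤ × (ℤ × ℤ) → ℤ × ℤ := fun x => (x.1, t x)
  have hinj : Set.InjOn φ S := by
    intro x hx y hy hxy
    simp only [φ, Prod.mk.injEq] at hxy
    refine Prod.ext hxy.1 (Prod.ext ?_ ?_)
    · rw [ht1 x hx, ht1 y hy, hxy.2]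
    · rw [ht2 x hx, ht2 y hy, hxy.2]
  have hcard : (S.image φ).card = S.card := card_image_of_injOn hinj
  rw [← hcard]
  apply hC (s : ℤ) (b * s ^ 3) Q X T (S.image φ) hsz _ hX hT hQd' hQ1
  · intro y hy
    obtain ⟨x, hx, rfl⟩ := mem_image.mp hy
    simp only [φ]
    obtain ⟨hrel, _, _, _, _, _⟩ := hS x hx
    rw [PP_eval, hQeval]
    have h1 : (N : ℤ) * (x.1 ^ 3 + a * s ^ 2 * x.1 + b * s ^ 3) = N * (a1 ^ 2 * Q0.eval (t x)) := by
      have h2 := hQe' (t x)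
      rw [← ht1 x hx, ← ht2 x hx] at h2
      unfold fs at hrel
      linear_combination hrel - a1 ^ 2 * h2
    exact mul_left_cancel₀ hNz h1
  · intro y hy
    obtain ⟨x, hx, rfl⟩ := mem_image.mp hy
    exact (hS x hx).2.2.2.2.1
  · intro y hy
    obtain ⟨x, hx, rfl⟩ := mem_image.mp hy
    exact hTb x0 hx0 x hx (t x) (ht1 x hx) (ht2 x hx)
  · intro c e hce y hy hlin
    obtain ⟨x, hx, rfl⟩ := mem_image.mp hy
    simp only [φ] at hlin
    obtain ⟨_, hne, _, _, _, hong⟩ := hS x hx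
    apply hong
    have hc0 : c ≠ 0 := by
      rintro rfl
      rw [Polynomial.C_0, zero_mul, zero_add] at hce
      have h1 := congrArg natDegree hce
      rw [comp_C, natDegree_C, natDegree_map_eq_of_injective (RingHom.injective_int _)] at h1
      omega
    have hI : ∀ τ : ℚ, (N : ℚ) * ((c * τ + e) ^ 3 + a * (c * τ + e) * s ^ 2 + b * s ^ 3) =
        a1 ^ 2 * qf a' b' (u0 + τ * bv.1) (v0 + τ * bv.2) := by
      intro τ
      have h1 := congrArg (eval τ) hce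
      rw [eval_comp, PP_map_eval, eval_add, eval_mul, eval_C, eval_X, eval_C, hQ,
        Polynomial.map_mul, eval_mul, map_C, eval_C] at h1
      have h2 := hQm' τ
      rw [Int.coe_castRingHom] at h1
      push_cast at h1
      linear_combination (N : ℚ) * h1 + (a1 : ℚ) ^ 2 * h2
    have hv : (v0 : ℚ) + (t x) * bv.2 ≠ 0 := by
      have h1 : x.2.2 ≠ 0 := by
        intro h0
        apply hne
        unfold GG
        rw [h0, zero_mul]
      rw [ht2 x hx] at h1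
      exact_mod_cast h1
    have h3 := onG_of_line (a := a) (b := b) (a' := a') (b' := b') (s := s) (N := N) (a1 := a1)
      (c' := c') (c := c) (e := e) (u0 := u0) (v0 := v0) (b1 := bv.1) (b2 := bv.2)
      (by exact_mod_cast hs.ne') (by exact_mod_cast hN.ne') (by exact_mod_cast ha1.ne') hNc hc0
      (by
        have : bv.1 * v0 - bv.2 * u0 ≠ 0 := by
          unfold dt at hdt0
          rw [← hu0, ← hv0] at hdt0
          rw [hdt0]
          exact hm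
        exact_mod_cast this) hI (t x) hv
    have e1 : (x.2.1 : ℚ) = u0 + (t x) * bv.1 := by exact_mod_cast ht1 x hx
    have e2 : (x.2.2 : ℚ) = v0 + (t x) * bv.2 := by exact_mod_cast ht2 x hx
    rw [hlin, e1, e2]
    exact h3
  · push_cast
    rw [abs_of_nonneg (Nat.cast_nonneg s)]
    exact hsX

end Pool.Agent.KBP
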