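import Pool.Agent.KBP.Fix

/-!
The count for fixed denominator and fixed square parts.
-/

namespace Pool.Agent.KBP

open Polynomial Finset Pool.Agent.K3N

lemma nm_le {p : ℤ × ℤ} {Y : ℝ} (h1 : |(p.1 : ℝ)| ≤ Y) (h2 : |(p.2 : ℝ)| ≤ Y) : (nm p : ℝ) ≤ Y := by
  unfold nm
  push_cast
  rw [Nat.cast_natAbs, Nat.cast_natAbs]
  push_cast
  exact max_le h1 h2

lemma t_le {p p' b : ℤ × ℤ} {t : ℤ} {Y : ℝ} (h1 : p'.1 = p.1 + t * b.1)
    (h2 : p'.2 = p.2 + t * b.2) (hp : (nm p : ℝ) ≤ Y) (hp' : (nm p' : ℝ) ≤ Y) :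
    |(t : ℝ)| * nm b ≤ 2 * Y := by
  have e1 : (t.natAbs * nm b : ℕ) ≤ nm p + nm p' := by
    have e2 : t.natAbs * nm b = max (t * b.1).natAbs (t * b.2).natAbs := by
      unfold nm
      rw [Int.natAbs_mul, Int.natAbs_mul, Nat.mul_max_mul_left]
    rw [e2]
    have e3 : t * b.1 = p'.1 - p.1 := by linarith
    have e4 : t * b.2 = p'.2 - p.2 := by linarith
    rw [e3, e4]
    unfold nm
    omega
  have e5 : ((t.natAbs : ℝ)) * nm b ≤ nm p + nm p' := by exact_mod_cast e1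
  rw [Nat.cast_natAbs] at e5
  push_cast at e5
  linarith

lemma GG_abs_le (a b : ℤ) {u v : ℤ} {Y : ℝ} (hY : 0 ≤ Y) (hu : |(u : ℝ)| ≤ Y)
    (hv : |(v : ℝ)| ≤ Y) : |(GG a b u v : ℝ)| ≤ (1 + |(a : ℝ)| + |(b : ℝ)|) * Y ^ 4 := by
  unfold GG fs
  push_cast
  rw [abs_mul]
  have h1 : |(u : ℝ) ^ 3 + a * u * v ^ 2 + b * v ^ 3| ≤ (1 + |(a : ℝ)| + |(b : ℝ)|) * Y ^ 3 := by
    refine (abs_add_le _ _).trans ?_
    refine (add_le_add_left (abs_add_le _ _) _).trans ?_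
    rw [abs_pow, abs_mul, abs_mul, abs_mul, abs_pow, abs_pow]
    have g1 : |(u : ℝ)| ^ 3 ≤ Y ^ 3 := pow_le_pow_left₀ (abs_nonneg _) hu 3
    have g2 : |(a : ℝ)| * |(u : ℝ)| * |(v : ℝ)| ^ 2 ≤ |(a : ℝ)| * Y * Y ^ 2 := by gcongr
    have g3 : |(b : ℝ)| * |(v : ℝ)| ^ 3 ≤ |(b : ℝ)| * Y ^ 3 := by gcongr
    calc _ ≤ Y ^ 3 + |(a : ℝ)| * Y * Y ^ 2 + |(b : ℝ)| * Y ^ 3 := by linarith
      _ = _ := by ring
  calc |(v : ℝ)| * |(u : ℝ) ^ 3 + a * u * v ^ 2 + b * v ^ 3| ≤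
        Y * ((1 + |(a : ℝ)| + |(b : ℝ)|) * Y ^ 3) := by gcongr
    _ = _ := by ring

lemma rpow_aux {β Y N : ℝ} (hβ : 0 < β) (hY : 0 < Y) (hN : 0 < N) (h : β ^ 2 ≤ N) :
    4 * β * Y / N * (2 * Y / β) ^ (1 / 3 : ℝ) ≤ 8 * (Y ^ (4 / 3 : ℝ) * N ^ (-(2 / 3) : ℝ)) := by
  have h1 : β * (2 * Y / β) ^ (1 / 3 : ℝ) ≤ 2 * (Y ^ (1 / 3 : ℝ) * N ^ (1 / 3 : ℝ)) := by
    have e1 : β * (2 * Y / β) ^ (1 / 3 : ℝ) = (2 * Y * β ^ 2) ^ (1 / 3 : ℝ) := by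
      have e2 : 2 * Y * β ^ 2 = β ^ 3 * (2 * Y / β) := by field_simp
      rw [e2, Real.mul_rpow (by positivity) (by positivity), ← Real.rpow_natCast β 3,
        ← Real.rpow_mul hβ.le]
      norm_num
    have e3 : 2 * (Y ^ (1 / 3 : ℝ) * N ^ (1 / 3 : ℝ)) = (8 * (Y * N)) ^ (1 / 3 : ℝ) := by
      rw [Real.mul_rpow (by norm_num) (by positivity), Real.mul_rpow hY.le hN.le]
      congr 1
      rw [show (8 : ℝ) = 2 ^ (3 : ℝ) by norm_num, ← Real.rpow_mul (by norm_num)]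
      norm_num
    rw [e1, e3]
    apply Real.rpow_le_rpow (by positivity) _ (by norm_num)
    nlinarith
  have h2 : Y ^ (4 / 3 : ℝ) = Y * Y ^ (1 / 3 : ℝ) := by
    rw [show (4 / 3 : ℝ) = 1 + 1 / 3 by norm_num, Real.rpow_add hY, Real.rpow_one]
  have h3 : N ^ (-(2 / 3) : ℝ) = N⁻¹ * N ^ (1 / 3 : ℝ) := by
    rw [show (-(2 / 3) : ℝ) = -1 + 1 / 3 by norm_num, Real.rpow_add hN, Real.rpow_neg_one]
  rw [h2, h3]
  calc 4 * β * Y / N * (2 * Y / β) ^ (1 / 3 : ℝ) =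
        4 * (Y / N) * (β * (2 * Y / β) ^ (1 / 3 : ℝ)) := by ring
    _ ≤ 4 * (Y / N) * (2 * (Y ^ (1 / 3 : ℝ) * N ^ (1 / 3 : ℝ))) := by gcongr
    _ = _ := by field_simp; ring

lemma fibre_le (a b : ℤ) {s N : ℕ} (hN : 0 < N) (k : ℤ) (S : Finset (ℤ × (ℤ × ℤ)))
    (hS : ∀ x ∈ S, ∀ y ∈ S, x.2 = y.2) (h : ∀ x ∈ S, N * fs a b x.1 s = k) : S.card ≤ 3 := by
  classical
  have hcard : (S.image Prod.fst).card = S.card := by
    apply card_image_of_injOn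
    intro x hx y hy hxy
    exact Prod.ext hxy (hS x hx y hy)
  rw [← hcard]
  have hR : C (N : ℤ) * PP (a * s ^ 2) (b * s ^ 3) - C k ≠ 0 := by
    intro h0
    have h1 := congrArg natDegree h0
    rw [natDegree_sub_C, natDegree_C_mul (by exact_mod_cast hN.ne'), PP_deg] at h1
    simp at h1
  apply card_le_of_roots hR
  · rw [natDegree_sub_C, natDegree_C_mul (by exact_mod_cast hN.ne'), PP_deg]
  · intro r hr
    obtain ⟨x, hx, rfl⟩ := mem_image.mp hr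
    have := h x hx
    unfold fs at this
    rw [eval_sub, eval_C, eval_mul, eval_C, PP_eval]
    linear_combination this

theorem fix_count (a b a' b' : ℤ) (hΔ' : 4 * a' ^ 3 + 27 * b' ^ 2 ≠ 0) (ε : ℝ) (hε : 0 < ε) :
    ∃ C : ℝ, 1 ≤ C ∧
    ∀ (X Y : ℝ) (s N a1 : ℕ) (c' : ℚ) (S : Finset (ℤ × (ℤ × ℤ))), 1 ≤ X → 1 ≤ Y → 0 < s →
      (s : ℝ) ≤ X → 0 < N → 0 < a1 → (N : ℚ) = c' ^ 2 * a1 ^ 2 * s →
      (∀ x ∈ S, N * fs a b x.1 s = a1 ^ 2 * GG a' b' x.2.1 x.2.2 ∧ GG a' b' x.2.1 x.2.2 ≠ 0 ∧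
        (N : ℤ) ∣ GG a' b' x.2.1 x.2.2 ∧ IsCoprime x.2.1 x.2.2 ∧ |(x.1 : ℝ)| ≤ X ∧
        |(x.2.1 : ℝ)| ≤ Y ∧ |(x.2.2 : ℝ)| ≤ Y ∧
        ¬ OnG a b a' b' ((x.1 : ℚ) / s) ((x.2.1 : ℚ) / x.2.2)) →
      (S.card : ℝ) ≤ C * (X * Y) ^ ε * (1 + Y ^ (4 / 3 : ℝ) * (N : ℝ) ^ (-(2 / 3) : ℝ)) := by
  classical
  obtain ⟨C1, hC1, h1⟩ := line_bound a b a' b' ε hε
  obtain ⟨Cd, hCd1, hCd⟩ := card_divisors_le (ε / 12) (by positivity)
  obtain ⟨D, U, V, hD, hUV⟩ := exists_disc a' b' hΔ'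
  set κ : ℝ := 1 + |(a' : ℝ)| + |(b' : ℝ)| with hκ
  have hκ1 : 1 ≤ κ := by
    have := abs_nonneg (a' : ℝ)
    have := abs_nonneg (b' : ℝ)
    rw [hκ]; linarith
  have hDr : (1 : ℝ) ≤ D := by exact_mod_cast hD
  refine ⟨Cd ^ 3 * κ ^ (ε / 4) * (D * D) * (8 * C1), ?_, ?_⟩
  · have g1 : 1 ≤ Cd ^ 3 := one_le_pow₀ hCd1
    have g2 : 1 ≤ κ ^ (ε / 4) := Real.one_le_rpow hκ1 (by positivity)
    have g3 : (1 : ℝ) ≤ D * D := by nlinarith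
    have g4 : 1 ≤ 8 * C1 := by linarith
    exact one_le_mul_of_one_le_of_one_le (one_le_mul_of_one_le_of_one_le
      (one_le_mul_of_one_le_of_one_le g1 g2) g3) g4
  intro X Y s N a1 c' S hX hY hs hsX hN ha1 hNc hS
  have hX0 : (0 : ℝ) < X := by linarith
  have hY0 : (0 : ℝ) < Y := by linarith
  have hNr : (0 : ℝ) < N := by exact_mod_cast hN
  rcases S.eq_empty_or_nonempty with rfl | ⟨x0, hx0⟩
  · rw [card_empty]
    push_cast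
    positivity
  set K : ℝ := 6 + 8 * C1 * X ^ ε * (Y ^ (4 / 3 : ℝ) * (N : ℝ) ^ (-(2 / 3) : ℝ)) with hK
  have hK0 : 0 ≤ K := by positivity
  have hclass := class_bound a' b' hD hUV N hN S (fun x => x.2)
    (fun x hx => ⟨(hS x hx).2.2.2.1, (hS x hx).2.2.1⟩) K hK0 (by
    intro N1 N2 l hN1 hN2 hNN hroot S' hS' hL
    rcases S'.eq_empty_or_nonempty with rfl | ⟨y0, hy0⟩
    · rw [card_empty]
      push_cast
      exact hK0
    obtain ⟨bv, hbv, hbv0, hbvn, hmin, hpar, hlines⟩ := lines_count hN1 hN2 l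
    have hnorm : ∀ x ∈ S', (nm x.2 : ℝ) ≤ Y := fun x hx =>
      nm_le (hS x (hS' hx)).2.2.2.2.2.1 (hS x (hS' hx)).2.2.2.2.2.2.1
    have hβ0 : nm bv ≠ 0 := fun h => hbv0 (nm_eq_zero h)
    have hβ1 : (1 : ℝ) ≤ nm bv := by exact_mod_cast Nat.one_le_iff_ne_zero.mpr hβ0
    have hβY : (nm bv : ℝ) ≤ Y := by
      have hne : y0.2 ≠ 0 := by
        intro h0
        obtain ⟨c, d, hcd⟩ := (hS y0 (hS' hy0)).2.2.2.1
        rw [h0] at hcd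
        simp at hcd
      have := hmin y0.2 (hL y0 hy0) hne
      exact (show (nm bv : ℝ) ≤ nm y0.2 by exact_mod_cast this).trans (hnorm y0 hy0)
    set β : ℝ := (nm bv : ℝ) with hβ
    have hβp : 0 < β := by linarith
    have hT1 : 1 ≤ 2 * Y / β := by
      rw [le_div_iff₀ hβp]; linarith
    have hmain := hlines S' (fun x => x.2) Y hY (fun x hx => ⟨hL x hx,
      (hS x (hS' hx)).2.2.2.1, (hS x (hS' hx)).2.2.2.2.2.1, (hS x (hS' hx)).2.2.2.2.2.2.1⟩) 3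
      (by
        intro p
        apply fibre_le a b hN (a1 ^ 2 * GG a' b' p.1 p.2)
        · intro x hx y hy
          rw [mem_filter] at hx hy
          exact hx.2.trans hy.2.symm
        · intro x hx
          rw [mem_filter] at hx
          rw [← hx.2]
          exact (hS x (hS' hx.1)).1)
      (C1 * X ^ ε * (2 * Y / β) ^ (1 / 3 : ℝ)) (by positivity)
      (by
        intro m hm
        apply h1 X (2 * Y / β) s N a1 c' N1 N2 l bv m _ hX hT1 hs hsX hN ha1 hNc hNN hroot hbv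
          hbv0 hm hpar
        · intro x hx
          rw [mem_filter] at hx
          obtain ⟨k1, k2, k3, k4, k5, k6, k7, k8⟩ := hS x (hS' hx.1)
          exact ⟨k1, k2, hL x hx.1, hx.2, k5, k8⟩
        · intro x hx x' hx' t ht1 ht2
          rw [mem_filter] at hx hx'
          rw [le_div_iff₀ hβp]
          exact t_le ht1 ht2 (hnorm x hx.1) (hnorm x' hx'.1))
    refine hmain.trans ?_
    rw [hNN, hK]
    have hβN : β ^ 2 ≤ N := by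
      rw [hβ]
      rw [hNN] at hbvn
      exact_mod_cast hbvn
    have h2 := rpow_aux hβp hY0 hNr hβN
    have h3 : 4 * β * Y / (N : ℝ) * (C1 * X ^ ε * (2 * Y / β) ^ (1 / 3 : ℝ)) =
        C1 * X ^ ε * (4 * β * Y / N * (2 * Y / β) ^ (1 / 3 : ℝ)) := by ring
    rw [h3]
    have h4 : C1 * X ^ ε * (4 * β * Y / N * (2 * Y / β) ^ (1 / 3 : ℝ)) ≤
        C1 * X ^ ε * (8 * (Y ^ (4 / 3 : ℝ) * (N : ℝ) ^ (-(2 / 3) : ℝ))) := by gcongr
    have h5 : C1 * X ^ ε * (8 * (Y ^ (4 / 3 : ℝ) * (N : ℝ) ^ (-(2 / 3) : ℝ))) =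
        8 * C1 * X ^ ε * (Y ^ (4 / 3 : ℝ) * (N : ℝ) ^ (-(2 / 3) : ℝ)) := by ring
    push_cast
    linarith)
  refine hclass.trans ?_
  -- the number of divisors
  have hNle : (N : ℝ) ≤ κ * Y ^ 4 := by
    obtain ⟨_, k2, k3, _, _, k6, k7, _⟩ := hS x0 hx0
    have g1 := Int.le_of_dvd (abs_pos.mpr k2) ((dvd_abs _ _).mpr k3)
    have g2 : (N : ℝ) ≤ |(GG a' b' x0.2.1 x0.2.2 : ℝ)| := by exact_mod_cast g1
    exact g2.trans (GG_abs_le a' b' hY0.le k6 k7)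
  have hτ : (N.divisors.card : ℝ) ^ 3 ≤ Cd ^ 3 * κ ^ (ε / 4) * Y ^ ε := by
    have g1 := hCd N hN.ne'
    have g2 : (N : ℝ) ^ (ε / 12) ≤ (κ * Y ^ 4) ^ (ε / 12) :=
      Real.rpow_le_rpow hNr.le hNle (by positivity)
    have g3 : (N.divisors.card : ℝ) ≤ Cd * (κ * Y ^ 4) ^ (ε / 12) := by
      refine g1.trans ?_
      gcongr
    have g4 := pow_le_pow_left₀ (by positivity) g3 3
    refine g4.trans (le_of_eq ?_)
    rw [mul_pow, mul_assoc]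
    congr 1
    rw [← Real.rpow_natCast ((κ * Y ^ 4) ^ (ε / 12)) 3, ← Real.rpow_mul (by positivity),
      Real.mul_rpow (by positivity) (by positivity), ← Real.rpow_natCast Y 4,
      ← Real.rpow_mul hY0.le]
    push_cast
    congr 2 <;> ring
  have hXε : 1 ≤ X ^ ε := Real.one_le_rpow hX hε.le
  set W : ℝ := Y ^ (4 / 3 : ℝ) * (N : ℝ) ^ (-(2 / 3) : ℝ) with hW
  have hW0 : 0 ≤ W := by positivity
  have hKle : K ≤ 8 * C1 * X ^ ε * (1 + W) := by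
    rw [hK]
    have : (1 : ℝ) ≤ C1 * X ^ ε := one_le_mul_of_one_le_of_one_le hC1 hXε
    nlinarith
  calc (N.divisors.card : ℝ) ^ 3 * (D * D) * K ≤
        (Cd ^ 3 * κ ^ (ε / 4) * Y ^ ε) * (D * D) * (8 * C1 * X ^ ε * (1 + W)) := by gcongr
    _ = Cd ^ 3 * κ ^ (ε / 4) * (D * D) * (8 * C1) * (X * Y) ^ ε * (1 + W) := by
      rw [Real.mul_rpow hX0.le hY0.le]
      ring

end Pool.Agent.KBP
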