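import Pool.Agent.KBP.Slice

/-!
The bound for all pairs of elliptic curves over the rationals.
-/

namespace Pool.Agent.KBP

open Finset Pool.Agent.K3N Height

theorem int_count (a b a' b' : ℤ) (hΔ : 4 * a ^ 3 + 27 * b ^ 2 ≠ 0)
    (hΔ' : 4 * a' ^ 3 + 27 * b' ^ 2 ≠ 0) (ε : ℝ) (hε : 0 < ε) :
    ∃ C : ℝ, 0 ≤ C ∧ ∀ (B : ℝ) (s : Finset (ℚ × ℚ × ℚ)), 1 ≤ B →
      (∀ p ∈ s, p.2.2 ^ 2 = K3H.fc (a : ℚ) b p.1 * K3H.fc (a' : ℚ) b' p.2.1 ∧ p.2.2 ≠ 0 ∧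
        mulHeight₁ p.1 * mulHeight₁ p.2.1 ≤ B ∧ ¬ OnG a b a' b' p.1 p.2.1) →
      (s.card : ℝ) ≤ C * B ^ (11 / 12 + ε) := by
  classical
  obtain ⟨C1, hC10, hC1⟩ := half_count a b a' b' hΔ hΔ' ε hε
  obtain ⟨C2, hC20, hC2⟩ := half_count a' b' a b hΔ' hΔ ε hε
  refine ⟨C1 + C2, by positivity, ?_⟩
  intro B s hB hs
  have c1 := hC1 B (s.filter (fun p => mulHeight₁ p.1 ≤ mulHeight₁ p.2.1)) hB (by
    intro p hp
    obtain ⟨hps, hp1⟩ := mem_filter.mp hp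
    obtain ⟨g1, g2, g3, g4⟩ := hs p hps
    exact ⟨g1, g2, g3, hp1, g4⟩)
  let f : ℚ × ℚ × ℚ → ℚ × ℚ × ℚ := fun p => (p.2.1, p.1, p.2.2)
  have hf : Function.Injective f := by
    intro p q h
    simp only [f, Prod.mk.injEq] at h
    exact Prod.ext h.2.1 (Prod.ext h.1 h.2.2)
  have c2 := hC2 B ((s.filter (fun p => ¬ mulHeight₁ p.1 ≤ mulHeight₁ p.2.1)).image f) hB (by
    intro q hq
    obtain ⟨p, hp, rfl⟩ := mem_image.mp hq
    obtain ⟨hps, hp1⟩ := mem_filter.mp hp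
    obtain ⟨g1, g2, g3, g4⟩ := hs p hps
    push Not at hp1
    refine ⟨?_, g2, ?_, hp1.le, fun h => g4 h.symm⟩
    · show p.2.2 ^ 2 = K3H.fc (a' : ℚ) b' p.2.1 * K3H.fc (a : ℚ) b p.1
      rw [g1]; ring
    · show mulHeight₁ p.2.1 * mulHeight₁ p.1 ≤ B
      linarith)
  rw [card_image_of_injective _ hf] at c2
  have hsum := card_filter_add_card_filter_not (s := s)
    (fun p => mulHeight₁ p.1 ≤ mulHeight₁ p.2.1)
  have h6 : (s.card : ℝ) = (s.filter (fun p => mulHeight₁ p.1 ≤ mulHeight₁ p.2.1)).card +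
      (s.filter (fun p => ¬ mulHeight₁ p.1 ≤ mulHeight₁ p.2.1)).card := by
    rw [← hsum]; push_cast; rfl
  rw [h6]
  linarith

/-- Integral scaling. -/
lemma exists_int (a b : ℚ) (h : 4 * a ^ 3 + 27 * b ^ 2 ≠ 0) : ∃ (u : ℚ) (m n : ℤ), u ≠ 0 ∧
    (m : ℚ) = u ^ 4 * a ∧ (n : ℚ) = u ^ 6 * b ∧ 4 * m ^ 3 + 27 * n ^ 2 ≠ 0 := by
  have ha : (a.den : ℚ) ≠ 0 := by exact_mod_cast a.den_nz
  have hb : (b.den : ℚ) ≠ 0 := by exact_mod_cast b.den_nz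
  have ea : a * a.den = a.num := Rat.mul_den_eq_num a
  have eb : b * b.den = b.num := Rat.mul_den_eq_num b
  have e1 : ((a.num * (a.den : ℤ) ^ 3 * (b.den : ℤ) ^ 4 : ℤ) : ℚ) =
      ((a.den : ℚ) * b.den) ^ 4 * a := by
    push_cast
    rw [← ea]; ring
  have e2 : ((b.num * (b.den : ℤ) ^ 5 * (a.den : ℤ) ^ 6 : ℤ) : ℚ) =
      ((a.den : ℚ) * b.den) ^ 6 * b := by
    push_cast
    rw [← eb]; ring
  refine ⟨(a.den : ℚ) * b.den, a.num * (a.den : ℤ) ^ 3 * (b.den : ℤ) ^ 4,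
    b.num * (b.den : ℤ) ^ 5 * (a.den : ℤ) ^ 6, mul_ne_zero ha hb, e1, e2, ?_⟩
  have e3 : ((4 * (a.num * (a.den : ℤ) ^ 3 * (b.den : ℤ) ^ 4) ^ 3 +
      27 * (b.num * (b.den : ℤ) ^ 5 * (a.den : ℤ) ^ 6) ^ 2 : ℤ) : ℚ) ≠ 0 := by
    rw [Int.cast_add, Int.cast_mul 4, Int.cast_mul 27, Int.cast_pow _ 3, Int.cast_pow _ 2, e1, e2]
    have : ((4 : ℤ) : ℚ) * (((a.den : ℚ) * b.den) ^ 4 * a) ^ 3 +
        ((27 : ℤ) : ℚ) * (((a.den : ℚ) * b.den) ^ 6 * b) ^ 2 =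
        ((a.den : ℚ) * b.den) ^ 12 * (4 * a ^ 3 + 27 * b ^ 2) := by push_cast; ring
    rw [this]
    exact mul_ne_zero (pow_ne_zero 12 (mul_ne_zero ha hb)) h
  exact_mod_cast e3

/-- The bound for all pairs of elliptic curves over the rationals. -/
theorem gen_main (a b a' b' : ℚ) (hΔ : 4 * a ^ 3 + 27 * b ^ 2 ≠ 0)
    (hΔ' : 4 * a' ^ 3 + 27 * b' ^ 2 ≠ 0) (ε : ℝ) (hε : 0 < ε) :
    ∃ C : ℝ, 0 ≤ C ∧ ∀ (B : ℝ) (s : Finset (ℚ × ℚ × ℚ)), 1 ≤ B →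
      (∀ p ∈ s, p.2.2 ^ 2 = K3H.fc a b p.1 * K3H.fc a' b' p.2.1 ∧ p.2.2 ≠ 0 ∧
        mulHeight₁ p.1 * mulHeight₁ p.2.1 ≤ B ∧ ¬ OnG a b a' b' p.1 p.2.1) →
      (s.card : ℝ) ≤ C * B ^ (11 / 12 + ε) := by
  classical
  obtain ⟨u, m, n, hu, hm, hn, hd⟩ := exists_int a b hΔ
  obtain ⟨u', m', n', hu', hm', hn', hd'⟩ := exists_int a' b' hΔ'
  obtain ⟨C, hC0, hC⟩ := int_count m n m' n' hd hd' ε hε
  obtain ⟨H1, hH1, h1⟩ := ht_affine (u ^ 2) 0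
  obtain ⟨H2, hH2, h2⟩ := ht_affine (u' ^ 2) 0
  refine ⟨C * (H1 * H2) ^ (11 / 12 + ε), by positivity, ?_⟩
  intro B s hB hs
  let f : ℚ × ℚ × ℚ → ℚ × ℚ × ℚ := fun p =>
    (u ^ 2 * p.1 + 0, u' ^ 2 * p.2.1 + 0, u ^ 3 * u' ^ 3 * p.2.2)
  have hinj : Function.Injective f := by
    intro p q h
    simp only [f, Prod.mk.injEq] at h
    obtain ⟨e1, e2, e3⟩ := h
    refine Prod.ext ?_ (Prod.ext ?_ ?_)
    · exact mul_left_cancel₀ (pow_ne_zero 2 hu) (by linarith)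
    · exact mul_left_cancel₀ (pow_ne_zero 2 hu') (by linarith)
    · exact mul_left_cancel₀ (mul_ne_zero (pow_ne_zero 3 hu) (pow_ne_zero 3 hu')) e3
  have hfc : ∀ x, K3H.fc (m : ℚ) n (u ^ 2 * x + 0) = u ^ 6 * K3H.fc a b x := by
    intro x
    simp only [K3H.fc, hm, hn]
    ring
  have hfc' : ∀ x, K3H.fc (m' : ℚ) n' (u' ^ 2 * x + 0) = u' ^ 6 * K3H.fc a' b' x := by
    intro x
    simp only [K3H.fc, hm', hn']
    ring
  have hq : ∀ X Y, qf (m : ℚ) n (u ^ 2 * X) Y = u ^ 6 * qf a b X Y := by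
    intro X Y
    simp only [qf, hm, hn]
    ring
  have hq' : ∀ X Y, qf (m' : ℚ) n' (u' ^ 2 * X) Y = u' ^ 6 * qf a' b' X Y := by
    intro X Y
    simp only [qf, hm', hn']
    ring
  rw [← Finset.card_image_of_injective s hinj]
  have hHH : 1 ≤ H1 * H2 := by nlinarith
  have hmain := hC (H1 * H2 * B) (s.image f) (by nlinarith) (by
    intro q hq'q
    obtain ⟨p, hp, rfl⟩ := Finset.mem_image.mp hq'q
    obtain ⟨g1, g2, g3, g4⟩ := hs p hp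
    refine ⟨?_, ?_, ?_, ?_⟩
    · simp only [f]
      rw [hfc, hfc']
      linear_combination (u ^ 6 * u' ^ 6) * g1
    · exact mul_ne_zero (mul_ne_zero (pow_ne_zero 3 hu) (pow_ne_zero 3 hu')) g2
    · simp only [f]
      have a1 := h1 p.1
      have a2 := h2 p.2.1
      have b1 := one_le_mulHeight₁ p.1
      have b2 := one_le_mulHeight₁ p.2.1
      calc mulHeight₁ (u ^ 2 * p.1 + 0) * mulHeight₁ (u' ^ 2 * p.2.1 + 0) ≤
            (H1 * mulHeight₁ p.1) * (H2 * mulHeight₁ p.2.1) := by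
            gcongr
        _ = H1 * H2 * (mulHeight₁ p.1 * mulHeight₁ p.2.1) := by ring
        _ ≤ H1 * H2 * B := by gcongr
    · intro hG
      apply g4
      obtain ⟨α, β, γ, δ, c, hc, hdet, hG, hz⟩ := hG
      simp only [f] at hz
      refine ⟨α * u ^ 2 / u' ^ 2, β / u' ^ 2, γ * u ^ 2, δ, c * u ^ 3 / u' ^ 3,
        div_ne_zero (mul_ne_zero hc (pow_ne_zero 3 hu)) (pow_ne_zero 3 hu'), ?_, ?_, ?_⟩
      · have e : α * u ^ 2 / u' ^ 2 * δ - β / u' ^ 2 * (γ * u ^ 2) =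
            (α * δ - β * γ) * (u ^ 2 / u' ^ 2) := by ring
        rw [e]
        exact mul_ne_zero hdet (div_ne_zero (pow_ne_zero 2 hu) (pow_ne_zero 2 hu'))
      · intro X Y
        have k1 := hG (u ^ 2 * X) Y
        rw [hq] at k1
        have k2 := hq' (α * u ^ 2 / u' ^ 2 * X + β / u' ^ 2 * Y) (γ * u ^ 2 * X + δ * Y)
        have k3 : u' ^ 2 * (α * u ^ 2 / u' ^ 2 * X + β / u' ^ 2 * Y) =
            α * (u ^ 2 * X) + β * Y := by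
          field_simp
        have k4 : γ * u ^ 2 * X + δ * Y = γ * (u ^ 2 * X) + δ * Y := by ring
        rw [k3, k4] at k2
        rw [k2] at k1
        rw [k4]
        have k5 : u' ^ 6 * qf a' b' (α * u ^ 2 / u' ^ 2 * X + β / u' ^ 2 * Y)
            (γ * (u ^ 2 * X) + δ * Y) =
            u' ^ 6 * ((c * u ^ 3 / u' ^ 3) ^ 2 * qf a b X Y) := by
          rw [k1]
          field_simp
        exact mul_left_cancel₀ (pow_ne_zero 6 hu') k5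
      · field_simp
        linear_combination hz)
  refine hmain.trans ?_
  rw [Real.mul_rpow (by positivity) (by positivity)]
  exact le_of_eq (by ring)

end Pool.Agent.KBP
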