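import Mathlib.Data.Int.GCD
import Mathlib.Data.Finset.Card
import Mathlib.Data.Nat.Sqrt
import Mathlib.RingTheory.Coprime.Lemmas
import Mathlib.Data.Int.Interval
import Mathlib.Combinatorics.Pigeonhole
import Mathlib.Tactic

/-!
Plane lattices given by a congruence, and their minimal vectors.
-/

namespace Pool.Agent.KBP

open Finset

/-- The lattice `N2 ∣ v`, `N1 ∣ u - l v`. -/
def Lam (N1 N2 : ℕ) (l : ℤ) (p : ℤ × ℤ) : Prop := (N2 : ℤ) ∣ p.2 ∧ (N1 : ℤ) ∣ p.1 - l * p.2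

/-- The maximum norm. -/
def nm (p : ℤ × ℤ) : ℕ := max p.1.natAbs p.2.natAbs

/-- The determinant. -/
def dt (p q : ℤ × ℤ) : ℤ := p.1 * q.2 - p.2 * q.1

variable {N1 N2 : ℕ} {l : ℤ}

lemma nm_eq_zero {p : ℤ × ℤ} (h : nm p = 0) : p = 0 := by
  unfold nm at h
  have h1 : p.1 = 0 := by omega
  have h2 : p.2 = 0 := by omega
  exact Prod.ext h1 h2

lemma Lam.sub_mul {p q : ℤ × ℤ} (hp : Lam N1 N2 l p) (hq : Lam N1 N2 l q) (t : ℤ) :
    Lam N1 N2 l (p.1 - t * q.1, p.2 - t * q.2) := by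
  refine ⟨dvd_sub hp.1 (hq.1.mul_left t), ?_⟩
  have e : p.1 - t * q.1 - l * (p.2 - t * q.2) = (p.1 - l * p.2) - t * (q.1 - l * q.2) := by ring
  show (N1 : ℤ) ∣ p.1 - t * q.1 - l * (p.2 - t * q.2)
  rw [e]
  exact dvd_sub hp.2 (hq.2.mul_left t)

lemma Lam.dt_dvd {p q : ℤ × ℤ} (hp : Lam N1 N2 l p) (hq : Lam N1 N2 l q) :
    ((N1 * N2 : ℕ) : ℤ) ∣ dt p q := by
  obtain ⟨⟨a, ha⟩, ⟨b, hb⟩⟩ := hp
  obtain ⟨⟨c, hc⟩, ⟨d, hd⟩⟩ := hq
  refine ⟨b * c - d * a, ?_⟩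
  unfold dt
  push_cast
  have e1 : p.1 = N1 * b + l * p.2 := by linarith
  have e2 : q.1 = N1 * d + l * q.2 := by linarith
  rw [e1, e2, ha, hc]
  ring

lemma exists_short (h1 : 0 < N1) (h2 : 0 < N2) (l : ℤ) :
    ∃ b : ℤ × ℤ, Lam N1 N2 l b ∧ b ≠ 0 ∧ nm b ^ 2 ≤ N1 * N2 := by
  classical
  set k := Nat.sqrt (N1 * N2) with hk
  have hk1 : k * k ≤ N1 * N2 := Nat.sqrt_le _
  have hk2 : N1 * N2 < (k + 1) * (k + 1) := Nat.lt_succ_sqrt _
  have h1z : (N1 : ℤ) ≠ 0 := by exact_mod_cast h1.ne'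
  have h1p : (0 : ℤ) < N1 := by exact_mod_cast h1
  let f : ℕ × ℕ → ℕ × ℕ := fun x => ((((x.1 : ℤ) - l * x.2) % N1).toNat, x.2 % N2)
  obtain ⟨x, hx, y, hy, hne, hxy⟩ := Finset.exists_ne_map_eq_of_card_lt_of_maps_to
    (s := range (k + 1) ×ˢ range (k + 1)) (t := range N1 ×ˢ range N2) (f := f)
    (by rw [card_product, card_product]; simpa using hk2)
    (by
      intro x _
      rw [Finset.mem_coe, mem_product, mem_range, mem_range]
      refine ⟨?_, Nat.mod_lt _ h2⟩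
      have e1 := Int.emod_lt_of_pos ((x.1 : ℤ) - l * x.2) h1p
      have e2 := Int.emod_nonneg ((x.1 : ℤ) - l * x.2) h1z
      simp only [f]
      omega)
  simp only [f, Prod.mk.injEq] at hxy
  rw [mem_product, mem_range, mem_range] at hx hy
  refine ⟨((x.1 : ℤ) - y.1, (x.2 : ℤ) - y.2), ⟨?_, ?_⟩, ?_, ?_⟩
  · have h3 : (y.2 : ℤ) ≡ x.2 [ZMOD N2] := Int.natCast_modEq_iff.mpr hxy.2.symm
    exact Int.ModEq.dvd h3
  · have e1 := Int.emod_nonneg ((x.1 : ℤ) - l * x.2) h1z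
    have e2 := Int.emod_nonneg ((y.1 : ℤ) - l * y.2) h1z
    have h3 : ((y.1 : ℤ) - l * y.2) ≡ ((x.1 : ℤ) - l * x.2) [ZMOD N1] := by
      unfold Int.ModEq
      have := hxy.1
      omega
    have h4 := Int.ModEq.dvd h3
    have e3 : (x.1 : ℤ) - y.1 - l * ((x.2 : ℤ) - y.2) =
        ((x.1 : ℤ) - l * x.2) - ((y.1 : ℤ) - l * y.2) := by ring
    show (N1 : ℤ) ∣ (x.1 : ℤ) - y.1 - l * ((x.2 : ℤ) - y.2)
    rw [e3]
    exact h4
  · intro h0
    apply hne
    have e1 : (x.1 : ℤ) - y.1 = 0 := congrArg Prod.fst h0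
    have e2 : (x.2 : ℤ) - y.2 = 0 := congrArg Prod.snd h0
    exact Prod.ext (by omega) (by omega)
  · have h3 : nm ((x.1 : ℤ) - y.1, (x.2 : ℤ) - y.2) ≤ k := by
      unfold nm
      simp only
      omega
    calc _ ≤ k ^ 2 := Nat.pow_le_pow_left h3 2
      _ ≤ _ := by rw [sq]; exact hk1

/-- A minimal vector. -/
lemma exists_min (h1 : 0 < N1) (h2 : 0 < N2) (l : ℤ) :
    ∃ b : ℤ × ℤ, Lam N1 N2 l b ∧ b ≠ 0 ∧ nm b ^ 2 ≤ N1 * N2 ∧
      ∀ c, Lam N1 N2 l c → c ≠ 0 → nm b ≤ nm c := by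
  classical
  obtain ⟨b0, hb0, hb0', hb0n⟩ := exists_short h1 h2 l
  have hex : ∃ n, ∃ b, Lam N1 N2 l b ∧ b ≠ 0 ∧ nm b = n := ⟨_, b0, hb0, hb0', rfl⟩
  obtain ⟨b, hb, hb', hbn⟩ := Nat.find_spec hex
  have hmin : ∀ c, Lam N1 N2 l c → c ≠ 0 → nm b ≤ nm c := by
    intro c hc hc'
    rw [hbn]
    exact Nat.find_min' hex ⟨c, hc, hc', rfl⟩
  exact ⟨b, hb, hb', (Nat.pow_le_pow_left (hmin b0 hb0 hb0') 2).trans hb0n, hmin⟩

lemma parallel {b c : ℤ × ℤ} (hb : Lam N1 N2 l b) (hb0 : b ≠ 0)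
    (hmin : ∀ c, Lam N1 N2 l c → c ≠ 0 → nm b ≤ nm c) (hc : Lam N1 N2 l c) (h : dt b c = 0) :
    ∃ t : ℤ, c.1 = t * b.1 ∧ c.2 = t * b.2 := by
  have hnb : nm b ≠ 0 := fun h => hb0 (nm_eq_zero h)
  unfold dt at h
  rcases le_total b.2.natAbs b.1.natAbs with hle | hle
  · have hnm : nm b = b.1.natAbs := max_eq_left hle
    have hb1 : b.1 ≠ 0 := by
      intro h0
      rw [hnm, h0] at hnb
      simp at hnb
    set t := c.1 / b.1 with ht
    have hr1 : c.1 - t * b.1 = c.1 % b.1 := by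
      have := Int.emod_add_mul_ediv c.1 b.1
      rw [ht]
      linarith
    have hlt : (c.1 - t * b.1).natAbs < b.1.natAbs := by
      rw [hr1]
      have e1 := Int.emod_nonneg c.1 hb1
      have e2 := Int.emod_lt_abs c.1 hb1
      have e3 : ((c.1 % b.1).natAbs : ℤ) = c.1 % b.1 := Int.natAbs_of_nonneg e1
      have e4 : (b.1.natAbs : ℤ) = |b.1| := Int.natCast_natAbs _
      omega
    have hcross : b.1 * (c.2 - t * b.2) = b.2 * (c.1 - t * b.1) := by linear_combination h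
    have hle2 : (c.2 - t * b.2).natAbs < b.1.natAbs := by
      have e1 : b.1.natAbs * (c.2 - t * b.2).natAbs = b.2.natAbs * (c.1 - t * b.1).natAbs := by
        rw [← Int.natAbs_mul, ← Int.natAbs_mul, hcross]
      have e2 : b.1.natAbs * (c.2 - t * b.2).natAbs ≤ b.1.natAbs * (c.1 - t * b.1).natAbs := by
        rw [e1]
        exact Nat.mul_le_mul_right _ hle
      have e3 := Nat.le_of_mul_le_mul_left e2 (Int.natAbs_pos.mpr hb1)
      omega
    have hz : ((c.1 - t * b.1, c.2 - t * b.2) : ℤ × ℤ) = 0 := by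
      by_contra hne
      have := hmin _ (hc.sub_mul hb t) hne
      rw [hnm] at this
      unfold nm at this
      simp only at this
      omega
    have z1 : c.1 - t * b.1 = 0 := congrArg Prod.fst hz
    have z2 : c.2 - t * b.2 = 0 := congrArg Prod.snd hz
    exact ⟨t, by linarith, by linarith⟩
  · have hnm : nm b = b.2.natAbs := max_eq_right hle
    have hb1 : b.2 ≠ 0 := by
      intro h0
      rw [hnm, h0] at hnb
      simp at hnb
    set t := c.2 / b.2 with ht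
    have hr1 : c.2 - t * b.2 = c.2 % b.2 := by
      have := Int.emod_add_mul_ediv c.2 b.2
      rw [ht]
      linarith
    have hlt : (c.2 - t * b.2).natAbs < b.2.natAbs := by
      rw [hr1]
      have e1 := Int.emod_nonneg c.2 hb1
      have e2 := Int.emod_lt_abs c.2 hb1
      have e3 : ((c.2 % b.2).natAbs : ℤ) = c.2 % b.2 := Int.natAbs_of_nonneg e1
      have e4 : (b.2.natAbs : ℤ) = |b.2| := Int.natCast_natAbs _
      omega
    have hcross : b.2 * (c.1 - t * b.1) = b.1 * (c.2 - t * b.2) := by linear_combination -h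
    have hle2 : (c.1 - t * b.1).natAbs < b.2.natAbs := by
      have e1 : b.2.natAbs * (c.1 - t * b.1).natAbs = b.1.natAbs * (c.2 - t * b.2).natAbs := by
        rw [← Int.natAbs_mul, ← Int.natAbs_mul, hcross]
      have e2 : b.2.natAbs * (c.1 - t * b.1).natAbs ≤ b.2.natAbs * (c.2 - t * b.2).natAbs := by
        rw [e1]
        exact Nat.mul_le_mul_right _ hle
      have e3 := Nat.le_of_mul_le_mul_left e2 (Int.natAbs_pos.mpr hb1)
      omega
    have hz : ((c.1 - t * b.1, c.2 - t * b.2) : ℤ × ℤ) = 0 := by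
      by_contra hne
      have := hmin _ (hc.sub_mul hb t) hne
      rw [hnm] at this
      unfold nm at this
      simp only at this
      omega
    have z1 : c.1 - t * b.1 = 0 := congrArg Prod.fst hz
    have z2 : c.2 - t * b.2 = 0 := congrArg Prod.snd hz
    exact ⟨t, by linarith, by linarith⟩

end Pool.Agent.KBP
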