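import Pool.Agent.KBP.Rep
import Mathlib.RingTheory.Polynomial.RationalRoot

/-!
Integer points on `k³ + a s² k + q' = Q(t)`.
-/

namespace Pool.Agent.KBP

open Polynomial Finset Pool.Agent.K3N

/-- The cubic. -/
noncomputable def PP (p q : ℤ) : ℤ[X] := X ^ 3 + C p * X + C q

lemma PP_monic (p q : ℤ) : (PP p q).Monic := by unfold PP; monicity!

lemma PP_deg (p q : ℤ) : (PP p q).natDegree = 3 := by unfold PP; compute_degree!

lemma PP_eval (p q k : ℤ) : (PP p q).eval k = k ^ 3 + p * k + q := by unfold PP; simp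

lemma PP_deriv (p q k : ℤ) : (derivative (PP p q)).eval k = 3 * k ^ 2 + p := by
  unfold PP; simp

lemma PP_map_eval (p q : ℤ) (l : ℚ) :
    ((PP p q).map (Int.castRingHom ℚ)).eval l = l ^ 3 + p * l + q := by
  unfold PP; simp

theorem line_noroot (a : ℤ) (ε : ℝ) (hε : 0 < ε) : ∃ C : ℝ, 1 ≤ C ∧
    ∀ (s q : ℤ) (Q : ℤ[X]) (K T : ℝ) (S : Finset (ℤ × ℤ)), |(s : ℝ)| ≤ K → 1 ≤ K →
      1 ≤ T → Q.natDegree ≤ 4 → 1 ≤ Q.natDegree →
      (∀ p ∈ S, (PP (a * s ^ 2) q).eval p.1 = Q.eval p.2) → (∀ p ∈ S, |(p.1 : ℝ)| ≤ K) →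
      (∀ p ∈ S, |(p.2 : ℝ)| ≤ T) →
      (∀ κ : ℚ[X], ((PP (a * s ^ 2) q).map (Int.castRingHom ℚ)).comp κ ≠
        Q.map (Int.castRingHom ℚ)) →
      (S.card : ℝ) ≤ C * K ^ ε * T ^ (1 / 3 : ℝ) := by
  obtain ⟨m, hm⟩ := exists_nat_gt (2 / ε)
  set F : ℝ := ((3 * (m + 1)).factorial : ℝ) with hF
  have hF2 : (2 : ℝ) ≤ F := by
    rw [hF]
    have h1 : (3 * (m + 1)) ≤ (3 * (m + 1)).factorial := Nat.self_le_factorial _
    have h2 : (2 : ℕ) ≤ (3 * (m + 1)).factorial := by omega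
    exact_mod_cast h2
  obtain ⟨r1, hr1⟩ := pow_unbounded_of_one_lt (3 + |(a : ℝ)|) (one_lt_two (α := ℝ))
  obtain ⟨r2, hr2⟩ := exists_nat_gt (2 / ε)
  set r := r1 + r2 with hr
  set d := max 4 m with hd
  refine ⟨((r + 1) * (45 * d * (2 ^ (r + 1) * (2 * F))) + 2 * d : ℝ), ?_, ?_⟩
  · have h1 : (1 : ℝ) ≤ d := by
      have : 1 ≤ d := le_trans (by norm_num) (le_max_left 4 m)
      exact_mod_cast this
    have h2 : (0 : ℝ) ≤ (r + 1) * (45 * d * (2 ^ (r + 1) * (2 * F))) := by positivity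
    linarith
  intro s q Q K T S hs hK hT hQ hQ1 hS hSK hST hno
  have hK0 : (0 : ℝ) < K := by linarith
  have hT0 : (0 : ℝ) < T := by linarith
  set y : ℝ := F * K ^ ε * T ^ (1 / 3 : ℝ) with hy
  have hKε : (1 : ℝ) ≤ K ^ ε := Real.one_le_rpow hK hε.le
  have hT3 : (1 : ℝ) ≤ T ^ (1 / 3 : ℝ) := Real.one_le_rpow hT (by norm_num)
  have hKT : (1 : ℝ) ≤ K ^ ε * T ^ (1 / 3 : ℝ) := one_le_mul_of_one_le_of_one_le hKε hT3
  have hyF : F * K ^ ε ≤ y := by
    rw [hy]
    exact le_mul_of_one_le_right (by positivity) hT3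
  have hy2 : (2 : ℝ) ≤ y := by nlinarith
  set N : ℕ := ⌈y⌉₊ with hN
  have hyN : y ≤ N := Nat.le_ceil y
  have hNy : (N : ℝ) ≤ 2 * y := by
    have := Nat.ceil_lt_add_one (show (0 : ℝ) ≤ y by linarith)
    linarith
  have hN1 : 1 ≤ N := by
    have : (1 : ℝ) ≤ N := by linarith
    exact_mod_cast this
  set E := ∑ k ∈ range (3 * (m + 1)), k with hE
  set B := ∑ b ∈ range (m + 1), b with hB
  have hE2 : E * 2 = 3 * (m + 1) * (3 * m + 2) := by
    rw [hE, Finset.sum_range_id_mul_two]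
    congr 1
  have hB2 : B * 2 = (m + 1) * m := by
    rw [hB, Finset.sum_range_id_mul_two]
    congr 1
  have hE2r : (E : ℝ) * 2 = 3 * (m + 1) * (3 * m + 2) := by exact_mod_cast hE2
  have hB2r : (B : ℝ) * 2 = (m + 1) * m := by exact_mod_cast hB2
  have hE1 : 1 ≤ E := by nlinarith
  have hle : F * (K ^ (3 * (m + 1)) * T ^ (3 * B)) ≤ (N : ℝ) ^ E := by
    refine le_trans ?_ (pow_le_pow_left₀ (by positivity) hyN E)
    rw [hy, mul_pow, mul_pow, mul_assoc]
    apply mul_le_mul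
    · exact le_self_pow₀ (by linarith) (by omega)
    · apply mul_le_mul
      · rw [← Real.rpow_natCast, ← Real.rpow_natCast, ← Real.rpow_mul hK0.le]
        apply Real.rpow_le_rpow_of_exponent_le hK
        push_cast
        have h1 : 2 < ε * m := by
          rw [div_lt_iff₀ hε] at hm
          linarith
        have h2 : 2 * (3 * ((m : ℝ) + 1)) ≤ ε * (E * 2) := by
          rw [hE2r]
          nlinarith
        linarith
      · rw [← Real.rpow_natCast, ← Real.rpow_natCast, ← Real.rpow_mul hT0.le]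
        apply Real.rpow_le_rpow_of_exponent_le hT
        push_cast
        nlinarith
      · positivity
      · positivity
    · positivity
    · positivity
  have hdv : ∀ p ∈ S, |(PP (a * s ^ 2) q).derivative.eval p.1| ≤ (N : ℤ) ^ r := by
    intro p hp
    rw [PP_deriv]
    have h1 : |(3 * (p.1 : ℝ) ^ 2 + a * s ^ 2)| ≤ (N : ℝ) ^ r := by
      have e1 : (p.1 : ℝ) ^ 2 ≤ K ^ 2 := by
        rw [← sq_abs]; exact pow_le_pow_left₀ (abs_nonneg _) (hSK p hp) 2
      have e2 : (s : ℝ) ^ 2 ≤ K ^ 2 := by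
        rw [← sq_abs]; exact pow_le_pow_left₀ (abs_nonneg _) hs 2
      have e3 : |(3 * (p.1 : ℝ) ^ 2 + a * s ^ 2)| ≤ (3 + |(a : ℝ)|) * K ^ 2 := by
        refine (abs_add_le _ _).trans ?_
        rw [abs_mul, abs_mul, abs_of_nonneg (sq_nonneg (p.1 : ℝ)),
          abs_of_nonneg (sq_nonneg (s : ℝ)), abs_of_pos (by norm_num : (0 : ℝ) < 3)]
        have := mul_le_mul_of_nonneg_left e2 (abs_nonneg (a : ℝ))
        linarith
      refine e3.trans ?_
      rw [hr, pow_add]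
      apply mul_le_mul
      · refine hr1.le.trans (pow_le_pow_left₀ (by norm_num) (by linarith) r1)
      · have e4 : K ^ 2 ≤ (K ^ ε) ^ r2 := by
          rw [← Real.rpow_natCast, ← Real.rpow_natCast, ← Real.rpow_mul hK0.le]
          apply Real.rpow_le_rpow_of_exponent_le hK
          rw [div_lt_iff₀ hε] at hr2
          norm_num
          linarith
        refine e4.trans (pow_le_pow_left₀ (by positivity) ?_ r2)
        have e5 : K ^ ε ≤ F * K ^ ε := le_mul_of_one_le_left (by positivity) (by linarith)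
        linarith
      · positivity
      · positivity
    have h2 : ((|3 * p.1 ^ 2 + a * s ^ 2| : ℤ) : ℝ) ≤ (((N : ℤ) ^ r : ℤ) : ℝ) := by
      push_cast
      exact h1
    exact_mod_cast h2
  have hmain := bp_count m r (PP_monic _ _) (PP_deg _ _) (hQ.trans (le_max_left 4 m)) hQ1
    (le_max_right 4 m) hno N hN1 S hS hSK hST hK0.le hle hdv
  have h5 : (S.card : ℝ) ≤ (r + 1) * (45 * d * (2 ^ (r + 1) * N)) + 2 * d := by
    exact_mod_cast hmain
  refine h5.trans ?_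
  have h6 : ((r : ℝ) + 1) * (45 * d * (2 ^ (r + 1) * N)) ≤
      (r + 1) * (45 * d * (2 ^ (r + 1) * (2 * y))) := by gcongr
  have h7 : ((r : ℝ) + 1) * (45 * d * (2 ^ (r + 1) * (2 * y))) =
      (r + 1) * (45 * d * (2 ^ (r + 1) * (2 * F))) * (K ^ ε * T ^ (1 / 3 : ℝ)) := by
    rw [hy]; ring
  have h8 : (2 : ℝ) * d ≤ 2 * d * (K ^ ε * T ^ (1 / 3 : ℝ)) :=
    le_mul_of_one_le_right (by positivity) hKT
  calc _ ≤ _ := add_le_add (h6.trans_eq h7) h8
    _ = _ := by ring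

/-- Integer points on `k³ + a s² k + q = Q(t)` off the linear component. -/
theorem line_count (a : ℤ) (ε : ℝ) (hε : 0 < ε) : ∃ C : ℝ, 1 ≤ C ∧
    ∀ (s q : ℤ) (Q : ℤ[X]) (K T : ℝ) (S : Finset (ℤ × ℤ)), s ≠ 0 → |(s : ℝ)| ≤ K → 1 ≤ K →
      1 ≤ T → Q.natDegree ≤ 4 → 1 ≤ Q.natDegree →
      (∀ p ∈ S, (PP (a * s ^ 2) q).eval p.1 = Q.eval p.2) → (∀ p ∈ S, |(p.1 : ℝ)| ≤ K) →
      (∀ p ∈ S, |(p.2 : ℝ)| ≤ T) →
      (∀ c e : ℚ, ((PP (a * s ^ 2) q).map (Int.castRingHom ℚ)).comp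
          (Polynomial.C c * X + Polynomial.C e) =
        Q.map (Int.castRingHom ℚ) → ∀ p ∈ S, (p.1 : ℚ) ≠ c * p.2 + e) →
      (S.card : ℝ) ≤ C * K ^ ε * T ^ (1 / 3 : ℝ) := by
  classical
  obtain ⟨C1, hC1, h1⟩ := line_noroot a ε hε
  obtain ⟨C2, hC2, h2⟩ := rep_count (ε / 2) (by positivity)
  refine ⟨max C1 (C2 * (4 * |(a : ℝ)| + 1) ^ (ε / 2)), hC1.trans (le_max_left _ _), ?_⟩
  intro s q Q K T S hs0 hs hK hT hQ hQ1 hS hSK hST hexc
  have hK0 : (0 : ℝ) < K := by linarith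
  have hKε : (1 : ℝ) ≤ K ^ ε := Real.one_le_rpow hK hε.le
  have hT3 : (1 : ℝ) ≤ T ^ (1 / 3 : ℝ) := Real.one_le_rpow hT (by norm_num)
  by_cases hno : ∀ κ : ℚ[X], ((PP (a * s ^ 2) q).map (Int.castRingHom ℚ)).comp κ ≠
      Q.map (Int.castRingHom ℚ)
  · refine (h1 s q Q K T S hs hK hT hQ hQ1 hS hSK hST hno).trans ?_
    have := le_max_left C1 (C2 * (4 * |(a : ℝ)| + 1) ^ (ε / 2))
    gcongr
  · push Not at hno
    obtain ⟨κ, hκ⟩ := hno
    have hdeg : κ.natDegree = 1 := by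
      have e1 := congrArg natDegree hκ
      rw [natDegree_comp, (PP_monic _ _).natDegree_map, PP_deg,
        natDegree_map_eq_of_injective (RingHom.injective_int _)] at e1
      omega
    obtain ⟨c, e, hce⟩ : ∃ c e : ℚ, κ = Polynomial.C c * X + Polynomial.C e :=
      ⟨_, _, eq_X_add_C_of_natDegree_le_one hdeg.le⟩
    have hc0 : c ≠ 0 := by
      rintro rfl
      rw [hce] at hdeg
      simp at hdeg
    rw [hce] at hκ
    have hex := hexc c e hκ
    have hint : ∀ p ∈ S, ∃ l : ℤ, (l : ℚ) = c * p.2 + e := by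
      intro p hp
      have e1 : (c * (p.2 : ℚ) + e) ^ 3 + ((a * s ^ 2 : ℤ) : ℚ) * (c * (p.2 : ℚ) + e) + q =
          (p.1 : ℚ) ^ 3 + ((a * s ^ 2 : ℤ) : ℚ) * p.1 + q := by
        have e2 := congrArg (eval (p.2 : ℚ)) hκ
        rw [eval_comp, PP_map_eval, eval_add, eval_mul, eval_C, eval_X, eval_C] at e2
        rw [e2]
        have e3 := eval_intCast_map (Int.castRingHom ℚ) Q p.2
        rw [e3, Int.cast_id, ← hS p hp, PP_eval]
        simp
      have e4 : aeval (c * (p.2 : ℚ) + e)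
          (PP (a * s ^ 2) (q - (PP (a * s ^ 2) q).eval p.1)) = 0 := by
        have e5 : aeval (c * (p.2 : ℚ) + e)
            (PP (a * s ^ 2) (q - (PP (a * s ^ 2) q).eval p.1)) =
            (c * (p.2 : ℚ) + e) ^ 3 + ((a * s ^ 2 : ℤ) : ℚ) * (c * (p.2 : ℚ) + e) +
              ((q - (PP (a * s ^ 2) q).eval p.1 : ℤ) : ℚ) := by
          unfold PP
          simp
        rw [e5, PP_eval]
        push_cast at e1 ⊢
        linear_combination e1
      obtain ⟨l, hl, _⟩ := exists_integer_of_is_root_of_monic (PP_monic _ _) e4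
      exact ⟨l, by rw [hl]; simp⟩
    choose! l hl using hint
    have hquad : ∀ p ∈ S, (2 * p.1 + l p) ^ 2 + 3 * (l p) ^ 2 = -4 * a * s ^ 2 := by
      intro p hp
      have e1 : (c * (p.2 : ℚ) + e) ^ 3 + ((a * s ^ 2 : ℤ) : ℚ) * (c * (p.2 : ℚ) + e) + q =
          (p.1 : ℚ) ^ 3 + ((a * s ^ 2 : ℤ) : ℚ) * p.1 + q := by
        have e2 := congrArg (eval (p.2 : ℚ)) hκ
        rw [eval_comp, PP_map_eval, eval_add, eval_mul, eval_C, eval_X, eval_C] at e2
        rw [e2]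
        have e3 := eval_intCast_map (Int.castRingHom ℚ) Q p.2
        rw [e3, Int.cast_id, ← hS p hp, PP_eval]
        simp
      rw [← hl p hp] at e1
      have e2 : (l p) ^ 3 + (a * s ^ 2) * (l p) = p.1 ^ 3 + (a * s ^ 2) * p.1 := by
        have : ((l p : ℤ) : ℚ) ^ 3 + ((a * s ^ 2 : ℤ) : ℚ) * (l p) =
            (p.1 : ℚ) ^ 3 + ((a * s ^ 2 : ℤ) : ℚ) * p.1 := by linarith
        exact_mod_cast this
      have e3 : p.1 - l p ≠ 0 := by
        intro h
        apply hex p hp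
        rw [← hl p hp]
        have : p.1 = l p := by linarith
        exact_mod_cast this
      have e4 : (p.1 - l p) * (p.1 ^ 2 + p.1 * l p + l p ^ 2 + a * s ^ 2) = 0 := by
        linear_combination -e2
      have e5 := (mul_eq_zero.mp e4).resolve_left e3
      linear_combination 4 * e5
    let φ : ℤ × ℤ → ℤ × ℤ := fun p => (2 * p.1 + l p, l p)
    have hφ : Set.InjOn φ S := by
      intro p hp p' hp' hpp
      simp only [φ, Prod.mk.injEq] at hpp
      have e1 : l p = l p' := hpp.2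
      have e2 : p.1 = p'.1 := by
        have := hpp.1
        omega
      have e3 : (p.2 : ℚ) = p'.2 := by
        have e4 := hl p hp
        have e5 := hl p' hp'
        rw [e1, e5] at e4
        have e6 : c * (p'.2 : ℚ) = c * p.2 := by linarith
        exact (mul_left_cancel₀ hc0 e6).symm
      exact Prod.ext e2 (by exact_mod_cast e3)
    have hcard : (S.image φ).card = S.card := Finset.card_image_of_injOn hφ
    have hpos : (0 : ℝ) < (4 * |(a : ℝ)| + 1) ^ (ε / 2) := by positivity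
    have hpos1 : (1 : ℝ) ≤ (4 * |(a : ℝ)| + 1) ^ (ε / 2) := by
      apply Real.one_le_rpow _ (by positivity)
      have := abs_nonneg (a : ℝ)
      linarith
    suffices hsuff : (S.card : ℝ) ≤ C2 * (4 * |(a : ℝ)| + 1) ^ (ε / 2) * K ^ ε by
      have h3 := le_max_right C1 (C2 * (4 * |(a : ℝ)| + 1) ^ (ε / 2))
      calc (S.card : ℝ) ≤ C2 * (4 * |(a : ℝ)| + 1) ^ (ε / 2) * K ^ ε := hsuff
        _ ≤ max C1 (C2 * (4 * |(a : ℝ)| + 1) ^ (ε / 2)) * K ^ ε := by gcongr
        _ ≤ _ := le_mul_of_one_le_right (by positivity) hT3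
    rcases lt_or_ge 0 (-4 * a * s ^ 2) with hM | hM
    · set M := (-4 * a * s ^ 2).toNat with hMd
      have hMz : (M : ℤ) = -4 * a * s ^ 2 := Int.toNat_of_nonneg hM.le
      have hM0 : 0 < M := by
        have : (0 : ℤ) < M := by rw [hMz]; exact hM
        exact_mod_cast this
      have h3 := h2 M hM0 (S.image φ) (by
        intro y hy
        obtain ⟨p, hp, rfl⟩ := Finset.mem_image.mp hy
        rw [hMz]
        exact hquad p hp)
      rw [hcard] at h3
      have hMr : (M : ℝ) ≤ (4 * |(a : ℝ)| + 1) * K ^ 2 := by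
        have e1 : (M : ℝ) = -4 * a * s ^ 2 := by exact_mod_cast congrArg (Int.cast : ℤ → ℝ) hMz
        have e2 : (s : ℝ) ^ 2 ≤ K ^ 2 := by
          rw [← sq_abs]; exact pow_le_pow_left₀ (abs_nonneg _) hs 2
        have e3 : -(a : ℝ) ≤ |(a : ℝ)| := neg_le_abs _
        rw [e1]
        have e4 : -4 * (a : ℝ) * s ^ 2 ≤ (4 * |(a : ℝ)| + 1) * s ^ 2 := by
          nlinarith [sq_nonneg (s : ℝ)]
        have e5 : (4 * |(a : ℝ)| + 1) * (s : ℝ) ^ 2 ≤ (4 * |(a : ℝ)| + 1) * K ^ 2 := by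
          gcongr
        linarith
      have h4 : (M : ℝ) ^ (ε / 2) ≤ ((4 * |(a : ℝ)| + 1) * K ^ 2) ^ (ε / 2) :=
        Real.rpow_le_rpow (by positivity) hMr (by positivity)
      rw [Real.mul_rpow (by positivity) (by positivity), ← Real.rpow_natCast K 2,
        ← Real.rpow_mul hK0.le] at h4
      have h5 : ((2 : ℕ) : ℝ) * (ε / 2) = ε := by push_cast; ring
      rw [h5] at h4
      calc (S.card : ℝ) ≤ C2 * (M : ℝ) ^ (ε / 2) := h3
        _ ≤ C2 * ((4 * |(a : ℝ)| + 1) ^ (ε / 2) * K ^ ε) := by gcongr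
        _ = _ := by ring
    · have hle1 : S.card ≤ 1 := by
        rw [← hcard, Finset.card_le_one]
        intro y hy y' hy'
        have hz : ∀ y ∈ S.image φ, y = (0, 0) := by
          intro y hy
          obtain ⟨p, hp, rfl⟩ := Finset.mem_image.mp hy
          have e1 := hquad p hp
          have e2 : l p = 0 := by nlinarith [sq_nonneg (2 * p.1 + l p), sq_nonneg (l p)]
          have e3 : 2 * p.1 + l p = 0 := by nlinarith [sq_nonneg (2 * p.1 + l p), sq_nonneg (l p)]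
          simp only [φ]
          rw [e3, e2]
        rw [hz y hy, hz y' hy']
      have h3 : (S.card : ℝ) ≤ 1 := by exact_mod_cast hle1
      refine h3.trans ?_
      have h4 : (1 : ℝ) ≤ C2 * (4 * |(a : ℝ)| + 1) ^ (ε / 2) :=
        one_le_mul_of_one_le_of_one_le hC2 hpos1
      exact one_le_mul_of_one_le_of_one_le h4 hKε

end Pool.Agent.KBP
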