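import Pool.Agent.K3N.Fin4
import Pool.Agent.K3H.SchanLow

/-!
Lower bounds for the number of points on the exceptional curves.
-/

namespace Pool.Agent.KBP

open Height

/-- Rational numbers of bounded height. -/
lemma finite_ht (B : ℝ) : {x : ℚ | mulHeight₁ x ≤ B}.Finite :=
  Northcott.finite_le B

/-- Finitely many points of bounded height on the surface. -/
lemma finite_surf (F : ℚ → ℚ → ℚ) (B : ℝ) :
    {p : ℚ × ℚ × ℚ | p.2.2 ^ 2 = F p.1 p.2.1 ∧ p.2.2 ≠ 0 ∧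
      mulHeight₁ p.1 * mulHeight₁ p.2.1 ≤ B}.Finite := by
  classical
  set S := {x : ℚ | mulHeight₁ x ≤ B} with hS
  have hSf : S.Finite := finite_ht B
  have h1 : (S ×ˢ S).Finite := hSf.prod hSf
  have h2 : ((fun q : ℚ × ℚ => F q.1 q.2) '' (S ×ˢ S)).Finite := h1.image _
  have h3 : ((fun w : ℚ => w ^ 2) ⁻¹' ((fun q : ℚ × ℚ => F q.1 q.2) '' (S ×ˢ S))).Finite := by
    apply h2.preimage'
    intro v _
    by_cases hv : ∃ w0 : ℚ, w0 ^ 2 = v
    · obtain ⟨w0, hw0⟩ := hv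
      apply Set.Finite.subset (Set.toFinite {w0, -w0})
      intro w hw
      have : w ^ 2 = w0 ^ 2 := by
        rw [hw0]; exact hw
      rcases sq_eq_sq_iff_eq_or_eq_neg.mp this with h | h
      · exact Or.inl h
      · exact Or.inr h
    · apply Set.Finite.subset (Set.finite_empty (α := ℚ))
      intro w hw
      exact absurd ⟨w, hw⟩ hv
  apply (hSf.prod (hSf.prod h3)).subset
  rintro ⟨x, z, w⟩ ⟨e1, _, e3⟩
  have hx1 := one_le_mulHeight₁ x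
  have hz1 := one_le_mulHeight₁ z
  have hx : x ∈ S := by
    show mulHeight₁ x ≤ B
    simp only at e3
    nlinarith
  have hz : z ∈ S := by
    show mulHeight₁ z ≤ B
    simp only at e3
    nlinarith
  exact ⟨hx, hz, ⟨(x, z), ⟨hx, hz⟩, e1.symm⟩⟩

/-- Points on the graph of a Moebius map, from below. -/
lemma graph_low (F : ℚ → ℚ → ℚ) (R : ℚ → ℚ → Prop) (α β γ δ : ℚ) (bad : Finset ℚ)
    (hγ : ∀ x ∉ bad, γ * x + δ ≠ 0)
    (hR : ∀ x ∉ bad, R x ((α * x + β) / (γ * x + δ)))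
    (hF : ∀ x ∉ bad, ∃ w : ℚ, w ≠ 0 ∧ w ^ 2 = F x ((α * x + β) / (γ * x + δ))) :
    ∃ c B₀ : ℝ, 0 < c ∧ ∀ B : ℝ, B₀ ≤ B →
      c * B ≤ (({p : ℚ × ℚ × ℚ | (p.2.2 ^ 2 = F p.1 p.2.1 ∧ p.2.2 ≠ 0 ∧
        mulHeight₁ p.1 * mulHeight₁ p.2.1 ≤ B) ∧ R p.1 p.2.1}).ncard : ℝ) := by
  classical
  obtain ⟨C, hC, hht⟩ := K3N.ht_moebius α β γ δ
  obtain ⟨c, T0, hc, hT0, hlow⟩ := K3H.count_height2_lower ℚ
  choose! w hw0 hw using hF
  refine ⟨c / (2 * C), max (C * T0 ^ 2) (2 * C * bad.card / c), by positivity, ?_⟩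
  intro B hB
  have hB1 : C * T0 ^ 2 ≤ B := (le_max_left _ _).trans hB
  have hB2 : 2 * C * bad.card / c ≤ B := (le_max_right _ _).trans hB
  have hC0 : 0 < C := by linarith
  have hB0 : 0 ≤ B := le_trans (by positivity) hB1
  set T : ℝ := Real.sqrt (B / C) with hT
  have hTT : T0 ≤ T := by
    apply Real.le_sqrt_of_sq_le
    rw [le_div_iff₀ hC0]
    linarith
  have hT2 : T ^ 2 = B / C := Real.sq_sqrt (by positivity)
  obtain ⟨s, hs1, hs2⟩ := hlow T hTT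
  set f : ℚ → ℚ × ℚ × ℚ := fun x => (x, (α * x + β) / (γ * x + δ), w x) with hf
  have hsub : ((s \ bad).image f : Set (ℚ × ℚ × ℚ)) ⊆
      {p : ℚ × ℚ × ℚ | (p.2.2 ^ 2 = F p.1 p.2.1 ∧ p.2.2 ≠ 0 ∧
        mulHeight₁ p.1 * mulHeight₁ p.2.1 ≤ B) ∧ R p.1 p.2.1} := by
    intro p hp
    obtain ⟨x, hx, rfl⟩ := Finset.mem_image.mp (Finset.mem_coe.mp hp)
    obtain ⟨hx1, hx2⟩ := Finset.mem_sdiff.mp hx
    refine ⟨⟨hw x hx2, hw0 x hx2, ?_⟩, hR x hx2⟩
    have h1 := hht x (hγ x hx2)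
    have h2 := hs1 x hx1
    have h3 := one_le_mulHeight₁ x
    show mulHeight₁ x * mulHeight₁ ((α * x + β) / (γ * x + δ)) ≤ B
    calc mulHeight₁ x * mulHeight₁ ((α * x + β) / (γ * x + δ)) ≤
          mulHeight₁ x * (C * mulHeight₁ x) := by
            apply mul_le_mul_of_nonneg_left h1 (by linarith)
      _ = C * mulHeight₁ x ^ 2 := by ring
      _ ≤ C * T ^ 2 := by
          apply mul_le_mul_of_nonneg_left _ hC0.le
          exact pow_le_pow_left₀ (by linarith) h2 _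
      _ = B := by rw [hT2]; field_simp
  have hfin : ({p : ℚ × ℚ × ℚ | (p.2.2 ^ 2 = F p.1 p.2.1 ∧ p.2.2 ≠ 0 ∧
        mulHeight₁ p.1 * mulHeight₁ p.2.1 ≤ B) ∧ R p.1 p.2.1}).Finite :=
    (finite_surf F B).subset (fun p hp => hp.1)
  have hcard := Set.ncard_le_ncard hsub hfin
  rw [Set.ncard_coe_finset, Finset.card_image_of_injective _ (by
    intro x y hxy
    exact congrArg Prod.fst hxy)] at hcard
  have h1 : (s.card : ℝ) ≤ ((s \ bad).card : ℝ) + bad.card := by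
    have := Finset.card_le_card_sdiff_add_card (s := s) (t := bad)
    exact_mod_cast this
  have h2 : (bad.card : ℝ) ≤ c / (2 * C) * B := by
    rw [div_le_iff₀ hc] at hB2
    rw [div_mul_eq_mul_div, le_div_iff₀ (by positivity)]
    linarith
  have h3 : c * T ^ 2 = 2 * (c / (2 * C) * B) := by
    rw [hT2]; field_simp
  have h4 : ((s \ bad).card : ℝ) ≤ _ := Nat.cast_le.mpr hcard
  linarith

/-- The cubic has finitely many zeros. -/
lemma exists_bad (a b : ℚ) : ∃ bad : Finset ℚ, ∀ x ∉ bad, x ^ 3 + a * x + b ≠ 0 := by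
  classical
  set P : Polynomial ℚ := Polynomial.X ^ 3 + Polynomial.C a * Polynomial.X + Polynomial.C b with hP
  have hP0 : P ≠ 0 := by
    intro h
    have h1 : P.coeff 3 = 0 := by rw [h]; simp
    rw [hP] at h1
    simp at h1
  refine ⟨P.roots.toFinset, ?_⟩
  intro x hx h
  apply hx
  rw [Multiset.mem_toFinset, Polynomial.mem_roots hP0]
  show Polynomial.eval x P = 0
  rw [hP]
  simp [h]

/-- The graph of an isomorphism. -/
lemma iso_low {a b a' b' u : ℚ} (hu : u ≠ 0) (ha : a' = u ^ 4 * a) (hb : b' = u ^ 6 * b) :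
    ∃ c B₀ : ℝ, 0 < c ∧ ∀ B : ℝ, B₀ ≤ B →
      c * B ≤ (({p : ℚ × ℚ × ℚ | (p.2.2 ^ 2 = (p.1 ^ 3 + a * p.1 + b) *
        (p.2.1 ^ 3 + a' * p.2.1 + b') ∧ p.2.2 ≠ 0 ∧ mulHeight₁ p.1 * mulHeight₁ p.2.1 ≤ B) ∧
          p.2.1 = u ^ 2 * p.1}).ncard : ℝ) := by
  obtain ⟨bad, hbad⟩ := exists_bad a b
  refine graph_low (fun x z => (x ^ 3 + a * x + b) * (z ^ 3 + a' * z + b'))
    (fun x z => z = u ^ 2 * x) (u ^ 2) 0 0 1 bad (fun x _ => by simp) (fun x _ => by simp)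
    (fun x hx => ⟨u ^ 3 * (x ^ 3 + a * x + b), mul_ne_zero (pow_ne_zero 3 hu) (hbad x hx), ?_⟩)
  rw [ha, hb]
  simp only [add_zero, zero_mul, zero_add, div_one]
  ring

/-- The graph of an isomorphism followed by a translation by a point of order two. -/
lemma trans_low {a b a' b' u θ : ℚ} (h' : 4 * a' ^ 3 + 27 * b' ^ 2 ≠ 0) (hu : u ≠ 0)
    (ha : a' = u ^ 4 * a) (hb : b' = u ^ 6 * b) (hθ : θ ^ 3 + a' * θ + b' = 0) :
    ∃ c B₀ : ℝ, 0 < c ∧ ∀ B : ℝ, B₀ ≤ B →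
      c * B ≤ (({p : ℚ × ℚ × ℚ | (p.2.2 ^ 2 = (p.1 ^ 3 + a * p.1 + b) *
        (p.2.1 ^ 3 + a' * p.2.1 + b') ∧ p.2.2 ≠ 0 ∧ mulHeight₁ p.1 * mulHeight₁ p.2.1 ≤ B) ∧
          (p.2.1 - θ) * (u ^ 2 * p.1 - θ) = 3 * θ ^ 2 + a'}).ncard : ℝ) := by
  obtain ⟨bad, hbad⟩ := exists_bad a b
  set κ := 3 * θ ^ 2 + a' with hκ
  have hκ0 : κ ≠ 0 := by
    intro h
    apply h'
    have e1 : a' = -3 * θ ^ 2 := by linear_combination h - hκ
    have e2 : b' = 2 * θ ^ 3 := by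
      rw [e1] at hθ
      linear_combination hθ
    rw [e1, e2]
    ring
  have hX : ∀ x ∉ bad, u ^ 2 * x + -θ ≠ 0 := by
    intro x hx h
    apply hbad x hx
    have e1 : u ^ 2 * x = θ := by linear_combination h
    have e2 : u ^ 6 * (x ^ 3 + a * x + b) = 0 := by
      have : u ^ 6 * (x ^ 3 + a * x + b) = (u ^ 2 * x) ^ 3 + a' * (u ^ 2 * x) + b' := by
        rw [ha, hb]; ring
      rw [this, e1, hθ]
    rcases mul_eq_zero.mp e2 with h3 | h3
    · exact absurd h3 (pow_ne_zero 6 hu)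
    · exact h3
  refine graph_low (fun x z => (x ^ 3 + a * x + b) * (z ^ 3 + a' * z + b'))
    (fun x z => (z - θ) * (u ^ 2 * x - θ) = κ) (θ * u ^ 2) (κ - θ ^ 2) (u ^ 2) (-θ) bad hX
    (fun x hx => ?_) (fun x hx => ?_)
  · have h1 := hX x hx
    rw [div_sub' h1, div_mul_eq_mul_div, div_eq_iff h1]
    ring
  · have h1 := hX x hx
    refine ⟨u ^ 3 * κ * (x ^ 3 + a * x + b) / (u ^ 2 * x + -θ) ^ 2, ?_, ?_⟩
    · exact div_ne_zero (mul_ne_zero (mul_ne_zero (pow_ne_zero 3 hu) hκ0) (hbad x hx))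
        (pow_ne_zero 2 h1)
    · set X := u ^ 2 * x + -θ with hXd
      have e1 : (θ * u ^ 2 * x + (κ - θ ^ 2)) / X = θ + κ / X := by
        field_simp
        rw [hXd]
        ring
      rw [e1]
      have hb2 : b' = -θ ^ 3 - a' * θ := by linear_combination hθ
      have e2 : u ^ 6 * (x ^ 3 + a * x + b) = X ^ 3 + 3 * θ * X ^ 2 + κ * X := by
        have : u ^ 6 * (x ^ 3 + a * x + b) = (u ^ 2 * x) ^ 3 + a' * (u ^ 2 * x) + b' := by
          rw [ha, hb]; ring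
        rw [this, hb2, hκ, hXd]
        ring
      have e3 : (θ + κ / X) ^ 3 + a' * (θ + κ / X) + b' =
          κ ^ 2 * (X ^ 3 + 3 * θ * X ^ 2 + κ * X) / X ^ 4 := by
        rw [hb2]
        field_simp
        rw [hκ]
        ring
      rw [e3, ← e2]
      field_simp

/-- Points on the graph of a Moebius map, from above. -/
lemma graph_up (F : ℚ → ℚ → ℚ) (R : ℚ → ℚ → Prop) (m : ℚ → ℚ) (C : ℝ) (hC : 1 ≤ C)
    (hR : ∀ x z w : ℚ, w ^ 2 = F x z → w ≠ 0 → R x z → z = m x ∧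
      mulHeight₁ x ≤ C * mulHeight₁ z) :
    ∃ C' : ℝ, ∀ B : ℝ, 1 ≤ B →
      (({p : ℚ × ℚ × ℚ | (p.2.2 ^ 2 = F p.1 p.2.1 ∧ p.2.2 ≠ 0 ∧
        mulHeight₁ p.1 * mulHeight₁ p.2.1 ≤ B) ∧ R p.1 p.2.1}).ncard : ℝ) ≤ C' * B := by
  classical
  refine ⟨18 * C, fun B hB => ?_⟩
  set S := {p : ℚ × ℚ × ℚ | (p.2.2 ^ 2 = F p.1 p.2.1 ∧ p.2.2 ≠ 0 ∧
        mulHeight₁ p.1 * mulHeight₁ p.2.1 ≤ B) ∧ R p.1 p.2.1} with hS
  have hfin : S.Finite := (finite_surf F B).subset (fun p hp => hp.1)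
  rw [Set.ncard_eq_toFinset_card S hfin]
  set s := hfin.toFinset with hs
  have hmem : ∀ p ∈ s, p ∈ S := fun p hp => by simpa [hs] using hp
  have h1 : s.card ≤ 2 * (s.image (fun p => p.1)).card := by
    apply Finset.card_le_mul_card_image
    intro x _
    by_cases hne : (s.filter (fun p => p.1 = x)).Nonempty
    · obtain ⟨⟨x0, z0, w0⟩, hp0⟩ := hne
      obtain ⟨hp1, hp2⟩ := Finset.mem_filter.mp hp0
      obtain ⟨⟨e1, e2, _⟩, e4⟩ := hmem _ hp1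
      simp only at hp2 e1 e2 e4
      subst hp2
      have g0 := hR _ _ _ e1 e2 e4
      have hsub : s.filter (fun p => p.1 = x0) ⊆ {(x0, z0, w0), (x0, z0, -w0)} := by
        rintro ⟨x, z, w⟩ hp
        obtain ⟨hp1, hp2⟩ := Finset.mem_filter.mp hp
        obtain ⟨⟨f1, f2, _⟩, f4⟩ := hmem _ hp1
        simp only at hp2 f1 f2 f4
        subst hp2
        have g1 := hR _ _ _ f1 f2 f4
        have hz : z = z0 := by rw [g1.1, g0.1]
        subst hz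
        have : w ^ 2 = w0 ^ 2 := by rw [f1, e1]
        rcases sq_eq_sq_iff_eq_or_eq_neg.mp this with h | h
        · rw [h]; simp
        · rw [h]; simp
      exact (Finset.card_le_card hsub).trans Finset.card_le_two
    · rw [Finset.not_nonempty_iff_eq_empty] at hne
      rw [hne]
      simp
  have hCB : 1 ≤ C * B := by nlinarith
  have h2 : ((s.image (fun p => p.1)).card : ℝ) ≤ 9 * (Real.sqrt (C * B)) ^ 2 := by
    apply K3N.card_le_of_ht (Real.one_le_sqrt.mpr hCB)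
    intro x hx
    obtain ⟨⟨x, z, w⟩, hp, rfl⟩ := Finset.mem_image.mp hx
    obtain ⟨⟨f1, f2, f3⟩, f4⟩ := hmem _ hp
    simp only at f1 f2 f3 f4 ⊢
    have g1 := (hR _ _ _ f1 f2 f4).2
    have hx1 := one_le_mulHeight₁ x
    have hz1 := one_le_mulHeight₁ z
    apply Real.le_sqrt_of_sq_le
    calc mulHeight₁ x ^ 2 = mulHeight₁ x * mulHeight₁ x := by ring
      _ ≤ mulHeight₁ x * (C * mulHeight₁ z) := mul_le_mul_of_nonneg_left g1 (by linarith)
      _ = C * (mulHeight₁ x * mulHeight₁ z) := by ring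
      _ ≤ C * B := mul_le_mul_of_nonneg_left f3 (by linarith)
  rw [Real.sq_sqrt (by linarith)] at h2
  have h3 : (s.card : ℝ) ≤ 2 * ((s.image (fun p => p.1)).card : ℝ) := by exact_mod_cast h1
  linarith

/-- The graph of an isomorphism, from above. -/
lemma iso_up {a b a' b' u : ℚ} (hu : u ≠ 0) :
    ∃ C : ℝ, ∀ B : ℝ, 1 ≤ B →
      (({p : ℚ × ℚ × ℚ | (p.2.2 ^ 2 = (p.1 ^ 3 + a * p.1 + b) *
        (p.2.1 ^ 3 + a' * p.2.1 + b') ∧ p.2.2 ≠ 0 ∧ mulHeight₁ p.1 * mulHeight₁ p.2.1 ≤ B) ∧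
          p.2.1 = u ^ 2 * p.1}).ncard : ℝ) ≤ C * B := by
  obtain ⟨C, hC, hht⟩ := K3N.ht_affine (u ^ 2)⁻¹ 0
  refine graph_up (fun x z => (x ^ 3 + a * x + b) * (z ^ 3 + a' * z + b'))
    (fun x z => z = u ^ 2 * x) (fun x => u ^ 2 * x) C hC (fun x z w _ _ h => ⟨h, ?_⟩)
  have h1 := hht z
  have h2 : (u ^ 2)⁻¹ * z + 0 = x := by
    rw [h, add_zero, inv_mul_cancel_left₀ (pow_ne_zero 2 hu)]
  rwa [h2] at h1

/-- The graph of an isomorphism followed by a translation, from above. -/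
lemma trans_up {a b a' b' u θ : ℚ} (h' : 4 * a' ^ 3 + 27 * b' ^ 2 ≠ 0) (hu : u ≠ 0)
    (hθ : θ ^ 3 + a' * θ + b' = 0) :
    ∃ C : ℝ, ∀ B : ℝ, 1 ≤ B →
      (({p : ℚ × ℚ × ℚ | (p.2.2 ^ 2 = (p.1 ^ 3 + a * p.1 + b) *
        (p.2.1 ^ 3 + a' * p.2.1 + b') ∧ p.2.2 ≠ 0 ∧ mulHeight₁ p.1 * mulHeight₁ p.2.1 ≤ B) ∧
          (p.2.1 - θ) * (u ^ 2 * p.1 - θ) = 3 * θ ^ 2 + a'}).ncard : ℝ) ≤ C * B := by
  set κ := 3 * θ ^ 2 + a' with hκ
  have hκ0 : κ ≠ 0 := by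
    intro h
    apply h'
    have e1 : a' = -3 * θ ^ 2 := by linear_combination h - hκ
    have e2 : b' = 2 * θ ^ 3 := by
      rw [e1] at hθ
      linear_combination hθ
    rw [e1, e2]
    ring
  obtain ⟨C, hC, hht⟩ := K3N.ht_moebius θ (κ - θ ^ 2) (u ^ 2) (-(u ^ 2 * θ))
  refine graph_up (fun x z => (x ^ 3 + a * x + b) * (z ^ 3 + a' * z + b'))
    (fun x z => (z - θ) * (u ^ 2 * x - θ) = κ) (fun x => θ + κ / (u ^ 2 * x - θ)) C hC
    (fun x z w _ _ h => ?_)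
  have h1 : u ^ 2 * x - θ ≠ 0 := by
    intro h0
    rw [h0, mul_zero] at h
    exact hκ0 h.symm
  have h2 : z - θ ≠ 0 := by
    intro h0
    rw [h0, zero_mul] at h
    exact hκ0 h.symm
  refine ⟨?_, ?_⟩
  · have : κ / (u ^ 2 * x - θ) = z - θ := by rw [← h]; field_simp
    simp only [this]
    ring
  · have h3 : u ^ 2 * z + -(u ^ 2 * θ) ≠ 0 := by
      have : u ^ 2 * z + -(u ^ 2 * θ) = u ^ 2 * (z - θ) := by ring
      rw [this]
      exact mul_ne_zero (pow_ne_zero 2 hu) h2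
    have h4 := hht z h3
    have h5 : (θ * z + (κ - θ ^ 2)) / (u ^ 2 * z + -(u ^ 2 * θ)) = x := by
      rw [div_eq_iff h3, ← h]
      ring
    rwa [h5] at h4

/-- Uniqueness of the exceptional twist factor. -/
lemma tw_unique {a b a' b' u v : ℚ} (h : 4 * a ^ 3 + 27 * b ^ 2 ≠ 0) (hua : a' = u ^ 4 * a)
    (hub : b' = u ^ 6 * b) (hva : a' = v ^ 4 * a) (hvb : b' = v ^ 6 * b) : u ^ 2 = v ^ 2 := by
  by_cases ha : a = 0
  · have hb : b ≠ 0 := by
      intro hb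
      apply h
      rw [ha, hb]
      ring
    have h1 : (u ^ 2) ^ 3 = (v ^ 2) ^ 3 := by
      apply mul_right_cancel₀ hb
      linear_combination hvb - hub
    exact (pow_left_inj₀ (sq_nonneg u) (sq_nonneg v) (by norm_num)).mp h1
  · have h1 : (u ^ 2) ^ 2 = (v ^ 2) ^ 2 := by
      apply mul_right_cancel₀ ha
      linear_combination hva - hua
    rcases sq_eq_sq_iff_eq_or_eq_neg.mp h1 with h2 | h2
    · exact h2
    · nlinarith [sq_nonneg u, sq_nonneg v]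

end Pool.Agent.KBP
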