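import Pool.Agent.KBP.SqB

/-!
The main part of the count in a box.
-/

namespace Pool.Agent.KBP

open Polynomial Finset Pool.Agent.K3N Height

/-- Pairs with bounded product. -/
lemma pairs_count (ε : ℝ) (hε : 0 < ε) : ∃ C : ℝ, 1 ≤ C ∧ ∀ α : ℕ, 1 ≤ α →
    ((((Icc 1 α ×ˢ Icc 1 α).filter (fun c => c.1 * c.2 ≤ α)).card : ℕ) : ℝ) ≤
      C * (α : ℝ) ^ ε * α := by
  classical
  obtain ⟨C, hC1, hC⟩ := card_divisors_le ε hε
  refine ⟨C, hC1, ?_⟩
  intro α hα
  have hαr : (0 : ℝ) < α := by exact_mod_cast hα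
  have h1 := card_le_sum_of_exists ((Icc 1 α ×ˢ Icc 1 α).filter (fun c => c.1 * c.2 ≤ α))
    (Icc 1 α) (fun A c => c.1 * c.2 = A) (by
      intro c hc
      rw [mem_filter, mem_product, mem_Icc, mem_Icc] at hc
      refine ⟨c.1 * c.2, ?_, rfl⟩
      rw [mem_Icc]
      exact ⟨Nat.mul_pos hc.1.1.1 hc.1.2.1, hc.2⟩) (fun _ => C * (α : ℝ) ^ ε) (by
      intro A hA
      rw [mem_Icc] at hA
      have hA0 : A ≠ 0 := by omega
      have h2 : ((((Icc 1 α ×ˢ Icc 1 α).filter (fun c => c.1 * c.2 ≤ α)).filter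
          (fun c => c.1 * c.2 = A)).card) ≤ A.divisors.card := by
        apply card_le_card_of_injOn Prod.fst
        · intro c hc
          rw [mem_coe, mem_filter] at hc
          rw [mem_coe, Nat.mem_divisors]
          exact ⟨⟨c.2, hc.2.symm⟩, hA0⟩
        · intro c hc c' hc' h
          rw [mem_coe, mem_filter, mem_filter, mem_product, mem_Icc, mem_Icc] at hc hc'
          refine Prod.ext h ?_
          have h3 := hc.2.trans hc'.2.symm
          rw [← h] at h3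
          exact Nat.eq_of_mul_eq_mul_left (by omega) h3
      have h3 := hC A hA0
      have h4 : (A : ℝ) ^ ε ≤ (α : ℝ) ^ ε :=
        Real.rpow_le_rpow (by positivity) (by exact_mod_cast hA.2) hε.le
      calc _ ≤ (A.divisors.card : ℝ) := by exact_mod_cast h2
        _ ≤ C * (A : ℝ) ^ ε := h3
        _ ≤ _ := by gcongr)
  rw [sum_const, nsmul_eq_mul, Nat.card_Icc] at h1
  refine h1.trans (le_of_eq ?_)
  rw [Nat.add_sub_cancel]
  ring

/-- The main part of the count in a box. -/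
theorem main_box (a b a' b' : ℤ) (hΔ' : 4 * a' ^ 3 + 27 * b' ^ 2 ≠ 0) (ε : ℝ) (hε : 0 < ε) :
    ∃ C : ℝ, 1 ≤ C ∧ ∀ (H X Y : ℝ) (α α' : ℕ) (S : Finset (ℚ × ℚ)), 1 ≤ X → 1 ≤ Y → X ≤ H →
      Y ≤ H → (α : ℝ) ≤ H → (α' : ℝ) ≤ H → 1 ≤ α → 1 ≤ α' →
      (∀ q ∈ S, mulHeight₁ q.1 ≤ X ∧ mulHeight₁ q.2 ≤ Y ∧ nn a b q.1 ≠ 0 ∧ nn a' b' q.2 ≠ 0 ∧
        (∃ y : ℤ, nn a b q.1 * nn a' b' q.2 = y ^ 2) ∧ K3N.sq (nn a b q.1).natAbs ≤ α ∧
        K3N.sq (nn a' b' q.2).natAbs ≤ α' ∧ ¬ OnG a b a' b' q.1 q.2) →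
      (S.card : ℝ) ≤ C * H ^ ε * (α * (X * α' + X ^ (1 / 3 : ℝ) * Y ^ (4 / 3 : ℝ))) := by
  classical
  set ε1 : ℝ := ε / 6 with hε1
  have hε10 : 0 < ε1 := by positivity
  set ε2 : ℝ := min (ε / 2) 1 with hε2
  have hε20 : 0 < ε2 := lt_min (by positivity) one_pos
  have hε21 : ε2 ≤ 1 := min_le_right _ _
  have hε22 : ε2 ≤ ε / 2 := min_le_left _ _
  obtain ⟨C1, hC1, h1⟩ := fix_count a b a' b' hΔ' ε1 hε10
  obtain ⟨Cp, hCp1, hCp⟩ := pairs_count ε1 hε10
  refine ⟨C1 * Cp * (3 / ε2), ?_, ?_⟩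
  · have g1 : (1 : ℝ) ≤ 3 / ε2 := by
      rw [le_div_iff₀ hε20]; linarith
    exact one_le_mul_of_one_le_of_one_le (one_le_mul_of_one_le_of_one_le hC1 hCp1) g1
  intro H X Y α α' S hX hY hXH hYH hαH hα'H hα hα' hS
  have hX0 : (0 : ℝ) < X := by linarith
  have hY0 : (0 : ℝ) < Y := by linarith
  have hH1 : (1 : ℝ) ≤ H := by linarith
  have hH0 : (0 : ℝ) < H := by linarith
  set P := (Icc 1 α ×ˢ Icc 1 α).filter (fun c : ℕ × ℕ => c.1 * c.2 ≤ α) with hP
  set J : Finset (ℕ × ((ℕ × ℕ) × ℕ)) := Icc 1 ⌊X⌋₊ ×ˢ (P ×ˢ Icc 1 α') with hJ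
  have hcount := card_le_sum_of_exists S J
    (fun j q => sf q.1.den = j.1 ∧ K3N.sq q.1.den = j.2.1.1 ∧
      K3N.sq (fs a b q.1.num q.1.den).natAbs = j.2.1.2 ∧ K3N.sq (nn a' b' q.2).natAbs = j.2.2)
    (by
      intro q hq
      obtain ⟨k1, k2, k3, k4, k5, k6, k7, k8⟩ := hS q hq
      refine ⟨(sf q.1.den, ((K3N.sq q.1.den, K3N.sq (fs a b q.1.num q.1.den).natAbs),
        K3N.sq (nn a' b' q.2).natAbs)), ?_, rfl, rfl, rfl, rfl⟩
      have hden0 : q.1.den ≠ 0 := q.1.den_nz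
      have hfs0 : fs a b q.1.num q.1.den ≠ 0 := by
        intro h0
        apply k3
        unfold nn GG
        rw [h0, mul_zero]
      have hcop : Nat.Coprime q.1.den (fs a b q.1.num q.1.den).natAbs := by
        have g1 : IsCoprime (q.1.den : ℤ) (fs a b q.1.num q.1.den) := by
          have g2 : IsCoprime (q.1.den : ℤ) (q.1.num ^ 3) :=
            (Rat.isCoprime_num_den q.1).symm.pow_right
          have g3 := IsCoprime.add_mul_left_right g2
            (a * q.1.num * (q.1.den : ℤ) + b * (q.1.den : ℤ) ^ 2)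
          have e : q.1.num ^ 3 + (q.1.den : ℤ) * (a * q.1.num * (q.1.den : ℤ) +
              b * (q.1.den : ℤ) ^ 2) = fs a b q.1.num q.1.den := by
            unfold fs; ring
          rwa [e] at g3
        have g4 := Int.isCoprime_iff_gcd_eq_one.mp g1
        exact g4
      have hsq := (sqsf_mul hden0 (Int.natAbs_ne_zero.mpr hfs0) hcop).1
      have hnn : (nn a b q.1).natAbs = q.1.den * (fs a b q.1.num q.1.den).natAbs := by
        unfold nn GG
        rw [Int.natAbs_mul, Int.natAbs_natCast]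
      rw [hJ, hP, mem_product, mem_product, mem_filter, mem_product, mem_Icc, mem_Icc, mem_Icc,
        mem_Icc]
      simp only
      have p1 : 0 < K3N.sq q.1.den := Nat.pos_of_ne_zero (K3N.sq_ne_zero hden0)
      have p2 : 0 < K3N.sq (fs a b q.1.num q.1.den).natAbs :=
        Nat.pos_of_ne_zero (K3N.sq_ne_zero (Int.natAbs_ne_zero.mpr hfs0))
      have p3 : 0 < K3N.sq (nn a' b' q.2).natAbs :=
        Nat.pos_of_ne_zero (K3N.sq_ne_zero (Int.natAbs_ne_zero.mpr k4))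
      have p4 : K3N.sq q.1.den * K3N.sq (fs a b q.1.num q.1.den).natAbs ≤ α := by
        rw [← hsq, ← hnn]; exact k6
      refine ⟨⟨sf_pos _, ?_⟩, ⟨⟨⟨p1, ?_⟩, ⟨p2, ?_⟩⟩, p4⟩, p3, k7⟩
      · apply Nat.le_floor
        have g1 : (sf q.1.den : ℝ) ≤ q.1.den := by
          exact_mod_cast Nat.le_of_dvd q.1.den_pos (sf_dvd _)
        have g2 : (q.1.den : ℝ) ≤ X := by
          rw [ht_eq] at k1
          have := (le_max_right _ _).trans k1
          push_cast at this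
          rwa [Nat.abs_cast] at this
        linarith
      · exact (Nat.le_mul_of_pos_right _ p2).trans p4
      · exact (Nat.le_mul_of_pos_left _ p1).trans p4)
    (fun j => C1 * (X * Y) ^ ε1 * (1 + Y ^ (4 / 3 : ℝ) *
      ((j.1 : ℝ) ^ ((1 / 3 : ℝ) - 1) * (j.2.2 : ℝ) ^ (ε2 - 1)))) (by
      intro j hj
      rw [hJ, hP, mem_product, mem_product, mem_filter, mem_product, mem_Icc, mem_Icc, mem_Icc,
        mem_Icc] at hj
      obtain ⟨⟨j1, j2⟩, ⟨⟨⟨j3, j4⟩, ⟨j5, j6⟩⟩, j7⟩, j8, j9⟩ := hj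
      obtain ⟨d, ⟨a0, a1⟩, A'⟩ := j
      simp only at j1 j2 j3 j4 j5 j6 j7 j8 j9 ⊢
      set T := S.filter (fun q => sf q.1.den = d ∧ K3N.sq q.1.den = a0 ∧
        K3N.sq (fs a b q.1.num q.1.den).natAbs = a1 ∧ K3N.sq (nn a' b' q.2).natAbs = A') with hT
      have hden : ∀ q ∈ T, q.1.den = a0 ^ 2 * d := by
        intro q hq
        rw [hT, mem_filter] at hq
        rw [← hq.2.1, ← hq.2.2.1]
        exact (sq_sf _).symm
      let φ : ℚ × ℚ → ℤ × (ℤ × ℤ) := fun q => (q.1.num, (q.2.num, (q.2.den : ℤ)))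
      have hφ : Set.InjOn φ T := by
        intro q hq q' hq' h
        simp only [φ, Prod.mk.injEq] at h
        refine Prod.ext (Rat.ext h.1 ?_) (Rat.ext h.2.1 (by exact_mod_cast h.2.2))
        rw [hden q hq, hden q' hq']
      have hcard : (T.image φ).card = T.card := card_image_of_injOn hφ
      rcases T.eq_empty_or_nonempty with he | ⟨q0, hq0⟩
      · rw [he, card_empty]
        push_cast
        positivity
      have hsX : ((a0 ^ 2 * d : ℕ) : ℝ) ≤ X := by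
        rw [← hden q0 hq0]
        have k1 := (hS q0 (mem_filter.mp (hT ▸ hq0)).1).1
        rw [ht_eq] at k1
        have := (le_max_right _ _).trans k1
        push_cast at this
        rwa [Nat.abs_cast] at this
      have hfix := h1 X Y (a0 ^ 2 * d) (d * A' ^ 2) a1 ((A' : ℚ) / (a0 * a1)) (T.image φ) hX hY
        (by positivity) hsX (by positivity) (by positivity) (by
          have e1 : (a0 : ℚ) ≠ 0 := by exact_mod_cast (by omega : a0 ≠ 0)
          have e2 : (a1 : ℚ) ≠ 0 := by exact_mod_cast (by omega : a1 ≠ 0)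
          push_cast
          field_simp) (by
          intro y hy
          obtain ⟨q, hq, rfl⟩ := mem_image.mp hy
          have hq' := hq
          rw [hT, mem_filter] at hq'
          obtain ⟨hqS, q1, q2, q3, q4⟩ := hq'
          obtain ⟨k1, k2, k3, k4, ⟨yy, k5⟩, k6, k7, k8⟩ := hS q hqS
          have hdq := hden q hq
          have hden0 : q.1.den ≠ 0 := q.1.den_nz
          have hfs0 : fs a b q.1.num q.1.den ≠ 0 := by
            intro h0
            apply k3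
            unfold nn GG
            rw [h0, mul_zero]
          have hcop : Nat.Coprime q.1.den (fs a b q.1.num q.1.den).natAbs := by
            have g1 : IsCoprime (q.1.den : ℤ) (fs a b q.1.num q.1.den) := by
              have g2 : IsCoprime (q.1.den : ℤ) (q.1.num ^ 3) :=
                (Rat.isCoprime_num_den q.1).symm.pow_right
              have g3 := IsCoprime.add_mul_left_right g2
                (a * q.1.num * (q.1.den : ℤ) + b * (q.1.den : ℤ) ^ 2)
              have e : q.1.num ^ 3 + (q.1.den : ℤ) * (a * q.1.num * (q.1.den : ℤ) +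
                  b * (q.1.den : ℤ) ^ 2) = fs a b q.1.num q.1.den := by
                unfold fs; ring
              rwa [e] at g3
            exact Int.isCoprime_iff_gcd_eq_one.mp g1
          obtain ⟨hsq, hsf⟩ := sqsf_mul hden0 (Int.natAbs_ne_zero.mpr hfs0) hcop
          have hnn : (nn a b q.1).natAbs = q.1.den * (fs a b q.1.num q.1.den).natAbs := by
            unfold nn GG
            rw [Int.natAbs_mul, Int.natAbs_natCast]
          rw [← hnn] at hsq hsf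
          obtain ⟨r1, r2⟩ := sq_rel k3 k4 k5
          rw [q4, hsq, q2, q3] at r2
          rw [hsf, q1] at r1
          have hnnz : nn a b q.1 = (q.1.den : ℤ) * fs a b q.1.num q.1.den := rfl
          have hGG : GG a' b' q.2.num q.2.den = nn a' b' q.2 := rfl
          rw [ht_eq] at k1 k2
          simp only [φ]
          have e0 : (a0 : ℤ) ≠ 0 := by exact_mod_cast (by omega : a0 ≠ 0)
          refine ⟨?_, k4, ?_, Rat.isCoprime_num_den _, (le_max_left _ _).trans k1,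
            (le_max_left _ _).trans k2, (le_max_right _ _).trans k2, ?_⟩
          · rw [← hdq, hGG]
            rw [hnnz, hdq] at r2
            rw [hdq]
            push_cast at r2 ⊢
            have e1 : (a0 : ℤ) ^ 2 * ((d : ℤ) * A' ^ 2 * fs a b q.1.num (a0 ^ 2 * d)) =
                a0 ^ 2 * (a1 ^ 2 * nn a' b' q.2) := by
              linear_combination r2
            exact mul_left_cancel₀ (pow_ne_zero 2 e0) e1
          · rw [hGG, Int.natCast_dvd]
            have e1 := sq_sf (nn a' b' q.2).natAbs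
            rw [q4, ← r1] at e1
            exact ⟨sf (fs a b q.1.num q.1.den).natAbs, by rw [← e1]; ring⟩
          · rw [← hdq]
            have e1 : (q.1.num : ℚ) / ((q.1.den : ℕ) : ℚ) = q.1 := Rat.num_div_den q.1
            have e2 : (q.2.num : ℚ) / (((q.2.den : ℕ) : ℤ) : ℚ) = q.2 := by
              rw [Int.cast_natCast]
              exact Rat.num_div_den q.2
            rw [e1, e2]
            exact k8)
      rw [hcard] at hfix
      refine hfix.trans ?_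
      apply mul_le_mul_of_nonneg_left _ (by positivity)
      apply add_le_add_right
      apply mul_le_mul_of_nonneg_left _ (by positivity)
      have hdr : (0 : ℝ) < d := by exact_mod_cast j1
      have hAr : (1 : ℝ) ≤ A' := by exact_mod_cast j8
      push_cast
      rw [Real.mul_rpow hdr.le (by positivity), ← Real.rpow_natCast (A' : ℝ) 2,
        ← Real.rpow_mul (by positivity)]
      apply mul_le_mul
      · apply le_of_eq
        congr 1
        norm_num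
      · apply Real.rpow_le_rpow_of_exponent_le hAr
        push_cast
        linarith
      · positivity
      · positivity)
  refine hcount.trans ?_
  -- the sum
  have hsum : ∑ j ∈ J, C1 * (X * Y) ^ ε1 * (1 + Y ^ (4 / 3 : ℝ) *
      ((j.1 : ℝ) ^ ((1 / 3 : ℝ) - 1) * (j.2.2 : ℝ) ^ (ε2 - 1))) =
      C1 * (X * Y) ^ ε1 * ((J.card : ℝ) + Y ^ (4 / 3 : ℝ) *
        ((∑ d ∈ Icc 1 ⌊X⌋₊, (d : ℝ) ^ ((1 / 3 : ℝ) - 1)) *
          ((P.card : ℝ) * ∑ A' ∈ Icc 1 α', (A' : ℝ) ^ (ε2 - 1)))) := by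
    rw [← mul_sum, sum_add_distrib, ← mul_sum]
    congr 2
    · rw [sum_const, nsmul_eq_mul, mul_one]
    · congr 1
      rw [hJ, sum_product, sum_mul]
      apply sum_congr rfl
      intro d _
      rw [sum_product]
      simp only [← mul_sum]
      rw [sum_const, nsmul_eq_mul]
  rw [hsum]
  have hJc : (J.card : ℝ) ≤ X * ((P.card : ℝ) * α') := by
    rw [hJ, card_product, card_product, Nat.card_Icc, Nat.card_Icc, Nat.add_sub_cancel,
      Nat.add_sub_cancel]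
    push_cast
    have := Nat.floor_le hX0.le
    gcongr
  have hdc : ∑ d ∈ Icc 1 ⌊X⌋₊, (d : ℝ) ^ ((1 / 3 : ℝ) - 1) ≤ 3 * X ^ (1 / 3 : ℝ) := by
    have g1 := sum_rpow_le (1 / 3) (by norm_num) (by norm_num) ⌊X⌋₊
    have g2 : ((⌊X⌋₊ : ℕ) : ℝ) ^ (1 / 3 : ℝ) ≤ X ^ (1 / 3 : ℝ) :=
      Real.rpow_le_rpow (by positivity) (Nat.floor_le hX0.le) (by norm_num)
    have g3 : ((⌊X⌋₊ : ℕ) : ℝ) ^ (1 / 3 : ℝ) / (1 / 3) = 3 * ((⌊X⌋₊ : ℕ) : ℝ) ^ (1 / 3 : ℝ) := by
      ring
    rw [g3] at g1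
    linarith
  have hAc : ∑ A' ∈ Icc 1 α', (A' : ℝ) ^ (ε2 - 1) ≤ H ^ (ε / 2) / ε2 := by
    refine (sum_rpow_le ε2 hε20 hε21 α').trans ?_
    apply div_le_div_of_nonneg_right _ hε20.le
    calc (α' : ℝ) ^ ε2 ≤ H ^ ε2 := Real.rpow_le_rpow (by positivity) hα'H hε20.le
      _ ≤ H ^ (ε / 2) := Real.rpow_le_rpow_of_exponent_le hH1 hε22
  have hPc : (P.card : ℝ) ≤ Cp * H ^ ε1 * α := by
    refine (hCp α hα).trans ?_
    have : (α : ℝ) ^ ε1 ≤ H ^ ε1 := Real.rpow_le_rpow (by positivity) hαH hε10.le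
    gcongr
  have hXY : (X * Y) ^ ε1 ≤ H ^ ε1 * H ^ ε1 := by
    rw [Real.mul_rpow hX0.le hY0.le]
    have e1 : X ^ ε1 ≤ H ^ ε1 := Real.rpow_le_rpow hX0.le hXH hε10.le
    have e2 : Y ^ ε1 ≤ H ^ ε1 := Real.rpow_le_rpow hY0.le hYH hε10.le
    gcongr
  have hHh : 1 ≤ H ^ (ε / 2) := Real.one_le_rpow hH1 (by positivity)
  have hHsplit : H ^ ε = H ^ ε1 * H ^ ε1 * H ^ ε1 * H ^ (ε / 2) := by
    rw [← Real.rpow_add hH0, ← Real.rpow_add hH0, ← Real.rpow_add hH0]
    congr 1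
    rw [hε1]; ring
  have h3 : (1 : ℝ) ≤ 3 / ε2 := by
    rw [le_div_iff₀ hε20]; linarith
  have hin : (J.card : ℝ) + Y ^ (4 / 3 : ℝ) *
        ((∑ d ∈ Icc 1 ⌊X⌋₊, (d : ℝ) ^ ((1 / 3 : ℝ) - 1)) *
          ((P.card : ℝ) * ∑ A' ∈ Icc 1 α', (A' : ℝ) ^ (ε2 - 1))) ≤
      Cp * (3 / ε2) * (H ^ ε1 * H ^ (ε / 2)) *
        (α * (X * α' + X ^ (1 / 3 : ℝ) * Y ^ (4 / 3 : ℝ))) := by
    have k1 : (J.card : ℝ) ≤ Cp * (3 / ε2) * (H ^ ε1 * H ^ (ε / 2)) * (α * (X * α')) := by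
      calc (J.card : ℝ) ≤ X * ((P.card : ℝ) * α') := hJc
        _ ≤ X * ((Cp * H ^ ε1 * α) * α') := by gcongr
        _ = (Cp * H ^ ε1 * (α * (X * α'))) * (1 * 1) := by ring
        _ ≤ (Cp * H ^ ε1 * (α * (X * α'))) * ((3 / ε2) * H ^ (ε / 2)) := by
            apply mul_le_mul_of_nonneg_left _ (by positivity)
            exact mul_le_mul h3 hHh (by norm_num) (by positivity)
        _ = _ := by ring
    have hsA : 0 ≤ ∑ A' ∈ Icc 1 α', (A' : ℝ) ^ (ε2 - 1) :=
      sum_nonneg (fun _ _ => by positivity)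
    have hsd : 0 ≤ ∑ d ∈ Icc 1 ⌊X⌋₊, (d : ℝ) ^ ((1 / 3 : ℝ) - 1) :=
      sum_nonneg (fun _ _ => by positivity)
    have k2 : Y ^ (4 / 3 : ℝ) *
        ((∑ d ∈ Icc 1 ⌊X⌋₊, (d : ℝ) ^ ((1 / 3 : ℝ) - 1)) *
          ((P.card : ℝ) * ∑ A' ∈ Icc 1 α', (A' : ℝ) ^ (ε2 - 1))) ≤
        Cp * (3 / ε2) * (H ^ ε1 * H ^ (ε / 2)) *
          (α * (X ^ (1 / 3 : ℝ) * Y ^ (4 / 3 : ℝ))) := by
      calc _ ≤ Y ^ (4 / 3 : ℝ) * ((3 * X ^ (1 / 3 : ℝ)) *
            ((Cp * H ^ ε1 * α) * (H ^ (ε / 2) / ε2))) := by gcongr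
        _ = _ := by ring
    calc _ ≤ _ := add_le_add k1 k2
      _ = _ := by ring
  calc C1 * (X * Y) ^ ε1 * ((J.card : ℝ) + Y ^ (4 / 3 : ℝ) *
        ((∑ d ∈ Icc 1 ⌊X⌋₊, (d : ℝ) ^ ((1 / 3 : ℝ) - 1)) *
          ((P.card : ℝ) * ∑ A' ∈ Icc 1 α', (A' : ℝ) ^ (ε2 - 1)))) ≤
        C1 * (H ^ ε1 * H ^ ε1) * (Cp * (3 / ε2) * (H ^ ε1 * H ^ (ε / 2)) *
        (α * (X * α' + X ^ (1 / 3 : ℝ) * Y ^ (4 / 3 : ℝ)))) := by
        apply mul_le_mul (mul_le_mul_of_nonneg_left hXY (by linarith)) hin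
        · apply add_nonneg (Nat.cast_nonneg _)
          apply mul_nonneg (by positivity)
          apply mul_nonneg (sum_nonneg (fun _ _ => by positivity))
          exact mul_nonneg (Nat.cast_nonneg _) (sum_nonneg (fun _ _ => by positivity))
        · positivity
    _ = _ := by rw [hHsplit]; ring

end Pool.Agent.KBP
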