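import Pool.Agent.KBP.Cls

/-!
The exceptional graphs.
-/

namespace Pool.Agent.KBP

open Polynomial Finset

/-- The quartic form `Y (X³ + a X Y² + b Y³)`. -/
def qf (a b X Y : ℚ) : ℚ := Y * (X ^ 3 + a * X * Y ^ 2 + b * Y ^ 3)

/-- `z = (α x + β) / (γ x + δ)` for a substitution carrying one quartic form to a square times
the other. -/
def OnG (a b a' b' x z : ℚ) : Prop :=
  ∃ α β γ δ c : ℚ, c ≠ 0 ∧ α * δ - β * γ ≠ 0 ∧
    (∀ X Y : ℚ, qf a' b' (α * X + β * Y) (γ * X + δ * Y) = c ^ 2 * qf a b X Y) ∧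
    z * (γ * x + δ) = α * x + β

lemma OnG.symm {a b a' b' x z : ℚ} (h : OnG a b a' b' x z) : OnG a' b' a b z x := by
  obtain ⟨α, β, γ, δ, c, hc, hd, hG, hz⟩ := h
  set Δ := α * δ - β * γ with hΔ
  refine ⟨δ / Δ, -β / Δ, -γ / Δ, α / Δ, 1 / c, by positivity, ?_, ?_, ?_⟩
  · have e : δ / Δ * (α / Δ) - -β / Δ * (-γ / Δ) = Δ / (Δ * Δ) := by
      have e0 : δ / Δ * (α / Δ) - -β / Δ * (-γ / Δ) = (α * δ - β * γ) / (Δ * Δ) := by
        field_simp
      rw [e0]
    rw [e]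
    exact div_ne_zero hd (mul_ne_zero hd hd)
  · intro X Y
    have h1 := hG (δ / Δ * X + -β / Δ * Y) (-γ / Δ * X + α / Δ * Y)
    have e1 : α * (δ / Δ * X + -β / Δ * Y) + β * (-γ / Δ * X + α / Δ * Y) = X := by
      have : α * (δ / Δ * X + -β / Δ * Y) + β * (-γ / Δ * X + α / Δ * Y) = (Δ / Δ) * X := by
        rw [hΔ]; field_simp; ring
      rw [this, div_self hd, one_mul]
    have e2 : γ * (δ / Δ * X + -β / Δ * Y) + δ * (-γ / Δ * X + α / Δ * Y) = Y := by
      have : γ * (δ / Δ * X + -β / Δ * Y) + δ * (-γ / Δ * X + α / Δ * Y) = (Δ / Δ) * Y := by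
        rw [hΔ]; field_simp; ring
      rw [this, div_self hd, one_mul]
    rw [e1, e2] at h1
    rw [h1]
    field_simp
  · have : x * (-γ / Δ * z + α / Δ) - (δ / Δ * z + -β / Δ) =
        -(z * (γ * x + δ) - (α * x + β)) / Δ := by ring
    have h2 : z * (γ * x + δ) - (α * x + β) = 0 := by linarith
    rw [h2] at this
    simp at this
    linarith

lemma fd5 (a b a' b' c α β γ δ X : ℚ) (F : ℚ → ℚ)
    (hF : ∀ Y, F Y = qf a' b' (α * X + β * Y) (γ * X + δ * Y) - c * qf a b X Y) :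
    F 0 = 5 * F 1 - 10 * F 2 + 10 * F 3 - 5 * F 4 + F 5 := by
  rw [hF, hF, hF, hF, hF, hF]
  unfold qf
  ring

/-- The linear component of a line gives a graph. -/
lemma onG_of_line {a b a' b' : ℚ} {s N a1 c' c e u0 v0 b1 b2 : ℚ} (hs : s ≠ 0) (hN : N ≠ 0)
    (ha1 : a1 ≠ 0) (hNc : N = c' ^ 2 * a1 ^ 2 * s) (hc : c ≠ 0) (hm : b1 * v0 - b2 * u0 ≠ 0)
    (hI : ∀ τ : ℚ, N * ((c * τ + e) ^ 3 + a * (c * τ + e) * s ^ 2 + b * s ^ 3) =
      a1 ^ 2 * qf a' b' (u0 + τ * b1) (v0 + τ * b2)) (t : ℚ) (hv : v0 + t * b2 ≠ 0) :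
    OnG a b a' b' ((c * t + e) / s) ((u0 + t * b1) / (v0 + t * b2)) := by
  have hc'0 : c' ≠ 0 := by
    rintro rfl
    apply hN
    rw [hNc]; ring
  set α := b1 / c with hα
  set β := u0 / s - e * b1 / (c * s) with hβ
  set γ := b2 / c with hγ
  set δ := v0 / s - e * b2 / (c * s) with hδ
  have hne : ∀ X Y : ℚ, Y ≠ 0 →
      qf a' b' (α * X + β * Y) (γ * X + δ * Y) = c' ^ 2 * qf a b X Y := by
    intro X Y hY
    set x := Y / s with hx
    have hx0 : x ≠ 0 := div_ne_zero hY hs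
    set τ := (X - e * x) / c / x with hτ
    have h1 := hI τ
    have e1 : α * X + β * Y = x * (u0 + τ * b1) := by
      rw [hα, hβ, hτ, hx]; field_simp; ring
    have e2 : γ * X + δ * Y = x * (v0 + τ * b2) := by
      rw [hγ, hδ, hτ, hx]; field_simp; ring
    have e3 : c * τ + e = X / x := by
      rw [hτ]; field_simp; ring
    have e4 : qf a' b' (x * (u0 + τ * b1)) (x * (v0 + τ * b2)) =
        x ^ 4 * qf a' b' (u0 + τ * b1) (v0 + τ * b2) := by
      unfold qf; ring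
    rw [e1, e2, e4]
    rw [e3] at h1
    have e5 : a1 ^ 2 * (x ^ 4 * qf a' b' (u0 + τ * b1) (v0 + τ * b2)) =
        a1 ^ 2 * (c' ^ 2 * qf a b X Y) := by
      have : a1 ^ 2 * (x ^ 4 * qf a' b' (u0 + τ * b1) (v0 + τ * b2)) =
          x ^ 4 * (a1 ^ 2 * qf a' b' (u0 + τ * b1) (v0 + τ * b2)) := by ring
      rw [this, ← h1, hNc]
      have hYx : Y = s * x := by rw [hx]; field_simp
      rw [hYx]
      unfold qf
      field_simp
    exact mul_left_cancel₀ (pow_ne_zero 2 ha1) e5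
  refine ⟨α, β, γ, δ, c', hc'0, ?_, ?_, ?_⟩
  · have e1 : α * δ - β * γ = (b1 * v0 - b2 * u0) / (c * s) := by
      rw [hα, hβ, hγ, hδ]; field_simp; ring
    rw [e1]
    exact div_ne_zero hm (mul_ne_zero hc hs)
  · intro X Y
    by_cases hY : Y = 0
    · subst hY
      have h1 := fd5 a b a' b' (c' ^ 2) α β γ δ X
        (fun Y => qf a' b' (α * X + β * Y) (γ * X + δ * Y) - c' ^ 2 * qf a b X Y) (fun _ => rfl)
      rw [hne X 1 (by norm_num), hne X 2 (by norm_num), hne X 3 (by norm_num),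
        hne X 4 (by norm_num), hne X 5 (by norm_num)] at h1
      linarith
    · exact hne X Y hY
  · have e1 : γ * ((c * t + e) / s) + δ = (v0 + t * b2) / s := by
      rw [hγ, hδ]; field_simp; ring
    have e2 : α * ((c * t + e) / s) + β = (u0 + t * b1) / s := by
      rw [hα, hβ]; field_simp; ring
    rw [e1, e2]
    field_simp

end Pool.Agent.KBP
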