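import Pool.Agent.KBP.Roots

/-!
Representations by `x² + 3 y²`.
-/

namespace Pool.Agent.KBP

open Polynomial Finset Pool.Agent.K3N

/-- The polynomial `λ² + 3`. -/
noncomputable def g3 : ℤ[X] := X ^ 2 + C 3

lemma g3_monic : g3.Monic := by unfold g3; monicity!

lemma g3_deg : g3.natDegree = 2 := by unfold g3; compute_degree!

lemma g3_disc : (C 2 : ℤ[X]) * g3 + (-X) * derivative g3 = C ((6 : ℕ) : ℤ) := by
  unfold g3
  rw [derivative_add, derivative_C, derivative_X_pow, add_zero]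
  have e1 : (C ((6 : ℕ) : ℤ) : ℤ[X]) = 6 := by simp
  have e2 : (C 2 : ℤ[X]) = 2 := by simp
  have e3 : (C 3 : ℤ[X]) = 3 := by simp
  rw [e1, e2, e3]
  push_cast
  simp only [C_ofNat]
  ring

lemma eq_or_neg {M x1 y1 x2 y2 : ℤ} (hM : M ≠ 0) (h1 : x1 ^ 2 + 3 * y1 ^ 2 = M)
    (h2 : x2 ^ 2 + 3 * y2 ^ 2 = M) (h : x1 * y2 = x2 * y1) :
    (x1 = x2 ∧ y1 = y2) ∨ (x1 = -x2 ∧ y1 = -y2) := by
  have hy : y1 ^ 2 = y2 ^ 2 := by
    have : M * y1 ^ 2 = M * y2 ^ 2 := by
      linear_combination (-(y1 ^ 2)) * h2 + y2 ^ 2 * h1 - (x1 * y2 + x2 * y1) * h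
    exact mul_left_cancel₀ hM this
  have hx : x1 ^ 2 = x2 ^ 2 := by linear_combination h1 - h2 - 3 * hy
  rcases sq_eq_sq_iff_eq_or_eq_neg.mp hx with hx' | hx' <;>
    rcases sq_eq_sq_iff_eq_or_eq_neg.mp hy with hy' | hy'
  · exact Or.inl ⟨hx', hy'⟩
  · rw [hx', hy'] at h
    have h3 : x2 * y2 = 0 := by linarith
    rcases mul_eq_zero.mp h3 with h4 | h4
    · right
      exact ⟨by rw [hx', h4, neg_zero], hy'⟩
    · left
      exact ⟨hx', by rw [hy', h4, neg_zero]⟩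
  · rw [hx', hy'] at h
    have h3 : x2 * y2 = 0 := by linarith
    rcases mul_eq_zero.mp h3 with h4 | h4
    · left
      exact ⟨by rw [hx', h4, neg_zero], hy'⟩
    · right
      exact ⟨hx', by rw [hy', h4, neg_zero]⟩
  · exact Or.inr ⟨hx', hy'⟩

lemma prim_rep (M : ℕ) (hM : 0 < M) (S : Finset (ℤ × ℤ))
    (hS : ∀ p ∈ S, p.1 ^ 2 + 3 * p.2 ^ 2 = (M : ℤ)) (hc : ∀ p ∈ S, IsCoprime p.1 p.2) :
    S.card ≤ 72 * M.divisors.card ^ 2 := by
  classical
  have hMz : (M : ℤ) ≠ 0 := by exact_mod_cast hM.ne'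
  have hcop : ∀ p ∈ S, ∃ v : ℤ, (M : ℤ) ∣ p.2 * v - 1 := by
    intro p hp
    have h1 : IsCoprime p.2 (M : ℤ) := by
      rw [← hS p hp]
      have h2 : IsCoprime p.2 (p.1 ^ 2) := ((hc p hp).symm).pow_right
      have h3 := IsCoprime.add_mul_left_right h2 (3 * p.2)
      have e : p.1 ^ 2 + p.2 * (3 * p.2) = p.1 ^ 2 + 3 * p.2 ^ 2 := by ring
      rwa [e] at h3
    obtain ⟨a, b, hab⟩ := h1
    exact ⟨a, ⟨-b, by linear_combination hab⟩⟩
  choose! v hv using hcop
  let f : ℤ × ℤ → ℕ := fun p => ((p.1 * v p) % (M : ℤ)).toNat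
  have hfz : ∀ p, ((f p : ℕ) : ℤ) = (p.1 * v p) % (M : ℤ) := by
    intro p
    exact Int.toNat_of_nonneg (Int.emod_nonneg _ hMz)
  have hfd : ∀ p, (M : ℤ) ∣ p.1 * v p - (f p : ℕ) := by
    intro p
    rw [hfz]
    exact Int.dvd_self_sub_emod
  have h1 : S.card ≤ 2 * (S.image f).card := by
    apply Finset.card_le_mul_card_image
    intro u _
    rcases (S.filter (fun p => f p = u)).eq_empty_or_nonempty with he | ⟨p0, hp0⟩
    · rw [he]; simp
    · have hsub : S.filter (fun p => f p = u) ⊆ {p0, (-p0.1, -p0.2)} := by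
        intro p hp
        rw [Finset.mem_filter] at hp hp0
        have hB : (M : ℤ) ∣ p.1 * p0.2 - p0.1 * p.2 := by
          obtain ⟨a, ha⟩ := hv p hp.1
          obtain ⟨b, hb⟩ := hv p0 hp0.1
          obtain ⟨c, hc⟩ := hfd p
          obtain ⟨d, hd⟩ := hfd p0
          rw [hp.2] at hc
          rw [hp0.2] at hd
          refine ⟨p0.2 * p.2 * c - p0.2 * p.1 * a - p0.2 * p.2 * d + p.2 * p0.1 * b, ?_⟩
          linear_combination (-(p0.2 * p.1)) * ha + p0.2 * p.2 * hc - p0.2 * p.2 * hd +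
            p.2 * p0.1 * hb
        have hB0 : p.1 * p0.2 - p0.1 * p.2 = 0 := by
          apply Int.eq_zero_of_abs_lt_dvd hB
          have e1 := hS p hp.1
          have e2 := hS p0 hp0.1
          have e3 : (p.1 * p0.1 + 3 * p.2 * p0.2) ^ 2 + 3 * (p.1 * p0.2 - p0.1 * p.2) ^ 2 =
              (M : ℤ) ^ 2 := by
            have : (M : ℤ) ^ 2 = (p.1 ^ 2 + 3 * p.2 ^ 2) * (p0.1 ^ 2 + 3 * p0.2 ^ 2) := by
              rw [e1, e2]; ring
            rw [this]; ring
          have hMpos : (0 : ℤ) < M := by exact_mod_cast hM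
          apply abs_lt_of_sq_lt_sq _ hMpos.le
          nlinarith [sq_nonneg (p.1 * p0.1 + 3 * p.2 * p0.2),
            sq_nonneg (p.1 * p0.2 - p0.1 * p.2)]
        rw [Finset.mem_insert, Finset.mem_singleton]
        rcases eq_or_neg hMz (hS p hp.1) (hS p0 hp0.1) (sub_eq_zero.mp hB0) with h | h
        · exact Or.inl (Prod.ext h.1 h.2)
        · exact Or.inr (Prod.ext h.1 h.2)
      exact (Finset.card_le_card hsub).trans Finset.card_le_two
  have h2 : (S.image f).card ≤ M.divisors.card ^ 2 * (6 * 6) := by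
    refine le_trans (Finset.card_le_card ?_)
      (roots_count' g3_monic (by rw [g3_deg]; norm_num) (by norm_num) g3_disc M hM)
    intro u hu
    obtain ⟨p, hp, rfl⟩ := Finset.mem_image.mp hu
    rw [Finset.mem_filter, mem_range]
    constructor
    · have h3 : ((f p : ℕ) : ℤ) < M := by
        rw [hfz]
        exact Int.emod_lt_of_pos _ (by exact_mod_cast hM)
      exact_mod_cast h3
    · obtain ⟨a, ha⟩ := hv p hp
      obtain ⟨c, hc⟩ := hfd p
      have e1 := hS p hp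
      have hev : g3.eval ((f p : ℕ) : ℤ) = ((f p : ℕ) : ℤ) ^ 2 + 3 := by
        unfold g3; simp
      rw [hev]
      set F : ℤ := ((f p : ℕ) : ℤ) with hF
      have e2 : F = p.1 * v p - M * c := by linear_combination -hc
      -- v² M = v² x² + 3 v² y²
      refine ⟨v p ^ 2 - 2 * (p.1 * v p) * c + M * c ^ 2 - 3 * (p.2 * v p + 1) * a, ?_⟩
      rw [e2]
      linear_combination (-(v p ^ 2)) * (-1) * e1 - 3 * (p.2 * v p + 1) * ha
  omega

theorem rep_count (ε : ℝ) (hε : 0 < ε) : ∃ C : ℝ, 1 ≤ C ∧ ∀ (M : ℕ), 0 < M →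
    ∀ (S : Finset (ℤ × ℤ)), (∀ p ∈ S, p.1 ^ 2 + 3 * p.2 ^ 2 = (M : ℤ)) →
      (S.card : ℝ) ≤ C * (M : ℝ) ^ ε := by
  classical
  obtain ⟨C, hC, h⟩ := card_divisors_le (ε / 3) (by positivity)
  refine ⟨72 * C ^ 3, by nlinarith [one_le_pow₀ hC (n := 3)], ?_⟩
  intro M hM S hS
  have h1 : S.card ≤ 72 * M.divisors.card ^ 2 * M.divisors.card := by
    have h2 : S.card ≤ 72 * M.divisors.card ^ 2 * (S.image (fun p => Int.gcd p.1 p.2)).card := by
      apply Finset.card_le_mul_card_image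
      intro g hg
      obtain ⟨p0, hp0, hgp⟩ := Finset.mem_image.mp hg
      have hg0 : 0 < g := by
        rw [← hgp, Nat.pos_iff_ne_zero]
        intro h0
        rw [Int.gcd_eq_zero_iff] at h0
        have := hS p0 hp0
        rw [h0.1, h0.2] at this
        simp at this
        omega
      have hgz : (g : ℤ) ≠ 0 := by exact_mod_cast hg0.ne'
      set S' := S.filter (fun p => Int.gcd p.1 p.2 = g) with hS'
      have hmem : ∀ p ∈ S', ∃ a b : ℤ, p.1 = a * g ∧ p.2 = b * g ∧ IsCoprime a b := by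
        intro p hp
        rw [hS', Finset.mem_filter] at hp
        have hpos : 0 < Int.gcd p.1 p.2 := by rw [hp.2]; exact hg0
        obtain ⟨a, b, hab, ha, hb⟩ := Int.exists_gcd_one hpos
        rw [hp.2] at ha hb
        exact ⟨a, b, ha, hb, Int.isCoprime_iff_gcd_eq_one.mpr hab⟩
      have hp0' : p0 ∈ S' := by
        rw [hS', Finset.mem_filter]
        exact ⟨hp0, hgp⟩
      obtain ⟨a0, b0, ha0, hb0, hab0⟩ := hmem p0 hp0'
      have hM1 : (M : ℤ) = g ^ 2 * (a0 ^ 2 + 3 * b0 ^ 2) := by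
        rw [← hS p0 hp0, ha0, hb0]; ring
      have hM1' : M = g ^ 2 * (a0 ^ 2 + 3 * b0 ^ 2).natAbs := by
        have h3 : ((a0 ^ 2 + 3 * b0 ^ 2).natAbs : ℤ) = a0 ^ 2 + 3 * b0 ^ 2 :=
          Int.natAbs_of_nonneg (by positivity)
        have h4 : (M : ℤ) = ((g ^ 2 * (a0 ^ 2 + 3 * b0 ^ 2).natAbs : ℕ) : ℤ) := by
          push_cast [h3]
          rw [hM1]
        exact_mod_cast h4
      set M1 := (a0 ^ 2 + 3 * b0 ^ 2).natAbs with hM1d
      have hM1pos : 0 < M1 := by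
        rcases Nat.eq_zero_or_pos M1 with h | h
        · rw [h, mul_zero] at hM1'; omega
        · exact h
      have hM1z : (M1 : ℤ) * g ^ 2 = M := by
        rw [hM1']; push_cast; ring
      let φ : ℤ × ℤ → ℤ × ℤ := fun p => (p.1 / g, p.2 / g)
      have hφ : ∀ p ∈ S', p.1 = (φ p).1 * g ∧ p.2 = (φ p).2 * g ∧ IsCoprime (φ p).1 (φ p).2 := by
        intro p hp
        obtain ⟨a, b, ha, hb, hab⟩ := hmem p hp
        have e1 : p.1 / g = a := by rw [ha]; exact Int.mul_ediv_cancel _ hgz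
        have e2 : p.2 / g = b := by rw [hb]; exact Int.mul_ediv_cancel _ hgz
        simp only [φ]
        rw [e1, e2]
        exact ⟨ha, hb, hab⟩
      have hcard : (S'.image φ).card = S'.card := by
        apply Finset.card_image_of_injOn
        intro p hp p' hp' hpp
        obtain ⟨e1, e2, _⟩ := hφ p hp
        obtain ⟨e3, e4, _⟩ := hφ p' hp'
        exact Prod.ext (by rw [e1, e3, hpp]) (by rw [e2, e4, hpp])
      rw [← hcard]
      refine (prim_rep M1 hM1pos (S'.image φ) ?_ ?_).trans ?_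
      · intro y hy
        obtain ⟨p, hp, rfl⟩ := Finset.mem_image.mp hy
        obtain ⟨e1, e2, _⟩ := hφ p hp
        have e3 := hS p (Finset.mem_filter.mp (hS' ▸ hp)).1
        rw [e1, e2, ← hM1z] at e3
        have e4 : ((φ p).1 ^ 2 + 3 * (φ p).2 ^ 2) * (g : ℤ) ^ 2 = M1 * g ^ 2 := by
          rw [← e3]; ring
        exact mul_right_cancel₀ (pow_ne_zero 2 hgz) e4
      · intro y hy
        obtain ⟨p, hp, rfl⟩ := Finset.mem_image.mp hy
        exact (hφ p hp).2.2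
      · apply Nat.mul_le_mul_left
        apply Nat.pow_le_pow_left
        apply Finset.card_le_card
        exact Nat.divisors_subset_of_dvd hM.ne' ⟨g ^ 2, by rw [hM1']; ring⟩
    refine h2.trans (Nat.mul_le_mul_left _ (Finset.card_le_card ?_))
    intro g hg
    obtain ⟨p, hp, rfl⟩ := Finset.mem_image.mp hg
    rw [Nat.mem_divisors]
    refine ⟨?_, hM.ne'⟩
    rw [← Int.natCast_dvd_natCast, ← hS p hp]
    have e1 : (Int.gcd p.1 p.2 : ℤ) ∣ p.1 := Int.gcd_dvd_left ..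
    have e2 : (Int.gcd p.1 p.2 : ℤ) ∣ p.2 := Int.gcd_dvd_right ..
    exact dvd_add (e1.trans (dvd_pow_self _ two_ne_zero))
      ((e2.trans (dvd_pow_self _ two_ne_zero)).mul_left _)
  have h3 := h M hM.ne'
  have hMr : (0 : ℝ) < M := by exact_mod_cast hM
  have h4 : (S.card : ℝ) ≤ 72 * (M.divisors.card : ℝ) ^ 3 := by
    have : (S.card : ℝ) ≤ ((72 * M.divisors.card ^ 2 * M.divisors.card : ℕ) : ℝ) := by
      exact_mod_cast h1
    push_cast at this
    nlinarith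
  have h5 : (M.divisors.card : ℝ) ^ 3 ≤ (C * (M : ℝ) ^ (ε / 3)) ^ 3 :=
    pow_le_pow_left₀ (by positivity) h3 3
  have h6 : (C * (M : ℝ) ^ (ε / 3)) ^ 3 = C ^ 3 * (M : ℝ) ^ ε := by
    rw [mul_pow, ← Real.rpow_natCast ((M : ℝ) ^ (ε / 3)) 3, ← Real.rpow_mul hMr.le]
    congr 2
    push_cast
    ring
  rw [h6] at h5
  linarith

end Pool.Agent.KBP
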