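import Pool.Agent.KBP.AuxPoly
import Mathlib.RingTheory.Polynomial.Resultant.Basic
import Mathlib.Algebra.Polynomial.SpecificDegree
import Mathlib.RingTheory.IntegralClosure.IntegrallyClosed
import Mathlib.RingTheory.Polynomial.Content

/-!
Common zeros of the curve `P(k) = Q(t)` and an auxiliary polynomial of degree at most two in `k`.
-/

namespace Pool.Agent.KBP

open Polynomial Finset

/-- The curve `P(k) - Q(t)`, as a polynomial in `k` over `ℚ[t]`. -/
noncomputable def FF (P Q : ℚ[X]) : (ℚ[X])[X] := P.map C - C Q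

/-- The auxiliary polynomial. -/
noncomputable def AA (m : ℕ) (c : Fin (3 * (m + 1)) → ℚ) : (ℚ[X])[X] :=
  ∑ i, C (C (c i) * X ^ eb m i) * X ^ ea m i

lemma AA_coeff (m : ℕ) (c : Fin (3 * (m + 1)) → ℚ) (a : ℕ) :
    (AA m c).coeff a = ∑ i, if a = ea m i then C (c i) * X ^ eb m i else 0 := by
  unfold AA
  rw [finsetSum_coeff]
  apply Finset.sum_congr rfl
  intro i _
  rw [coeff_C_mul, coeff_X_pow]
  split_ifs <;> simp

lemma AA_ne_zero {m : ℕ} {c : Fin (3 * (m + 1)) → ℚ} (hc : c ≠ 0) : AA m c ≠ 0 := by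
  intro h
  apply hc
  funext i
  have h1 : ((AA m c).coeff (ea m i)).coeff (eb m i) = 0 := by rw [h]; simp
  rw [AA_coeff, finsetSum_coeff] at h1
  rw [Finset.sum_eq_single i] at h1
  · simpa using h1
  · intro j _ hj
    split_ifs with ha
    · rw [coeff_C_mul, coeff_X_pow, if_neg, mul_zero]
      intro hb
      exact hj (eab_inj m ha hb).symm
    · simp
  · simp

lemma AA_natDegree_le (m : ℕ) (c : Fin (3 * (m + 1)) → ℚ) : (AA m c).natDegree ≤ 2 := by
  rw [natDegree_le_iff_coeff_eq_zero]
  intro N hN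
  rw [AA_coeff]
  apply Finset.sum_eq_zero
  intro i _
  rw [if_neg]
  have := ea_le m i
  omega

lemma AA_coeff_natDegree (m : ℕ) (c : Fin (3 * (m + 1)) → ℚ) (a : ℕ) :
    ((AA m c).coeff a).natDegree ≤ m := by
  rw [AA_coeff]
  apply natDegree_sum_le_of_forall_le
  intro i _
  split_ifs
  · exact (natDegree_C_mul_X_pow_le _ _).trans (eb_le m i)
  · simp

lemma AA_eval (m : ℕ) (c : Fin (3 * (m + 1)) → ℚ) (k t : ℚ) :
    ((AA m c).eval (C k)).eval t = ∑ i, c i * (k ^ ea m i * t ^ eb m i) := by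
  unfold AA
  rw [eval_finsetSum, eval_finsetSum]
  apply Finset.sum_congr rfl
  intro i _
  simp only [eval_mul, eval_C, eval_pow, eval_X]
  ring

lemma FF_eval (P Q : ℚ[X]) (k t : ℚ) : ((FF P Q).eval (C k)).eval t = P.eval k - Q.eval t := by
  unfold FF
  rw [eval_sub, eval_C, eval_sub]
  congr 1
  rw [eval_map]
  induction P using Polynomial.induction_on' with
  | add p q hp hq => rw [eval₂_add, eval_add, eval_add, hp, hq]
  | monomial n a => simp [eval₂_monomial]

lemma FF_monic {P Q : ℚ[X]} (hP : P.Monic) (hd : P.natDegree = 3) :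
    (FF P Q).Monic ∧ (FF P Q).natDegree = 3 := by
  have h1 : (P.map (C : ℚ →+* ℚ[X])).Monic := hP.map _
  have h2 : (P.map (C : ℚ →+* ℚ[X])).natDegree = 3 := by
    rw [hP.natDegree_map, hd]
  have h3 : (C Q : (ℚ[X])[X]).degree < (P.map (C : ℚ →+* ℚ[X])).degree := by
    rw [degree_eq_natDegree h1.ne_zero, h2]
    exact lt_of_le_of_lt degree_C_le (by norm_num)
  constructor
  · exact h1.sub_of_left h3
  · unfold FF
    rw [natDegree_sub_eq_left_of_natDegree_lt, h2]
    rw [h2, natDegree_C]
    norm_num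

lemma irr_FF {P Q : ℚ[X]} (hP : P.Monic) (hd : P.natDegree = 3)
    (hno : ∀ κ : ℚ[X], P.comp κ ≠ Q) :
    Irreducible ((FF P Q).map (algebraMap ℚ[X] (FractionRing ℚ[X]))) := by
  obtain ⟨hm, hdeg⟩ := FF_monic (Q := Q) hP hd
  have hm' : ((FF P Q).map (algebraMap ℚ[X] (FractionRing ℚ[X]))).Monic := hm.map _
  have hd' : ((FF P Q).map (algebraMap ℚ[X] (FractionRing ℚ[X]))).natDegree = 3 := by
    rw [hm.natDegree_map, hdeg]
  rw [hm'.irreducible_iff_roots_eq_zero_of_degree_le_three (by rw [hd']; norm_num)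
    (by rw [hd'])]
  rw [Multiset.eq_zero_iff_forall_notMem]
  intro y hy
  rw [mem_roots hm'.ne_zero, IsRoot.def, eval_map] at hy
  have hint : IsIntegral ℚ[X] y := ⟨FF P Q, hm, hy⟩
  obtain ⟨κ, hκ⟩ := IsIntegrallyClosed.isIntegral_iff.mp hint
  rw [← hκ] at hy
  have h1 : algebraMap ℚ[X] (FractionRing ℚ[X]) ((FF P Q).eval κ) = 0 := by
    rw [← hy, ← eval₂_at_apply]
  have h2 : (FF P Q).eval κ = 0 := by
    have := FaithfulSMul.algebraMap_injective ℚ[X] (FractionRing ℚ[X])
    exact this (by rw [h1, map_zero])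
  apply hno κ
  unfold FF at h2
  rw [eval_sub, eval_C, eval_map] at h2
  have h3 : P.comp κ = eval₂ C κ P := rfl
  rw [h3]
  exact sub_eq_zero.mp h2

lemma natDegree_det_le {s : ℕ} (M : Matrix (Fin s) (Fin s) ℚ[X]) (d : ℕ)
    (h : ∀ i j, (M i j).natDegree ≤ d) : M.det.natDegree ≤ s * d := by
  rw [Matrix.det_apply]
  apply natDegree_sum_le_of_forall_le
  intro σ _
  have h1 : (∏ i, M (σ i) i).natDegree ≤ s * d := by
    refine (natDegree_prod_le _ _).trans ?_
    calc _ ≤ ∑ _i : Fin s, d := Finset.sum_le_sum (fun i _ => h _ _)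
      _ = s * d := by simp
  rcases Int.units_eq_one_or (Equiv.Perm.sign σ) with hs | hs
  · rw [hs, one_smul]
    exact h1
  · rw [hs]
    simp only [Units.neg_smul, one_smul, natDegree_neg]
    exact h1

/-- Number of common zeros. -/
lemma common_zeros {P Q : ℚ[X]} (hP : P.Monic) (hd : P.natDegree = 3)
    (hno : ∀ κ : ℚ[X], P.comp κ ≠ Q) {m : ℕ} {c : Fin (3 * (m + 1)) → ℚ} (hc : c ≠ 0)
    {d : ℕ} (hQ : Q.natDegree ≤ d) (hmd : m ≤ d) (S : Finset (ℚ × ℚ))
    (h1 : ∀ p ∈ S, P.eval p.1 = Q.eval p.2)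
    (h2 : ∀ p ∈ S, ∑ i, c i * (p.1 ^ ea m i * p.2 ^ eb m i) = 0) : S.card ≤ 15 * d := by
  classical
  obtain ⟨hm, hdeg⟩ := FF_monic (Q := Q) hP hd
  have hirr := irr_FF hP hd hno
  have hA0 : AA m c ≠ 0 := AA_ne_zero hc
  have hinj := FaithfulSMul.algebraMap_injective ℚ[X] (FractionRing ℚ[X])
  have hcop : IsCoprime ((FF P Q).map (algebraMap ℚ[X] (FractionRing ℚ[X])))
      ((AA m c).map (algebraMap ℚ[X] (FractionRing ℚ[X]))) := by
    rw [hirr.coprime_iff_not_dvd]
    intro hdvd
    have h0 : (AA m c).map (algebraMap ℚ[X] (FractionRing ℚ[X])) ≠ 0 :=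
      (Polynomial.map_ne_zero_iff hinj).mpr hA0
    have h3 := natDegree_le_of_dvd hdvd h0
    rw [hm.natDegree_map, hdeg, natDegree_map_eq_of_injective hinj] at h3
    have := AA_natDegree_le m c
    omega
  set R := resultant (FF P Q) (AA m c) with hR
  have hR0 : R ≠ 0 := by
    intro h0
    have h3 := resultant_ne_zero _ _ hcop
    rw [hm.natDegree_map, natDegree_map_eq_of_injective hinj, resultant_map_map] at h3
    rw [← hR, h0, map_zero] at h3
    exact h3 rfl
  have hRd : R.natDegree ≤ 5 * d := by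
    have h3 : R.natDegree ≤ ((FF P Q).natDegree + (AA m c).natDegree) * d := by
      rw [hR]
      unfold resultant
      apply natDegree_det_le
      intro i j
      unfold sylvester
      rw [Matrix.of_apply]
      refine Fin.addCases (fun j₁ => ?_) (fun j₁ => ?_) j
      · rw [Fin.addCases_left]
        split_ifs
        · exact (AA_coeff_natDegree m c _).trans hmd
        · simp
      · rw [Fin.addCases_right]
        split_ifs
        · unfold FF
          rw [coeff_sub, coeff_map, coeff_C]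
          refine (natDegree_sub_le _ _).trans ?_
          split_ifs
          · simp [hQ]
          · simp
        · simp
    refine h3.trans (Nat.mul_le_mul_right _ ?_)
    have := AA_natDegree_le m c
    omega
  obtain ⟨u, v, _, _, huv⟩ := exists_mul_add_mul_eq_C_resultant (FF P Q) (AA m c) le_rfl le_rfl
    (Or.inl (by rw [hdeg]; norm_num))
  have hroot : ∀ p ∈ S, R.eval p.2 = 0 := by
    intro p hp
    have h3 := congrArg (fun F : (ℚ[X])[X] => (F.eval (C p.1)).eval p.2) huv
    simp only [eval_add, eval_mul, eval_C] at h3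
    rw [FF_eval, AA_eval, h1 p hp, h2 p hp, sub_self, zero_mul, zero_mul, add_zero] at h3
    exact h3.symm
  have hcard : S.card ≤ 3 * (R.roots.toFinset).card := by
    apply Finset.card_le_mul_card_image_of_maps_to (f := Prod.snd)
    · intro p hp
      rw [Multiset.mem_toFinset, mem_roots hR0]
      exact hroot p hp
    · intro t _
      have h3 : ({a ∈ S | a.2 = t} : Finset (ℚ × ℚ)).card ≤
          ((P - C (Q.eval t)).roots.toFinset).card := by
        apply Finset.card_le_card_of_injOn Prod.fst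
        · intro p hp
          simp only [Finset.coe_filter, Set.mem_ofPred_eq] at hp
          rw [Finset.mem_coe, Multiset.mem_toFinset, mem_roots, IsRoot.def, eval_sub, eval_C,
            h1 p hp.1, hp.2, sub_self]
          intro h0
          have h4 : (P - C (Q.eval t)).natDegree = 3 := by
            rw [natDegree_sub_C, hd]
          rw [h0] at h4
          simp at h4
        · intro p hp p' hp' h
          simp only [Finset.coe_filter, Set.mem_ofPred_eq] at hp hp'
          exact Prod.ext h (hp.2.trans hp'.2.symm)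
      refine h3.trans ((Multiset.toFinset_card_le _).trans ((card_roots' _).trans ?_))
      rw [natDegree_sub_C, hd]
  have h5 : (R.roots.toFinset).card ≤ 5 * d :=
    (Multiset.toFinset_card_le _).trans ((card_roots' _).trans hRd)
  calc S.card ≤ 3 * (5 * d) := hcard.trans (Nat.mul_le_mul_left _ h5)
    _ = 15 * d := by ring

end Pool.Agent.KBP
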