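import Pool.Agent.KBP.BP
import Pool.Agent.K3N.Div
import Mathlib.Data.Nat.Factorization.Basic
import Mathlib.Data.Finset.Pi

/-!
The number of roots of a polynomial of nonzero discriminant modulo `N`.
-/

namespace Pool.Agent.KBP

open Polynomial Finset Pool.Agent.K3N

lemma two_pow_omega_le (N : ℕ) (hN : N ≠ 0) : 2 ^ N.primeFactors.card ≤ N.divisors.card := by
  rw [Nat.card_divisors hN, ← Finset.prod_const]
  apply Finset.prod_le_prod'
  intro p hp
  have h1 : 0 < N.factorization p :=
    (Nat.prime_of_mem_primeFactors hp).factorization_pos_of_dvd hN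
      (Nat.dvd_of_mem_primeFactors hp)
  omega

lemma same_class {g U V : ℤ[X]} {D : ℤ} (hUV : U * g + V * derivative g = C D) {N : ℕ} {x y : ℤ}
    (hx : (N : ℤ) ∣ g.eval x) (hy : (N : ℤ) ∣ g.eval y)
    (hp : ∀ p : ℕ, p.Prime → p ∣ N → (p : ℤ) * D ∣ x - y) : (N : ℤ) ∣ D * (x - y) := by
  rw [Int.natCast_dvd, Nat.dvd_iff_prime_pow_dvd_dvd]
  intro p k hpp hpk
  rcases Nat.eq_zero_or_pos k with hk | hk
  · rw [hk, pow_zero]; exact one_dvd _
  have hpN : p ∣ N := dvd_trans (dvd_pow_self p hk.ne') hpk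
  obtain ⟨z, hz⟩ := hp p hpp hpN
  have hpk' : ((p ^ k : ℕ) : ℤ) ∣ N := by exact_mod_cast hpk
  obtain ⟨w, hw⟩ := g.binomExpansion y (x - y)
  rw [show y + (x - y) = x by ring] at hw
  have h1 : ((p ^ k : ℕ) : ℤ) ∣ (x - y) * (derivative g).eval y + w * (x - y) ^ 2 := by
    have e1 : (x - y) * (derivative g).eval y + w * (x - y) ^ 2 = g.eval x - g.eval y := by
      rw [hw]; ring
    rw [e1]
    exact dvd_sub (hpk'.trans hx) (hpk'.trans hy)
  have h2 : U.eval y * g.eval y + V.eval y * (derivative g).eval y = D := by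
    have := congrArg (eval y) hUV
    simpa using this
  have h3 : ((p ^ k : ℕ) : ℤ) ∣ (D * (x - y)) * (1 + V.eval y * w * (p * z)) := by
    have e2 : (D * (x - y)) * (1 + V.eval y * w * (p * z)) =
        V.eval y * ((x - y) * (derivative g).eval y + w * (x - y) ^ 2) +
          U.eval y * (x - y) * g.eval y := by
      have e3 : (x - y) ^ 2 = (x - y) * (p * D * z) := by rw [← hz]; ring
      rw [e3]
      linear_combination (-(x - y)) * h2
    rw [e2]
    exact dvd_add (h1.mul_left _) ((hpk'.trans hy).mul_left _)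
  have h4 : IsCoprime ((p ^ k : ℕ) : ℤ) (1 + V.eval y * w * (p * z)) := by
    push_cast
    apply IsCoprime.pow_left
    refine ⟨-(V.eval y * w * z), 1, by ring⟩
  have h5 := h4.dvd_of_dvd_mul_right h3
  exact Int.natCast_dvd.mp h5

/-- The number of roots modulo a prime. -/
lemma prime_roots {g : ℤ[X]} (hg : g.Monic) {p : ℕ} (hp : p.Prime) :
    ((range p).filter (fun a : ℕ => (p : ℤ) ∣ g.eval (a : ℤ))).card ≤ g.natDegree := by
  classical
  have : Fact p.Prime := ⟨hp⟩
  have hm : (g.map (Int.castRingHom (ZMod p))).Monic := hg.map _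
  have h1 : (((range p).filter (fun a : ℕ => (p : ℤ) ∣ g.eval (a : ℤ))).image
      (fun a : ℕ => (a : ZMod p))).card =
      ((range p).filter (fun a : ℕ => (p : ℤ) ∣ g.eval (a : ℤ))).card := by
    apply Finset.card_image_of_injOn
    intro a ha b hb hab
    rw [Finset.coe_filter] at ha hb
    have ha' := mem_range.mp ha.1
    have hb' := mem_range.mp hb.1
    have h2 := (ZMod.natCast_eq_natCast_iff' _ _ _).mp hab
    rwa [Nat.mod_eq_of_lt ha', Nat.mod_eq_of_lt hb'] at h2
  rw [← h1, ← hg.natDegree_map (Int.castRingHom (ZMod p))]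
  apply card_le_natDegree hm.ne_zero
  intro t ht
  obtain ⟨a, ha, rfl⟩ := Finset.mem_image.mp ht
  have h2 := (Finset.mem_filter.mp ha).2
  have e1 := eval_intCast_map (Int.castRingHom (ZMod p)) g (a : ℤ)
  rw [Int.cast_natCast, Int.cast_id] at e1
  rw [e1, eq_intCast, ZMod.intCast_zmod_eq_zero_iff_dvd]
  exact h2

/-- The number of roots modulo `N`. -/
theorem roots_count {g : ℤ[X]} (hg : g.Monic) {U V : ℤ[X]} {D : ℕ} (hD : 0 < D)
    (hUV : U * g + V * derivative g = C (D : ℤ)) (N : ℕ) (hN : 0 < N) :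
    ((range N).filter (fun x : ℕ => (N : ℤ) ∣ g.eval (x : ℤ))).card ≤
      g.natDegree ^ N.primeFactors.card * (D * D) := by
  classical
  set rad := ∏ p ∈ N.primeFactors, p with hrad
  have hrad0 : 0 < rad := Finset.prod_pos (fun p hp => (Nat.prime_of_mem_primeFactors hp).pos)
  set g0 := Nat.gcd N D with hg0
  have hg0p : 0 < g0 := Nat.gcd_pos_of_pos_left _ hN
  obtain ⟨N', hN'⟩ : g0 ∣ N := Nat.gcd_dvd_left _ _
  obtain ⟨D', hD'⟩ : g0 ∣ D := Nat.gcd_dvd_right _ _
  have hN'0 : 0 < N' := by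
    rcases Nat.eq_zero_or_pos N' with h | h
    · rw [h, mul_zero] at hN'; omega
    · exact h
  have hcop : Nat.Coprime N' D' := by
    have h1 : N' = N / g0 := by
      rw [hN']; exact (Nat.mul_div_cancel_left N' hg0p).symm
    have h2 : D' = D / g0 := by
      conv_rhs => rw [hD']
      exact (Nat.mul_div_cancel_left D' hg0p).symm
    rw [h1, h2, hg0]
    exact Nat.coprime_div_gcd_div_gcd hg0p
  let W : Finset (((p : ℕ) → p ∈ N.primeFactors → ℕ) × (ℕ × ℕ)) :=
    (N.primeFactors.pi (fun p => (range p).filter (fun a : ℕ => (p : ℤ) ∣ g.eval (a : ℤ)))) ×ˢ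
      (range D ×ˢ range D)
  have hW : W.card ≤ g.natDegree ^ N.primeFactors.card * (D * D) := by
    simp only [W]
    rw [Finset.card_product, Finset.card_product, Finset.card_pi, card_range]
    apply Nat.mul_le_mul_right
    rw [← Finset.prod_const]
    apply Finset.prod_le_prod'
    intro p hp
    exact prime_roots hg (Nat.prime_of_mem_primeFactors hp)
  refine le_trans ?_ hW
  apply Finset.card_le_card_of_injOn (fun x => (fun p _ => x % p, ((x / rad) % D, x / N')))
  · intro x hx
    rw [Finset.mem_coe, Finset.mem_filter] at hx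
    obtain ⟨hx1, hx2⟩ := hx
    rw [mem_range] at hx1
    simp only [W]
    rw [Finset.mem_coe, Finset.mem_product, Finset.mem_product]
    refine ⟨?_, ?_, ?_⟩
    · rw [Finset.mem_pi]
      intro p hp
      simp only
      rw [Finset.mem_filter, mem_range]
      have hpp := Nat.prime_of_mem_primeFactors hp
      refine ⟨Nat.mod_lt _ hpp.pos, ?_⟩
      have h1 : (p : ℤ) ∣ g.eval (x : ℤ) := by
        refine dvd_trans ?_ hx2
        exact_mod_cast Nat.dvd_of_mem_primeFactors hp
      have h2 : (p : ℤ) ∣ (x : ℤ) - ((x % p : ℕ) : ℤ) := by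
        rw [Int.natCast_mod]
        exact Int.dvd_self_sub_emod
      have h3 := h2.trans (sub_dvd_eval_sub (x : ℤ) ((x % p : ℕ) : ℤ) g)
      exact (dvd_sub_right h1).mp h3
    · rw [mem_range]
      exact Nat.mod_lt _ hD
    · rw [mem_range]
      have h1 : x / N' < g0 := by
        rw [Nat.div_lt_iff_lt_mul hN'0]
        rw [← hN']
        exact hx1
      exact lt_of_lt_of_le h1 (Nat.le_of_dvd hD ⟨D', hD'⟩)
  · intro x hx y hy hxy
    rw [Finset.mem_coe, Finset.mem_filter] at hx hy
    simp only [Prod.mk.injEq] at hxy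
    obtain ⟨h1, h2, h3⟩ := hxy
    have h4 : ∀ p ∈ N.primeFactors, x % p = y % p := by
      intro p hp
      exact congrFun (congrFun h1 p) hp
    have h5 : (rad : ℤ) ∣ (x : ℤ) - y := by
      rw [Int.natCast_dvd]
      apply Finset.prod_primes_dvd
      · intro p hp
        exact (Nat.prime_of_mem_primeFactors hp).prime
      · intro p hp
        rw [← Int.natCast_dvd]
        have h6 : (x : ℤ) % p = (y : ℤ) % p := by exact_mod_cast h4 p hp
        exact Int.ModEq.dvd (show (y : ℤ) ≡ x [ZMOD p] from h6.symm)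
    have h7 : x % rad = y % rad := by
      have h8 : (y : ℤ) ≡ x [ZMOD rad] := Int.modEq_iff_dvd.mpr h5
      exact (Int.natCast_modEq_iff.mp h8).symm
    have h9 : ((rad * D : ℕ) : ℤ) ∣ (x : ℤ) - y := by
      have e1 : (x : ℤ) = rad * ((x / rad : ℕ) : ℤ) + ((x % rad : ℕ) : ℤ) := by
        exact_mod_cast (Nat.div_add_mod x rad).symm
      have e2 : (y : ℤ) = rad * ((y / rad : ℕ) : ℤ) + ((y % rad : ℕ) : ℤ) := by
        exact_mod_cast (Nat.div_add_mod y rad).symm
      have e3 : (x : ℤ) - y = rad * (((x / rad : ℕ) : ℤ) - ((y / rad : ℕ) : ℤ)) := by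
        rw [h7] at e1
        linear_combination e1 - e2
      rw [e3]
      push_cast
      apply mul_dvd_mul_left
      have h10 : ((y / rad : ℕ) : ℤ) ≡ ((x / rad : ℕ) : ℤ) [ZMOD D] :=
        Int.natCast_modEq_iff.mpr h2.symm
      have h11 := Int.ModEq.dvd h10
      push_cast at h11
      exact h11
    have h12 : (N : ℤ) ∣ (D : ℤ) * ((x : ℤ) - y) := by
      apply same_class hUV hx.2 hy.2
      intro p hp hpN
      refine dvd_trans ?_ h9
      push_cast
      apply mul_dvd_mul_right
      exact_mod_cast Finset.dvd_prod_of_mem (fun p => p)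
        (Nat.mem_primeFactors.mpr ⟨hp, hpN, hN.ne'⟩)
    have h13 : (N' : ℤ) ∣ (x : ℤ) - y := by
      have h14 : ((g0 * N' : ℕ) : ℤ) ∣ ((g0 * D' : ℕ) : ℤ) * ((x : ℤ) - y) := by
        rw [← hN', ← hD']
        exact h12
      push_cast at h14
      rw [mul_assoc] at h14
      have h15 := Int.dvd_of_mul_dvd_mul_left (by exact_mod_cast hg0p.ne') h14
      exact (Nat.isCoprime_iff_coprime.mpr hcop).dvd_of_dvd_mul_left h15
    have h16 : x % N' = y % N' := by
      have h8 : (y : ℤ) ≡ x [ZMOD N'] := Int.modEq_iff_dvd.mpr h13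
      exact (Int.natCast_modEq_iff.mp h8).symm
    rw [← Nat.div_add_mod x N', ← Nat.div_add_mod y N', h3, h16]

/-- The number of roots modulo `N` in terms of divisors. -/
theorem roots_count' {g : ℤ[X]} (hg : g.Monic) (h4 : g.natDegree ≤ 4) {U V : ℤ[X]} {D : ℕ}
    (hD : 0 < D) (hUV : U * g + V * derivative g = C (D : ℤ)) (N : ℕ) (hN : 0 < N) :
    ((range N).filter (fun x : ℕ => (N : ℤ) ∣ g.eval (x : ℤ))).card ≤
      N.divisors.card ^ 2 * (D * D) := by
  refine (roots_count hg hD hUV N hN).trans ?_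
  apply Nat.mul_le_mul_right
  calc g.natDegree ^ N.primeFactors.card ≤ (2 ^ 2) ^ N.primeFactors.card :=
        Nat.pow_le_pow_left (by omega) _
    _ = (2 ^ N.primeFactors.card) ^ 2 := by rw [← pow_mul, ← pow_mul, mul_comm]
    _ ≤ _ := Nat.pow_le_pow_left (two_pow_omega_le N hN.ne') 2

end Pool.Agent.KBP
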