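import Pool.Agent.KBP.Box

/-!
The exponent `11 / 12`.
-/

namespace Pool.Agent.KBP

open Finset Pool.Agent.K3N Height

/-- The bound for one slice. -/
lemma slice_num {B t η ε : ℝ} (hB : 1 ≤ B) (ht : 0 ≤ t) (hη : 0 ≤ η) (htη : t + η ≤ 1 / 24)
    (hηε : 4 * η / 3 ≤ ε) :
    (⌈B ^ (1 / 12 - 2 * t)⌉₊ : ℝ) * (B ^ (1 / 2 - t) * (⌈B ^ (1 / 4 : ℝ)⌉₊ : ℝ) +
      (B ^ (1 / 2 - t)) ^ (1 / 3 : ℝ) * (B ^ (1 / 2 + t + η)) ^ (4 / 3 : ℝ)) +
      (B ^ (1 / 2 - t)) ^ 2 / (⌈B ^ (1 / 12 - 2 * t)⌉₊ : ℝ) + (B ^ (1 / 2 - t)) ^ (4 / 3 : ℝ) +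
      (B ^ (1 / 2 + t + η)) ^ 2 / (⌈B ^ (1 / 4 : ℝ)⌉₊ : ℝ) +
      (B ^ (1 / 2 + t + η)) ^ (4 / 3 : ℝ) ≤ 10 * B ^ (11 / 12 + ε) := by
  have hB0 : 0 < B := by linarith
  have hε : 0 ≤ ε := by linarith
  have hpw : ∀ a b : ℝ, B ^ a * B ^ b = B ^ (a + b) := fun a b => (Real.rpow_add hB0 a b).symm
  have hmono : ∀ a b : ℝ, a ≤ b → B ^ a ≤ B ^ b := fun a b h =>
    Real.rpow_le_rpow_of_exponent_le hB h
  have hrr : ∀ a b : ℝ, (B ^ a) ^ b = B ^ (a * b) := fun a b => (Real.rpow_mul hB0.le a b).symm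
  have hrn : ∀ a : ℝ, (B ^ a) ^ 2 = B ^ (a * 2) := by
    intro a
    rw [← Real.rpow_natCast, hrr]
    norm_num
  set α : ℝ := (⌈B ^ (1 / 12 - 2 * t)⌉₊ : ℝ) with hα
  set α' : ℝ := (⌈B ^ (1 / 4 : ℝ)⌉₊ : ℝ) with hα'
  have a1 : 1 ≤ B ^ (1 / 12 - 2 * t) := Real.one_le_rpow hB (by linarith)
  have a2 : B ^ (1 / 12 - 2 * t) ≤ α := Nat.le_ceil _
  have a3 : α ≤ 2 * B ^ (1 / 12 - 2 * t) := by
    have := (Nat.ceil_lt_add_one (show 0 ≤ B ^ (1 / 12 - 2 * t) by positivity)).le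
    linarith
  have b1 : 1 ≤ B ^ (1 / 4 : ℝ) := Real.one_le_rpow hB (by norm_num)
  have b2 : B ^ (1 / 4 : ℝ) ≤ α' := Nat.le_ceil _
  have b3 : α' ≤ 2 * B ^ (1 / 4 : ℝ) := by
    have := (Nat.ceil_lt_add_one (show 0 ≤ B ^ (1 / 4 : ℝ) by positivity)).le
    linarith
  have hα0 : 0 ≤ α := by linarith
  have hα'0 : 0 ≤ α' := by linarith
  have k1 : α * (B ^ (1 / 2 - t) * α') ≤ 4 * B ^ (11 / 12 + ε) := by
    calc α * (B ^ (1 / 2 - t) * α') ≤
          (2 * B ^ (1 / 12 - 2 * t)) * (B ^ (1 / 2 - t) * (2 * B ^ (1 / 4 : ℝ))) := by gcongr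
      _ = 4 * (B ^ (1 / 12 - 2 * t) * B ^ (1 / 2 - t) * B ^ (1 / 4 : ℝ)) := by ring
      _ ≤ _ := by
        rw [hpw, hpw]
        apply mul_le_mul_of_nonneg_left _ (by norm_num)
        apply hmono
        linarith
  have k2 : α * ((B ^ (1 / 2 - t)) ^ (1 / 3 : ℝ) * (B ^ (1 / 2 + t + η)) ^ (4 / 3 : ℝ)) ≤
      2 * B ^ (11 / 12 + ε) := by
    rw [hrr, hrr, hpw]
    calc α * B ^ ((1 / 2 - t) * (1 / 3) + (1 / 2 + t + η) * (4 / 3)) ≤
          (2 * B ^ (1 / 12 - 2 * t)) * B ^ ((1 / 2 - t) * (1 / 3) + (1 / 2 + t + η) * (4 / 3)) := by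
          gcongr
      _ = 2 * (B ^ (1 / 12 - 2 * t) *
          B ^ ((1 / 2 - t) * (1 / 3) + (1 / 2 + t + η) * (4 / 3))) := by ring
      _ ≤ _ := by
        rw [hpw]
        apply mul_le_mul_of_nonneg_left _ (by norm_num)
        apply hmono
        linarith
  have k3 : (B ^ (1 / 2 - t)) ^ 2 / α ≤ B ^ (11 / 12 + ε) := by
    calc (B ^ (1 / 2 - t)) ^ 2 / α ≤ (B ^ (1 / 2 - t)) ^ 2 / B ^ (1 / 12 - 2 * t) :=
          div_le_div_of_nonneg_left (by positivity) (by positivity) a2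
      _ ≤ _ := by
        rw [hrn, ← Real.rpow_sub hB0]
        apply hmono
        linarith
  have k4 : (B ^ (1 / 2 - t)) ^ (4 / 3 : ℝ) ≤ B ^ (11 / 12 + ε) := by
    rw [hrr]
    apply hmono
    linarith
  have k5 : (B ^ (1 / 2 + t + η)) ^ 2 / α' ≤ B ^ (11 / 12 + ε) := by
    calc (B ^ (1 / 2 + t + η)) ^ 2 / α' ≤ (B ^ (1 / 2 + t + η)) ^ 2 / B ^ (1 / 4 : ℝ) :=
          div_le_div_of_nonneg_left (by positivity) (by positivity) b2
      _ ≤ _ := by
        rw [hrn, ← Real.rpow_sub hB0]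
        apply hmono
        linarith
  have k6 : (B ^ (1 / 2 + t + η)) ^ (4 / 3 : ℝ) ≤ B ^ (11 / 12 + ε) := by
    rw [hrr]
    apply hmono
    linarith
  rw [mul_add α]
  linarith

/-- The points with the smaller height on the first coordinate. -/
theorem half_count (a b a' b' : ℤ) (hΔ : 4 * a ^ 3 + 27 * b ^ 2 ≠ 0)
    (hΔ' : 4 * a' ^ 3 + 27 * b' ^ 2 ≠ 0) (ε : ℝ) (hε : 0 < ε) :
    ∃ C : ℝ, 0 ≤ C ∧ ∀ (B : ℝ) (s : Finset (ℚ × ℚ × ℚ)), 1 ≤ B →
      (∀ p ∈ s, p.2.2 ^ 2 = K3H.fc (a : ℚ) b p.1 * K3H.fc (a' : ℚ) b' p.2.1 ∧ p.2.2 ≠ 0 ∧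
        mulHeight₁ p.1 * mulHeight₁ p.2.1 ≤ B ∧ mulHeight₁ p.1 ≤ mulHeight₁ p.2.1 ∧
        ¬ OnG a b a' b' p.1 p.2.1) →
      (s.card : ℝ) ≤ C * B ^ (11 / 12 + ε) := by
  classical
  obtain ⟨Cb, hCb0, hCb⟩ := box_count a b a' b' hΔ hΔ' (ε / 2) (by positivity)
  obtain ⟨Cf, hCf0, hCf⟩ := fib_count' hΔ hΔ' ε hε
  obtain ⟨J, hJ⟩ := exists_nat_gt (1 / ε)
  have hJ0 : (0 : ℝ) < J := lt_trans (by positivity) hJ
  have hJ1 : 1 / (J : ℝ) ≤ ε := by
    rw [div_le_iff₀ hJ0]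
    rw [div_lt_iff₀ hε] at hJ
    linarith
  set η : ℝ := 1 / (24 * J) with hη
  have hη0 : 0 < η := by positivity
  have hηJ : J * η = 1 / 24 := by rw [hη]; field_simp
  have hηε : 4 * η / 3 ≤ ε / 2 := by
    have : η = (1 / (J : ℝ)) / 24 := by rw [hη]; field_simp
    rw [this]
    linarith
  refine ⟨9 * Cf + J * (Cb * 2 ^ (ε / 2) * 10), by positivity, ?_⟩
  intro B s hB hs
  have hB0 : (0 : ℝ) < B := by linarith
  have hmono : ∀ a b : ℝ, a ≤ b → B ^ a ≤ B ^ b := fun a b h =>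
    Real.rpow_le_rpow_of_exponent_le hB h
  have hBle : ∀ a : ℝ, a ≤ 1 → B ^ a ≤ B := fun a h => by
    calc B ^ a ≤ B ^ (1 : ℝ) := hmono _ _ h
      _ = B := Real.rpow_one B
  -- small first coordinate
  set s0 := s.filter (fun p => mulHeight₁ p.1 ≤ B ^ (11 / 24 : ℝ)) with hs0
  set s1 := s.filter (fun p => ¬ mulHeight₁ p.1 ≤ B ^ (11 / 24 : ℝ)) with hs1
  have hin : ∀ p ∈ s, InBox a b a' b' B B p := by
    intro p hp
    obtain ⟨g1, g2, g3, _⟩ := hs p hp
    have h1 := one_le_mulHeight₁ p.1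
    have h2 := one_le_mulHeight₁ p.2.1
    exact ⟨g1, g2, by nlinarith, by nlinarith⟩
  have c0 : (s0.card : ℝ) ≤ 9 * Cf * B ^ (11 / 12 + ε) := by
    have g1 : (s0.card : ℝ) ≤ (9 * (B ^ (11 / 24 : ℝ)) ^ 2) * (Cf * B ^ ε) := by
      apply cover_count (f := fun p => p.1) (by positivity)
      · apply card_le_of_ht (Real.one_le_rpow hB (by norm_num))
        intro x hx
        obtain ⟨p, hp, rfl⟩ := mem_image.mp hx
        exact (mem_filter.mp hp).2
      · intro y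
        apply hCf B hB
        · intro p hp
          exact hin p (mem_filter.mp (mem_filter.mp hp).1).1
        · left
          exact ⟨y, fun p hp => (mem_filter.mp hp).2⟩
    refine g1.trans (le_of_eq ?_)
    rw [← Real.rpow_natCast, ← Real.rpow_mul hB0.le, Real.rpow_add hB0]
    norm_num
    ring
  -- the slices
  have c1 : (s1.card : ℝ) ≤ J * (Cb * 2 ^ (ε / 2) * 10) * B ^ (11 / 12 + ε) := by
    have hslice : ∀ k : ℕ, ∀ p ∈ s, mulHeight₁ p.1 ≤ B ^ (1 / 2 - k * η) ∨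
        ∃ j < k, B ^ (1 / 2 - (j * η + η)) < mulHeight₁ p.1 ∧
          mulHeight₁ p.1 ≤ B ^ (1 / 2 - j * η) := by
      intro k
      induction k with
      | zero =>
        intro p hp
        left
        obtain ⟨_, _, g3, g4, _⟩ := hs p hp
        have h1 := one_le_mulHeight₁ p.1
        have h2 : mulHeight₁ p.1 ^ 2 ≤ B := by nlinarith
        have h3 := Real.rpow_le_rpow (by positivity) h2 (show (0 : ℝ) ≤ 1 / 2 by norm_num)
        rw [← Real.rpow_natCast, ← Real.rpow_mul (by linarith)] at h3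
        norm_num at h3 ⊢
        exact h3
      | succ k ih =>
        intro p hp
        rcases ih p hp with h | ⟨j, hj, h1, h2⟩
        · by_cases hlt : B ^ (1 / 2 - (k * η + η)) < mulHeight₁ p.1
          · right
            exact ⟨k, by omega, hlt, h⟩
          · left
            push Not at hlt
            have e : (1 / 2 - ((k + 1 : ℕ) : ℝ) * η) = 1 / 2 - (k * η + η) := by
              push_cast; ring
            rw [e]
            exact hlt
        · right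
          exact ⟨j, by omega, h1, h2⟩
    have h1 := card_le_sum_of_exists s1 (range J)
      (fun j p => B ^ (1 / 2 - (j * η + η)) < mulHeight₁ p.1 ∧
          mulHeight₁ p.1 ≤ B ^ (1 / 2 - j * η)) (by
        intro p hp
        obtain ⟨hps, hp1⟩ := mem_filter.mp hp
        rcases hslice J p hps with h | ⟨j, hj, h1, h2⟩
        · exfalso
          apply hp1
          rw [hηJ] at h
          norm_num at h ⊢
          exact h
        · exact ⟨j, mem_range.mpr hj, h1, h2⟩)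
      (fun _ => Cb * 2 ^ (ε / 2) * 10 * B ^ (11 / 12 + ε)) (by
        intro j hj
        have hjJ : (j : ℝ) + 1 ≤ J := by
          exact_mod_cast mem_range.mp hj
        set t : ℝ := j * η with ht
        have ht0 : 0 ≤ t := by positivity
        have htη : t + η ≤ 1 / 24 := by
          have : ((j : ℝ) + 1) * η ≤ J * η := by gcongr
          rw [hηJ] at this
          rw [ht]
          linarith
        have hX1 : 1 ≤ B ^ (1 / 2 - t) := Real.one_le_rpow hB (by linarith)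
        have hY1 : 1 ≤ B ^ (1 / 2 + t + η) := Real.one_le_rpow hB (by linarith)
        have hα1 : 1 ≤ B ^ (1 / 12 - 2 * t) := Real.one_le_rpow hB (by linarith)
        have hα'1 : 1 ≤ B ^ (1 / 4 : ℝ) := Real.one_le_rpow hB (by norm_num)
        have hceil : ∀ y : ℝ, 1 ≤ y → y ≤ B → (⌈y⌉₊ : ℝ) ≤ 2 * B := by
          intro y hy hyB
          have := (Nat.ceil_lt_add_one (show 0 ≤ y by linarith)).le
          linarith
        have hceil1 : ∀ y : ℝ, 1 ≤ y → 1 ≤ ⌈y⌉₊ := by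
          intro y hy
          have : (1 : ℝ) ≤ ⌈y⌉₊ := hy.trans (Nat.le_ceil _)
          exact_mod_cast this
        have hmain := hCb (2 * B) (B ^ (1 / 2 - t)) (B ^ (1 / 2 + t + η))
          ⌈B ^ (1 / 12 - 2 * t)⌉₊ ⌈B ^ (1 / 4 : ℝ)⌉₊
          (s1.filter (fun p => B ^ (1 / 2 - (t + η)) < mulHeight₁ p.1 ∧
            mulHeight₁ p.1 ≤ B ^ (1 / 2 - t))) hX1 hY1
          ((hBle _ (by linarith)).trans (by linarith))
          ((hBle _ (by linarith)).trans (by linarith))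
          (hceil _ hα1 (hBle _ (by linarith))) (hceil _ hα'1 (hBle _ (by norm_num)))
          (hceil1 _ hα1) (hceil1 _ hα'1) (by
            intro p hp
            obtain ⟨hp1, hp2, hp3⟩ := mem_filter.mp hp
            obtain ⟨hps, _⟩ := mem_filter.mp hp1
            obtain ⟨g1, g2, g3, g4, g5⟩ := hs p hps
            refine ⟨⟨g1, g2, hp3, ?_⟩, g5⟩
            have e1 : B ^ (1 / 2 - (t + η)) * B ^ (1 / 2 + t + η) = B := by
              rw [← Real.rpow_add hB0]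
              have : (1 / 2 - (t + η)) + (1 / 2 + t + η) = (1 : ℝ) := by ring
              rw [this, Real.rpow_one]
            have e2 : 0 < B ^ (1 / 2 - (t + η)) := by positivity
            have e3 : B ^ (1 / 2 - (t + η)) * mulHeight₁ p.2.1 ≤
                B ^ (1 / 2 - (t + η)) * B ^ (1 / 2 + t + η) := by
              rw [e1]
              have := one_le_mulHeight₁ p.2.1
              nlinarith
            exact le_of_mul_le_mul_left e3 e2)
        refine hmain.trans ?_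
        have hnum := slice_num (ε := ε / 2) hB ht0 hη0.le htη hηε
        have e1 : (2 * B) ^ (ε / 2) = 2 ^ (ε / 2) * B ^ (ε / 2) :=
          Real.mul_rpow (by norm_num) hB0.le
        rw [e1]
        calc Cb * (2 ^ (ε / 2) * B ^ (ε / 2)) * _ ≤
              Cb * (2 ^ (ε / 2) * B ^ (ε / 2)) * (10 * B ^ (11 / 12 + ε / 2)) :=
              mul_le_mul_of_nonneg_left hnum (by positivity)
          _ = Cb * 2 ^ (ε / 2) * 10 * (B ^ (ε / 2) * B ^ (11 / 12 + ε / 2)) := by ring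
          _ = _ := by
            rw [← Real.rpow_add hB0]
            congr 2
            ring)
    rw [sum_const, nsmul_eq_mul, card_range] at h1
    refine h1.trans (le_of_eq ?_)
    ring
  have hsum := card_filter_add_card_filter_not (s := s)
    (fun p => mulHeight₁ p.1 ≤ B ^ (11 / 24 : ℝ))
  have h6 : (s.card : ℝ) = s0.card + s1.card := by
    rw [← hsum]; push_cast; rfl
  rw [h6]
  calc (s0.card : ℝ) + s1.card ≤ _ := add_le_add c0 c1
    _ = _ := by ring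

end Pool.Agent.KBP
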