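import Pool.Agent.KBP.Fix2
import Pool.Agent.K3N.Fin1

/-!
Points where the quartic form has a large square factor.
-/

namespace Pool.Agent.KBP

open Polynomial Finset Pool.Agent.K3N Height

theorem sq_small (a b : ℤ) (hΔ : 4 * a ^ 3 + 27 * b ^ 2 ≠ 0) (ε : ℝ) (hε : 0 < ε) :
    ∃ C : ℝ, 1 ≤ C ∧ ∀ (X : ℝ) (α Z : ℕ) (S : Finset (ℤ × ℤ)), 1 ≤ X → 1 ≤ α →
      (∀ p ∈ S, IsCoprime p.1 p.2 ∧ |(p.1 : ℝ)| ≤ X ∧ |(p.2 : ℝ)| ≤ X ∧ GG a b p.1 p.2 ≠ 0 ∧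
        α < K3N.sq (GG a b p.1 p.2).natAbs ∧ K3N.sq (GG a b p.1 p.2).natAbs ≤ Z) →
      (S.card : ℝ) ≤ C * X ^ ε * (Z + X ^ 2 / α) := by
  classical
  obtain ⟨Cd, hCd1, hCd⟩ := card_divisors_le (ε / 12) (by positivity)
  obtain ⟨D, U, V, hD, hUV⟩ := exists_disc a b hΔ
  set κ : ℝ := 1 + |(a : ℝ)| + |(b : ℝ)| with hκ
  have hκ1 : 1 ≤ κ := by
    have := abs_nonneg (a : ℝ)
    have := abs_nonneg (b : ℝ)
    rw [hκ]; linarith
  have hDr : (1 : ℝ) ≤ D := by exact_mod_cast hD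
  refine ⟨Cd ^ 3 * κ ^ (ε / 4) * (D * D) * 48, ?_, ?_⟩
  · have g1 : 1 ≤ Cd ^ 3 := one_le_pow₀ hCd1
    have g2 : 1 ≤ κ ^ (ε / 4) := Real.one_le_rpow hκ1 (by positivity)
    have g3 : (1 : ℝ) ≤ D * D := by nlinarith
    exact one_le_mul_of_one_le_of_one_le (one_le_mul_of_one_le_of_one_le
      (one_le_mul_of_one_le_of_one_le g1 g2) g3) (by norm_num)
  intro X α Z S hX hα hS
  have hX0 : (0 : ℝ) < X := by linarith
  have hαr : (0 : ℝ) < α := by exact_mod_cast hα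
  set F : ℝ := Cd ^ 3 * κ ^ (ε / 4) * (D * D) * X ^ ε with hF
  have hF0 : 0 ≤ F := by positivity
  have h1 := card_le_sum_of_exists S (Ioo α (Z + 1)) (fun A p => K3N.sq (GG a b p.1 p.2).natAbs = A)
    (by
      intro p hp
      obtain ⟨_, _, _, _, h5, h6⟩ := hS p hp
      exact ⟨_, mem_Ioo.mpr ⟨h5, by omega⟩, rfl⟩)
    (fun A => F * (2 + 24 * X ^ 2 * ((A : ℝ) ^ 2)⁻¹)) (by
      intro A hA
      rw [mem_Ioo] at hA
      have hA0 : 0 < A := by omega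
      set S' := S.filter (fun p => K3N.sq (GG a b p.1 p.2).natAbs = A) with hS'
      rcases S'.eq_empty_or_nonempty with he | ⟨p0, hp0⟩
      · rw [he, card_empty]
        push_cast
        positivity
      have hdvd : ∀ p ∈ S', ((A ^ 2 : ℕ) : ℤ) ∣ GG a b p.1 p.2 := by
        intro p hp
        rw [hS', mem_filter] at hp
        rw [Int.natCast_dvd, ← hp.2]
        exact ⟨_, (sq_sf _).symm⟩
      have hcb := class_bound a b hD hUV (A ^ 2) (by positivity) S' id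
        (fun p hp => ⟨(hS p (mem_filter.mp (hS' ▸ hp)).1).1, hdvd p hp⟩)
        (2 + 24 * X ^ 2 * ((A : ℝ) ^ 2)⁻¹) (by positivity) (by
          intro N1 N2 l hN1 hN2 hNN _ S'' hS'' hL
          have h2 := prim_count (l := l) hN1 hN2 S'' X hX (by
            intro p hp
            obtain ⟨g1, g2, g3, _⟩ := hS p (mem_filter.mp (hS' ▸ hS'' hp)).1
            exact ⟨hL p hp, g1, g2, g3⟩)
          rw [hNN] at h2
          push_cast at h2
          rw [div_eq_mul_inv] at h2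
          exact h2)
      refine hcb.trans ?_
      apply mul_le_mul_of_nonneg_right _ (by positivity)
      have hA2 : ((A ^ 2 : ℕ) : ℝ) ≤ κ * X ^ 4 := by
        obtain ⟨_, k2, k3, k4, _⟩ := hS p0 (mem_filter.mp (hS' ▸ hp0)).1
        have g1 := Int.le_of_dvd (abs_pos.mpr k4) ((dvd_abs _ _).mpr (hdvd p0 hp0))
        have g2 : ((A ^ 2 : ℕ) : ℝ) ≤ |(GG a b p0.1 p0.2 : ℝ)| := by exact_mod_cast g1
        exact g2.trans (GG_abs_le a b hX0.le k2 k3)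
      have g1 := hCd (A ^ 2) (by positivity)
      have g2 : ((A ^ 2 : ℕ) : ℝ) ^ (ε / 12) ≤ (κ * X ^ 4) ^ (ε / 12) :=
        Real.rpow_le_rpow (by positivity) hA2 (by positivity)
      have g3 : ((A ^ 2).divisors.card : ℝ) ≤ Cd * (κ * X ^ 4) ^ (ε / 12) := by
        refine g1.trans ?_
        gcongr
      have g4 := pow_le_pow_left₀ (by positivity) g3 3
      have g5 : (Cd * (κ * X ^ 4) ^ (ε / 12)) ^ 3 = Cd ^ 3 * κ ^ (ε / 4) * X ^ ε := by
        rw [mul_pow, mul_assoc]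
        congr 1
        rw [← Real.rpow_natCast ((κ * X ^ 4) ^ (ε / 12)) 3, ← Real.rpow_mul (by positivity),
          Real.mul_rpow (by positivity) (by positivity), ← Real.rpow_natCast X 4,
          ← Real.rpow_mul hX0.le]
        push_cast
        congr 2 <;> ring
      rw [g5] at g4
      calc ((A ^ 2).divisors.card : ℝ) ^ 3 * (D * D) ≤
            (Cd ^ 3 * κ ^ (ε / 4) * X ^ ε) * (D * D) := by gcongr
        _ = F := by rw [hF]; ring)
  refine h1.trans ?_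
  rw [← mul_sum, sum_add_distrib, sum_const, nsmul_eq_mul, ← mul_sum]
  have h2 := sum_Ioo_inv_sq_le (α := ℝ) α (Z + 1)
  have h3 : (2 : ℝ) / (α + 1) ≤ 2 / α := by
    apply div_le_div_of_nonneg_left (by norm_num) hαr
    linarith
  have h4 : ((Ioo α (Z + 1)).card : ℝ) ≤ Z := by
    rw [Nat.card_Ioo]
    have : Z + 1 - α - 1 ≤ Z := by omega
    exact_mod_cast this
  have h5 : ((Ioo α (Z + 1)).card : ℝ) * 2 + 24 * X ^ 2 *
      ∑ i ∈ Ioo α (Z + 1), ((i : ℝ) ^ 2)⁻¹ ≤ Z * 2 + 24 * X ^ 2 * (2 / α) := by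
    apply add_le_add
    · linarith
    · apply mul_le_mul_of_nonneg_left (h2.trans h3) (by positivity)
  calc F * (((Ioo α (Z + 1)).card : ℝ) * 2 + 24 * X ^ 2 *
        ∑ i ∈ Ioo α (Z + 1), ((i : ℝ) ^ 2)⁻¹) ≤ F * (Z * 2 + 24 * X ^ 2 * (2 / α)) :=
        mul_le_mul_of_nonneg_left h5 hF0
    _ ≤ F * (48 * (Z + X ^ 2 / α)) := by
        apply mul_le_mul_of_nonneg_left _ hF0
        have e1 : 24 * X ^ 2 * (2 / (α : ℝ)) = 48 * (X ^ 2 / α) := by ring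
        rw [e1]
        have : (0 : ℝ) ≤ Z := Nat.cast_nonneg _
        nlinarith
    _ = _ := by rw [hF]; ring

/-- The value of the quartic form at a rational number. -/
def nn (a b : ℤ) (x : ℚ) : ℤ := GG a b x.num x.den

lemma nn_cast (a b : ℤ) (x : ℚ) : (nn a b x : ℚ) = (x.den : ℚ) ^ 4 * K3H.fc (a : ℚ) b x := by
  have e1 : (x.num : ℚ) = x * x.den := (Rat.mul_den_eq_num x).symm
  unfold nn GG fs K3H.fc
  push_cast
  rw [e1]
  ring

lemma nn_ne_zero {a b : ℤ} {x : ℚ} (h : K3H.fc (a : ℚ) b x ≠ 0) : nn a b x ≠ 0 := by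
  have h1 : (nn a b x : ℚ) ≠ 0 := by
    rw [nn_cast]
    have : (x.den : ℚ) ≠ 0 := by exact_mod_cast x.den_nz
    exact mul_ne_zero (pow_ne_zero 4 this) h
  exact_mod_cast h1

/-- Square parts of the two forms. -/
lemma sq_rel {m n y : ℤ} (hm : m ≠ 0) (hn : n ≠ 0) (h : m * n = y ^ 2) :
    sf m.natAbs = sf n.natAbs ∧
      ((K3N.sq n.natAbs : ℕ) : ℤ) ^ 2 * m = ((K3N.sq m.natAbs : ℕ) : ℤ) ^ 2 * n := by
  have hm' : m.natAbs ≠ 0 := Int.natAbs_ne_zero.mpr hm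
  have hn' : n.natAbs ≠ 0 := Int.natAbs_ne_zero.mpr hn
  have h1 : m.natAbs * n.natAbs = y.natAbs ^ 2 := by
    rw [← Int.natAbs_mul, h, Int.natAbs_pow]
  have h2 : (K3N.sq m.natAbs * K3N.sq n.natAbs) ^ 2 * (sf m.natAbs * sf n.natAbs) = y.natAbs ^ 2 := by
    rw [← h1]
    conv_rhs => rw [← sq_sf m.natAbs, ← sq_sf n.natAbs]
    ring
  have h3 : (K3N.sq m.natAbs * K3N.sq n.natAbs) ^ 2 ∣ y.natAbs ^ 2 := ⟨_, h2.symm⟩
  obtain ⟨k, hk⟩ := (Nat.pow_dvd_pow_iff two_ne_zero).mp h3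
  have hpos : 0 < (K3N.sq m.natAbs * K3N.sq n.natAbs) ^ 2 := by
    have := K3N.sq_ne_zero hm'
    have := K3N.sq_ne_zero hn'
    positivity
  have h4 : sf m.natAbs * sf n.natAbs = k ^ 2 := by
    rw [hk] at h2
    exact Nat.eq_of_mul_eq_mul_left hpos (by rw [h2]; ring)
  have h5 := sqf_eq_of_mul (squarefree_sf _) (squarefree_sf _) h4
  refine ⟨h5, ?_⟩
  have hsign : m.sign = n.sign := by
    have hy : 0 < m * n := by
      have h0 : m * n ≠ 0 := mul_ne_zero hm hn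
      rw [h] at h0 ⊢
      positivity
    rcases lt_or_gt_of_ne hm with hlt | hgt
    · have : n < 0 := by nlinarith
      rw [Int.sign_eq_neg_one_of_neg hlt, Int.sign_eq_neg_one_of_neg this]
    · have : 0 < n := by nlinarith
      rw [Int.sign_eq_one_of_pos hgt, Int.sign_eq_one_of_pos this]
  have e1 : m = m.sign * ((K3N.sq m.natAbs : ℤ) ^ 2 * (sf m.natAbs : ℤ)) := by
    have : ((m.natAbs : ℕ) : ℤ) = (K3N.sq m.natAbs : ℤ) ^ 2 * (sf m.natAbs : ℤ) := by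
      conv_lhs => rw [← sq_sf m.natAbs]
      push_cast
      ring
    rw [← this]
    exact (Int.sign_mul_natAbs m).symm
  have e2 : n = n.sign * ((K3N.sq n.natAbs : ℤ) ^ 2 * (sf n.natAbs : ℤ)) := by
    have : ((n.natAbs : ℕ) : ℤ) = (K3N.sq n.natAbs : ℤ) ^ 2 * (sf n.natAbs : ℤ) := by
      conv_lhs => rw [← sq_sf n.natAbs]
      push_cast
      ring
    rw [← this]
    exact (Int.sign_mul_natAbs n).symm
  have e3 : (sf m.natAbs : ℤ) = sf n.natAbs := by exact_mod_cast h5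
  calc ((K3N.sq n.natAbs : ℕ) : ℤ) ^ 2 * m =
        ((K3N.sq n.natAbs : ℕ) : ℤ) ^ 2 * (m.sign * ((K3N.sq m.natAbs : ℤ) ^ 2 * (sf m.natAbs : ℤ))) := by
        rw [← e1]
    _ = ((K3N.sq m.natAbs : ℕ) : ℤ) ^ 2 * (n.sign * ((K3N.sq n.natAbs : ℤ) ^ 2 * (sf n.natAbs : ℤ))) := by
        rw [hsign, e3]; ring
    _ = _ := by rw [← e2]

lemma exists_sq {a b a' b' : ℤ} {x z w : ℚ}
    (hw : w ^ 2 = K3H.fc (a : ℚ) b x * K3H.fc (a' : ℚ) b' z) :
    ∃ y : ℤ, nn a b x * nn a' b' z = y ^ 2 := by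
  have h1 : IsSquare (((nn a b x * nn a' b' z : ℤ)) : ℚ) := by
    refine ⟨(x.den : ℚ) ^ 2 * (z.den : ℚ) ^ 2 * w, ?_⟩
    rw [Int.cast_mul, nn_cast, nn_cast]
    linear_combination (-(x.den : ℚ) ^ 4 * (z.den : ℚ) ^ 4) * hw
  rw [Rat.isSquare_intCast_iff] at h1
  obtain ⟨y, hy⟩ := h1
  exact ⟨y, by rw [hy]; ring⟩

end Pool.Agent.KBP
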