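import Pool.Agent.KBP.SqA

/-!
Points on twists with small parameter; square parts of coprime products.
-/

namespace Pool.Agent.KBP

open Polynomial Finset Pool.Agent.K3N Height

lemma sq_unique {A D n : ℕ} (hn : n ≠ 0) (h : A ^ 2 * D = n) (hD : Squarefree D) :
    K3N.sq n = A ∧ sf n = D := by
  have h1 := sq_sf n
  have hA : A ≠ 0 := by
    rintro rfl
    apply hn
    rw [← h]; simp
  have hs := K3N.sq_ne_zero hn
  have h2 : (K3N.sq n * A) ^ 2 * (sf n * D) = n ^ 2 := by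
    calc _ = (K3N.sq n ^ 2 * sf n) * (A ^ 2 * D) := by ring
      _ = n ^ 2 := by rw [h1, h]; ring
  have h3 : (K3N.sq n * A) ^ 2 ∣ n ^ 2 := ⟨_, h2.symm⟩
  obtain ⟨k, hk⟩ := (Nat.pow_dvd_pow_iff two_ne_zero).mp h3
  have hpos : 0 < (K3N.sq n * A) ^ 2 := by positivity
  have h4 : sf n * D = k ^ 2 := by
    apply Nat.eq_of_mul_eq_mul_left hpos
    rw [h2, ← mul_pow, ← hk]
  have h5 := sqf_eq_of_mul (squarefree_sf n) hD h4
  refine ⟨?_, h5⟩
  have h6 : K3N.sq n ^ 2 * D = A ^ 2 * D := by rw [h, ← h5, h1]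
  have h7 := Nat.eq_of_mul_eq_mul_right (Nat.pos_of_ne_zero hD.ne_zero) h6
  exact Nat.pow_left_injective two_ne_zero h7

lemma sqsf_mul {m n : ℕ} (hm : m ≠ 0) (hn : n ≠ 0) (hc : Nat.Coprime m n) :
    K3N.sq (m * n) = K3N.sq m * K3N.sq n ∧ sf (m * n) = sf m * sf n := by
  apply sq_unique (mul_ne_zero hm hn)
  · calc (K3N.sq m * K3N.sq n) ^ 2 * (sf m * sf n) =
        (K3N.sq m ^ 2 * sf m) * (K3N.sq n ^ 2 * sf n) := by ring
      _ = _ := by rw [sq_sf, sq_sf]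
  · rw [Nat.squarefree_mul (Nat.Coprime.coprime_dvd_left (sf_dvd m)
      (Nat.Coprime.coprime_dvd_right (sf_dvd n) hc))]
    exact ⟨squarefree_sf m, squarefree_sf n⟩

lemma disc_cast {a b : ℤ} (h : 4 * a ^ 3 + 27 * b ^ 2 ≠ 0) :
    4 * (a : ℚ) ^ 3 + 27 * (b : ℚ) ^ 2 ≠ 0 := by exact_mod_cast h

/-- Points on the twists by `D` with `|D| ≤ M`. -/
theorem tw_count {a b a' b' : ℤ} (hΔ : 4 * a ^ 3 + 27 * b ^ 2 ≠ 0)
    (hΔ' : 4 * a' ^ 3 + 27 * b' ^ 2 ≠ 0) (ε : ℝ) (hε : 0 < ε) :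
    ∃ C : ℝ, 0 ≤ C ∧ ∀ (B : ℝ) (M : ℕ) (s : Finset (ℚ × ℚ × ℚ)), 1 ≤ B →
      (∀ p ∈ s, p.2.2 ^ 2 = K3H.fc (a : ℚ) b p.1 * K3H.fc (a' : ℚ) b' p.2.1 ∧ p.2.2 ≠ 0 ∧
        mulHeight₁ p.1 ≤ B ∧ mulHeight₁ p.2.1 ≤ B ∧ sf (nn a b p.1).natAbs ≤ M) →
      (s.card : ℝ) ≤ C * B ^ ε * M := by
  classical
  obtain ⟨C, hC0, hC⟩ := K3H.class_count (disc_cast hΔ) (disc_cast hΔ') ε hε
  refine ⟨2 * C, by positivity, ?_⟩
  intro B M s hB hs
  have hBexp : Real.exp (ε * Real.log B) = B ^ ε := by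
    rw [Real.rpow_def_of_pos (by linarith), mul_comm]
  have hne : ∀ p ∈ s, K3H.fc (a : ℚ) b p.1 ≠ 0 := by
    intro p hp
    obtain ⟨h1, h2, _⟩ := hs p hp
    have h3 : K3H.fc (a : ℚ) b p.1 * K3H.fc (a' : ℚ) b' p.2.1 ≠ 0 := by
      rw [← h1]; exact pow_ne_zero 2 h2
    exact left_ne_zero_of_mul h3
  have h1 := card_le_sum_of_exists s ((Icc (-(M : ℤ)) M).erase 0)
    (fun D p => D = (nn a b p.1).sign * (sf (nn a b p.1).natAbs : ℤ))
    (by
      intro p hp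
      refine ⟨_, ?_, rfl⟩
      have h0 := nn_ne_zero (hne p hp)
      have hM := (hs p hp).2.2.2.2
      have hsf := sf_pos (nn a b p.1).natAbs
      rw [mem_erase, mem_Icc]
      rcases lt_or_gt_of_ne h0 with hlt | hgt
      · rw [Int.sign_eq_neg_one_of_neg hlt]
        refine ⟨?_, ?_, ?_⟩ <;> omega
      · rw [Int.sign_eq_one_of_pos hgt]
        refine ⟨?_, ?_, ?_⟩ <;> omega)
    (fun _ => C * B ^ ε) (by
      intro D hD
      have hD0 : (D : ℚ) ≠ 0 := by exact_mod_cast (ne_of_mem_erase hD)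
      rw [← hBexp]
      apply hC (D : ℚ) hD0 (Real.log B) (Real.log_nonneg hB)
      intro p hp
      rw [mem_filter] at hp
      obtain ⟨hps, hpD⟩ := hp
      obtain ⟨g1, g2, g3, g4, g5⟩ := hs p hps
      have h0 := nn_ne_zero (hne p hps)
      have hden : (p.1.den : ℚ) ≠ 0 := by exact_mod_cast p.1.den_nz
      have hsq : (K3N.sq (nn a b p.1).natAbs : ℚ) ≠ 0 := by
        exact_mod_cast K3N.sq_ne_zero (Int.natAbs_ne_zero.mpr h0)
      refine ⟨g1, g2, ⟨(p.1.den : ℚ) ^ 2 / (K3N.sq (nn a b p.1).natAbs : ℚ),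
        div_ne_zero (pow_ne_zero 2 hden) hsq, ?_⟩, ?_, ?_⟩
      · have e1 : (nn a b p.1 : ℚ) = D * (K3N.sq (nn a b p.1).natAbs : ℚ) ^ 2 := by
          have e2 : nn a b p.1 = D * (K3N.sq (nn a b p.1).natAbs : ℤ) ^ 2 := by
            rw [hpD]
            have : (((nn a b p.1).natAbs : ℕ) : ℤ) =
                (K3N.sq (nn a b p.1).natAbs : ℤ) ^ 2 * (sf (nn a b p.1).natAbs : ℤ) := by
              conv_lhs => rw [← sq_sf (nn a b p.1).natAbs]
              push_cast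
              ring
            calc nn a b p.1 = (nn a b p.1).sign * (((nn a b p.1).natAbs : ℕ) : ℤ) :=
                  (Int.sign_mul_natAbs _).symm
              _ = _ := by rw [this]; ring
          exact_mod_cast e2
        rw [nn_cast] at e1
        rw [div_pow]
        field_simp
        linear_combination -e1
      · rw [logHeight₁_eq_log_mulHeight₁]
        have := one_le_mulHeight₁ p.1
        exact Real.log_le_log (by linarith) g3
      · rw [logHeight₁_eq_log_mulHeight₁]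
        have := one_le_mulHeight₁ p.2.1
        exact Real.log_le_log (by linarith) g4)
  rw [sum_const, nsmul_eq_mul] at h1
  have h4 : ((Icc (-(M : ℤ)) M).erase 0).card = 2 * M := by
    rw [card_erase_of_mem (by rw [mem_Icc]; omega), Int.card_Icc]
    omega
  rw [h4] at h1
  refine h1.trans (le_of_eq ?_)
  push_cast
  ring

end Pool.Agent.KBP
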